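import Pool.Agent.H97.NV.Defs

/-!
Nivat, module ShiftInd. PROOF. Suppose some `a i ≠ 0`, `i ∈ s`; restrict `s` to `{i ∈ s : a i ≠ 0}`, nonempty, with minimum `i₀` and maximum
`i₁`, `L := i₁ - i₀`. If `L = 0`: `w = 0`, periodic. Otherwise the state `σ(t) := (w (t), .., w (t + L - 1)) : Fin L → F` determines
`w (t + L)` (relation at `t - i₀`, `a i₁ ≠ 0`) and `w (t - 1)` (relation at `t - 1 - i₀`, `a i₀ ≠ 0`), hence `σ(t+1)` and `σ(t-1)`. Finitely many states
(`F` finite): two `t₁ < t₂` with `σ t₁ = σ t₂` (`Finite.exists_ne_map_eq_of_infinite`), by induction forward and backward `σ (t₁ + j) = σ (t₂ + j)` for all integers `j`, so `w` has period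
`t₂ - t₁`: `SPer w`, contradiction.
-/

set_option autoImplicit false

namespace Pool.Agent.H97.NV

theorem shift_indep {F : Type} [Field F] [Finite F] (w : ℤ → F) (hw : ¬ SPer w) (s : Finset ℤ)
    (a : ℤ → F) (h : ∀ t : ℤ, ∑ i ∈ s, a i * w (t + i) = 0) : ∀ i ∈ s, a i = 0 := by
  classical
  by_contra hne
  push Not at hne
  obtain ⟨j0, hj0, haj0⟩ := hne
  apply hw
  set S : Finset ℤ := s.filter (fun i => a i ≠ 0) with hS
  have hSne : S.Nonempty := ⟨j0, Finset.mem_filter.2 ⟨hj0, haj0⟩⟩
  have hsum : ∀ t : ℤ, ∑ i ∈ S, a i * w (t + i) = 0 := by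
    intro t
    rw [← h t, hS, Finset.sum_filter]
    refine Finset.sum_congr rfl fun i _ => ?_
    by_cases hi : a i = 0
    · simp [hi]
    · simp [hi]
  set i0 := S.min' hSne with hi0
  set i1 := S.max' hSne with hi1
  have ha0 : a i0 ≠ 0 := (Finset.mem_filter.1 (S.min'_mem hSne)).2
  have ha1 : a i1 ≠ 0 := (Finset.mem_filter.1 (S.max'_mem hSne)).2
  have hle : ∀ i ∈ S, i0 ≤ i ∧ i ≤ i1 := fun i hi => ⟨S.min'_le i hi, S.le_max' i hi⟩
  have hi01 : i0 ≤ i1 := (hle i1 (S.max'_mem hSne)).1
  obtain ⟨L, hL⟩ : ∃ L : ℕ, i1 = i0 + L := ⟨(i1 - i0).toNat, by omega⟩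
  -- the state
  have fwd : ∀ p q : ℤ, (∀ l : ℕ, l < L → w (p + l) = w (q + l)) → w (p + L) = w (q + L) := by
    intro p q hpq
    have e1 := hsum (p - i0)
    have e2 := hsum (q - i0)
    rw [← Finset.add_sum_erase S _ (S.max'_mem hSne)] at e1 e2
    have e3 : ∑ i ∈ S.erase (S.max' hSne), a i * w (p - i0 + i) =
        ∑ i ∈ S.erase (S.max' hSne), a i * w (q - i0 + i) := by
      refine Finset.sum_congr rfl fun i hi => ?_
      obtain ⟨hne1, hiS⟩ := Finset.mem_erase.1 hi
      have h1 := hle i hiS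
      have h2 : i < i1 := lt_of_le_of_ne h1.2 hne1
      have h3 := hpq (i - i0).toNat (by omega)
      have h4 : (((i - i0).toNat : ℕ) : ℤ) = i - i0 := by omega
      rw [h4] at h3
      have h5 : p - i0 + i = p + (i - i0) := by ring
      have h6 : q - i0 + i = q + (i - i0) := by ring
      rw [h5, h6, h3]
    rw [e3] at e1
    have e4 : a i1 * w (p - i0 + i1) = a i1 * w (q - i0 + i1) := by
      have := e1.trans e2.symm
      exact add_right_cancel this
    have e5 := mul_left_cancel₀ ha1 e4
    have h7 : p - i0 + i1 = p + L := by omega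
    have h8 : q - i0 + i1 = q + L := by omega
    rwa [h7, h8] at e5
  have bwd : ∀ p q : ℤ, (∀ l : ℕ, l < L → w (p + l) = w (q + l)) → w (p - 1) = w (q - 1) := by
    intro p q hpq
    have e1 := hsum (p - 1 - i0)
    have e2 := hsum (q - 1 - i0)
    rw [← Finset.add_sum_erase S _ (S.min'_mem hSne)] at e1 e2
    have e3 : ∑ i ∈ S.erase (S.min' hSne), a i * w (p - 1 - i0 + i) =
        ∑ i ∈ S.erase (S.min' hSne), a i * w (q - 1 - i0 + i) := by
      refine Finset.sum_congr rfl fun i hi => ?_
      obtain ⟨hne1, hiS⟩ := Finset.mem_erase.1 hi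
      have h1 := hle i hiS
      have h2 : i0 < i := lt_of_le_of_ne h1.1 (Ne.symm hne1)
      have h3 := hpq (i - i0 - 1).toNat (by omega)
      have h4 : (((i - i0 - 1).toNat : ℕ) : ℤ) = i - i0 - 1 := by omega
      rw [h4] at h3
      have h5 : p - 1 - i0 + i = p + (i - i0 - 1) := by ring
      have h6 : q - 1 - i0 + i = q + (i - i0 - 1) := by ring
      rw [h5, h6, h3]
    rw [e3] at e1
    have e4 : a i0 * w (p - 1 - i0 + i0) = a i0 * w (q - 1 - i0 + i0) := by
      have := e1.trans e2.symm
      exact add_right_cancel this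
    have e5 := mul_left_cancel₀ ha0 e4
    have h7 : p - 1 - i0 + i0 = p - 1 := by ring
    have h8 : q - 1 - i0 + i0 = q - 1 := by ring
    rwa [h7, h8] at e5
  obtain ⟨t1, t2, hne12, heq⟩ := Finite.exists_ne_map_eq_of_infinite
    (fun t : ℤ => (fun l : Fin L => w (t + (l : ℕ)) : Fin L → F))
  wlog hlt : t1 < t2 generalizing t1 t2
  · exact this t2 t1 hne12.symm heq.symm (by omega)
  have hst : ∀ l : ℕ, l < L → w (t1 + l) = w (t2 + l) := fun l hl => congrFun heq ⟨l, hl⟩
  have hf : ∀ n : ℕ, ∀ l : ℕ, l < L → w (t1 + n + l) = w (t2 + n + l) := by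
    intro n
    induction n with
    | zero => simpa using hst
    | succ n ih =>
      intro l hl
      have e : ∀ t : ℤ, t + ((n + 1 : ℕ) : ℤ) + l = t + n + ((l + 1 : ℕ) : ℤ) := by
        intro t
        push_cast
        ring
      rw [e, e]
      rcases Nat.lt_or_ge (l + 1) L with h1 | h1
      · exact ih _ h1
      · have h2 : l + 1 = L := by omega
        rw [h2]
        exact fwd _ _ ih
  have hb : ∀ n : ℕ, ∀ l : ℕ, l < L → w (t1 - n + l) = w (t2 - n + l) := by
    intro n
    induction n with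
    | zero => simpa using hst
    | succ n ih =>
      intro l hl
      rcases Nat.eq_zero_or_pos l with h1 | h1
      · subst h1
        have e := bwd _ _ ih
        have e1 : ∀ t : ℤ, t - ((n + 1 : ℕ) : ℤ) + ((0 : ℕ) : ℤ) = t - n - 1 := by
          intro t
          push_cast
          ring
        rw [e1, e1]
        exact e
      · have e := ih (l - 1) (by omega)
        have e1 : ∀ t : ℤ, t - ((n + 1 : ℕ) : ℤ) + (l : ℤ) = t - n + ((l - 1 : ℕ) : ℤ) := by
          intro t
          rw [Nat.cast_sub h1]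
          push_cast
          ring
        rw [e1, e1]
        exact e
  have hf0 : ∀ n : ℕ, w (t1 + n) = w (t2 + n) := by
    intro n
    rcases Nat.eq_zero_or_pos L with h0 | h0
    · have := fwd (t1 + n) (t2 + n) (fun l hl => absurd hl (by omega))
      rw [h0] at this
      simpa using this
    · have := hf n 0 h0
      simpa using this
  have hb0 : ∀ n : ℕ, w (t1 - n) = w (t2 - n) := by
    intro n
    rcases Nat.eq_zero_or_pos L with h0 | h0
    · have := fwd (t1 - n) (t2 - n) (fun l hl => absurd hl (by omega))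
      rw [h0] at this
      simpa using this
    · have := hb n 0 h0
      simpa using this
  refine ⟨(t2 - t1).toNat, by omega, fun t => ?_⟩
  have e1 : (((t2 - t1).toNat : ℕ) : ℤ) = t2 - t1 := by omega
  rw [e1]
  rcases le_or_gt t1 t with h1 | h1
  · have := hf0 (t - t1).toNat
    have e2 : (((t - t1).toNat : ℕ) : ℤ) = t - t1 := by omega
    rw [e2] at this
    have e3 : t1 + (t - t1) = t := by ring
    have e4 : t2 + (t - t1) = t + (t2 - t1) := by ring
    rw [e3, e4] at this
    exact this.symm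
  · have := hb0 (t1 - t).toNat
    have e2 : (((t1 - t).toNat : ℕ) : ℤ) = t1 - t := by omega
    rw [e2] at this
    have e3 : t1 - (t1 - t) = t := by ring
    have e4 : t2 - (t1 - t) = t + (t2 - t1) := by ring
    rw [e3, e4] at this
    exact this.symm

end Pool.Agent.H97.NV
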