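import Pool.Agent.H97.NV.IntMul
import Pool.Agent.H97.NV.ShiftInd

/-!
Nivat, module AnnTheta. PROOF. Suppose `H ≠ 0`. `exists_multiple`: `Q * H = mapDomain ι K`, `K ≠ 0`. So `(mapDomain ι K) ⋆ θ = 0`. Evaluate at
`z₀ + s • V₁ + t • V₂` (formula as in `dil_ac`: `(mapDomain ι K ⋆ θ) z = ∑ x ∈ K.coeff.support, K.coeff x * θ (z + ι x)`, prove it here by induction / `Finsupp.sum_mapDomain_index`):
`∑ x ∈ supp K, K x * (u (t + x.2) * v (s + x.1)) = 0` for all `s, t`. Fix `t` and group by `x.1`: `∑ i, (∑_{x ∈ supp K, x.1 = i} K x * u (t + x.2)) * v (s + i) = 0` for all `s`, so by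
`shift_indep v` each inner sum is `0` for all `t`, so by `shift_indep u` all `K x = 0`: contradiction. (Convenient: choose a finset product `S ×ˢ S'` containing the support.)
-/

set_option autoImplicit false

namespace Pool.Agent.H97.NV

private theorem AnnTheta_form {F : Type} [Field F] (V₁ V₂ : ℤ × ℤ) (K : Lau F)
    (θ : ℤ × ℤ → F) (z : ℤ × ℤ) :
    (ac (AddMonoidAlgebra.mapDomain (fun v : ℤ × ℤ => v.1 • V₁ + v.2 • V₂) K : Lau F) θ) z =
      ∑ x ∈ K.coeff.support, K.coeff x * θ (z + (x.1 • V₁ + x.2 • V₂)) := by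
  let ι : ℤ × ℤ →+ ℤ × ℤ :=
    { toFun := fun v => v.1 • V₁ + v.2 • V₂
      map_zero' := by simp
      map_add' := fun v w => by
        simp only [Prod.fst_add, Prod.snd_add, add_smul]
        abel }
  let φ : Lau F →+* Lau F := AddMonoidAlgebra.mapDomainRingHom F ι
  have hφ : ∀ K : Lau F, (AddMonoidAlgebra.mapDomain (fun v : ℤ × ℤ => v.1 • V₁ + v.2 • V₂) K :
      Lau F) = φ K := fun K => rfl
  have hs : ∀ (x : ℤ × ℤ) (a : F), φ (AddMonoidAlgebra.single x a) =
      AddMonoidAlgebra.single (x.1 • V₁ + x.2 • V₂) a := by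
    intro x a
    rw [← hφ, AddMonoidAlgebra.mapDomain_single]
  have h1 : φ K = ∑ x ∈ K.coeff.support,
      AddMonoidAlgebra.single (x.1 • V₁ + x.2 • V₂) (K.coeff x) := by
    conv_lhs => rw [← AddMonoidAlgebra.sum_coeff_single K]
    rw [Finsupp.sum, map_sum]
    exact Finset.sum_congr rfl fun x _ => hs x _
  rw [hφ, h1, sum_ac, Finset.sum_apply]
  exact Finset.sum_congr rfl fun x _ => ac_single _ _ _ _

theorem ann_theta {F : Type} [Field F] [Finite F] (θ : ℤ × ℤ → F) (z₀ V₁ V₂ : ℤ × ℤ)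
    (hdet : dt V₁ V₂ ≠ 0) (u v : ℤ → F) (hu : ¬ SPer u) (hv : ¬ SPer v)
    (hθ : ∀ s t : ℤ, θ (z₀ + s • V₁ + t • V₂) = u t * v s) (H : Lau F) (h : ac H θ = 0) :
    H = 0 := by
  classical
  by_contra hH
  obtain ⟨Q, K, hK, hQ⟩ := exists_multiple V₁ V₂ hdet H hH
  have h0 : ac (Q * H) θ = 0 := by rw [mul_ac, h, ac_zero]
  rw [hQ] at h0
  set S := K.coeff.support with hS
  have hmain : ∀ s t : ℤ, ∑ x ∈ S, K.coeff x * (u (t + x.2) * v (s + x.1)) = 0 := by
    intro s t
    have h1 := congrFun h0 (z₀ + s • V₁ + t • V₂)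
    rw [AnnTheta_form] at h1
    rw [← hS] at h1
    have h2 : (0 : ℤ × ℤ → F) (z₀ + s • V₁ + t • V₂) = 0 := rfl
    rw [h2] at h1
    rw [← h1]
    refine Finset.sum_congr rfl fun x _ => ?_
    have e : z₀ + s • V₁ + t • V₂ + (x.1 • V₁ + x.2 • V₂) =
        z₀ + (s + x.1) • V₁ + (t + x.2) • V₂ := by
      rw [add_smul, add_smul]; abel
    rw [e, hθ]
  have hstep1 : ∀ t : ℤ, ∀ i ∈ S.image Prod.fst,
      ∑ x ∈ S with x.1 = i, K.coeff x * u (t + x.2) = 0 := by
    intro t
    refine shift_indep v hv (S.image Prod.fst) (fun i => ∑ x ∈ S with x.1 = i,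
      K.coeff x * u (t + x.2)) fun s => ?_
    rw [← hmain s t, ← Finset.sum_fiberwise_of_maps_to
      (fun x hx => Finset.mem_image_of_mem Prod.fst hx)]
    refine Finset.sum_congr rfl fun i _ => ?_
    rw [Finset.sum_mul]
    refine Finset.sum_congr rfl fun x hx => ?_
    rw [(Finset.mem_filter.mp hx).2]
    ring
  have hstep2 : ∀ i ∈ S.image Prod.fst, ∀ j ∈ (S.filter fun x => x.1 = i).image Prod.snd,
      K.coeff (i, j) = 0 := by
    intro i hi
    refine shift_indep u hu ((S.filter fun x => x.1 = i).image Prod.snd)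
      (fun j => K.coeff (i, j)) fun t => ?_
    rw [Finset.sum_image, ← hstep1 t i hi]
    · refine Finset.sum_congr rfl fun x hx => ?_
      have hx1 : x.1 = i := (Finset.mem_filter.mp hx).2
      rw [← hx1]
    · intro x hx y hy hxy
      have hx1 : x.1 = i := (Finset.mem_filter.mp hx).2
      have hy1 : y.1 = i := (Finset.mem_filter.mp hy).2
      exact Prod.ext (hx1.trans hy1.symm) hxy
  apply hK
  have hSe : S = ∅ := by
    rw [Finset.eq_empty_iff_forall_notMem]
    intro x hx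
    have h1 := hstep2 x.1 (Finset.mem_image_of_mem _ hx) x.2
      (Finset.mem_image_of_mem _ (Finset.mem_filter.mpr ⟨hx, rfl⟩))
    exact (Finsupp.mem_support_iff.mp hx) h1
  have hc : K.coeff = 0 := Finsupp.support_eq_empty.mp hSe
  rw [← AddMonoidAlgebra.sum_coeff_single K, hc, Finsupp.sum_zero_index]

end Pool.Agent.H97.NV
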