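import Pool.Agent.H97.NV.Basic

/-!
Nivat, module Annih. PROOF. The range of `blk c n m` is a finite set `𝓑` with at most `n*m` elements (nonempty).
Consider the linear map `L : ℚ × (Fin n × Fin m → ℚ) → (𝓑 → ℚ)`, `(l, f) ↦ (b ↦ l + ∑ q, f q * b q)`.
The source has dimension `n*m+1 > card 𝓑`, so there is `(l, f) ≠ 0` in the kernel
(`LinearMap.exists_ne_zero_of_finrank_lt` or similar). If `f = 0` then `l = 0` (𝓑 nonempty). So `f ≠ 0`. Clear
denominators: integers `l', f'`, `f' ≠ 0`. Put `f₀ := ∑ q, single (q.1, q.2) (f' q) : Lau ℤ` (nonzero: the points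
`(q.1, q.2)` are different), so `(f₀ ⋆ c) z = ∑ q, f' q * blk c n m z q = -l'` for all `z`. Then
`f := (mon (1,0) - 1) * f₀` is nonzero (`Lau ℤ` has no zero divisors) and `f ⋆ c = 0`.
-/

set_option autoImplicit false

namespace Pool.Agent.H97.NV

theorem exists_annihilator (c : ℤ × ℤ → ℤ) (n m : ℕ)
    (hfin : (Set.range (blk c n m)).Finite)
    (hP : (Set.range (blk c n m)).ncard ≤ n * m) :
    ∃ f : Lau ℤ, f ≠ 0 ∧ ac f c = 0 := by
  classical
  set S : Finset (Fin n × Fin m → ℤ) := hfin.toFinset with hS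
  have hScard : S.card ≤ n * m := by
    rw [Set.ncard_eq_toFinset_card _ hfin] at hP
    exact hP
  let L : (ℤ × (Fin n × Fin m → ℤ)) →ₗ[ℤ] (S → ℤ) :=
    { toFun := fun x b => x.1 + ∑ q, x.2 q * b.1 q
      map_add' := fun x y => by
        funext b
        simp only [Prod.fst_add, Prod.snd_add, Pi.add_apply, add_mul, Finset.sum_add_distrib]
        ring
      map_smul' := fun a x => by
        funext b
        simp only [Prod.smul_fst, Prod.smul_snd, Pi.smul_apply, smul_eq_mul, RingHom.id_apply,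
          mul_add, Finset.mul_sum]
        congr 1
        exact Finset.sum_congr rfl fun q _ => by ring }
  have hker : LinearMap.ker L ≠ ⊥ := by
    intro hk
    have h1 := LinearMap.finrank_le_finrank_of_injective (LinearMap.ker_eq_bot.mp hk)
    rw [Module.finrank_prod, Module.finrank_self, Module.finrank_fintype_fun_eq_card,
      Module.finrank_fintype_fun_eq_card, Fintype.card_coe, Fintype.card_prod, Fintype.card_fin,
      Fintype.card_fin] at h1
    omega
  obtain ⟨⟨l, g⟩, hx, hx0⟩ := Submodule.exists_mem_ne_zero_of_ne_bot hker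
  have hL : ∀ z, ∑ q, g q * blk c n m z q = -l := by
    intro z
    have hz : blk c n m z ∈ S := by
      rw [hS, Set.Finite.mem_toFinset]
      exact ⟨z, rfl⟩
    have h1 := congrFun (LinearMap.mem_ker.mp hx) ⟨blk c n m z, hz⟩
    have h2 : l + ∑ q, g q * blk c n m z q = 0 := h1
    linarith
  have hg0 : g ≠ 0 := by
    rintro rfl
    apply hx0
    have h1 := hL 0
    simp only [Pi.zero_apply, zero_mul, Finset.sum_const_zero] at h1
    have h2 : l = 0 := by linarith
    rw [h2]
    rfl
  let pos : Fin n × Fin m → ℤ × ℤ := fun q => (((q.1 : ℕ) : ℤ), ((q.2 : ℕ) : ℤ))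
  have hpos : Function.Injective pos := by
    rintro ⟨a, b⟩ ⟨a', b'⟩ h
    have h1 : ((a : ℕ) : ℤ) = ((a' : ℕ) : ℤ) := congrArg Prod.fst h
    have h2 : ((b : ℕ) : ℤ) = ((b' : ℕ) : ℤ) := congrArg Prod.snd h
    have h3 : a = a' := Fin.ext (by exact_mod_cast h1)
    have h4 : b = b' := Fin.ext (by exact_mod_cast h2)
    rw [h3, h4]
  let f0 : Lau ℤ := ∑ q, AddMonoidAlgebra.single (pos q) (g q)
  have hf0c : ∀ z, (ac f0 c) z = -l := by
    intro z
    show (ac (∑ q, AddMonoidAlgebra.single (pos q) (g q) : Lau ℤ) c) z = -l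
    rw [sum_ac, Finset.sum_apply, ← hL z]
    refine Finset.sum_congr rfl fun q _ => ?_
    rw [ac_single]
    rfl
  have hf0 : f0 ≠ 0 := by
    intro h
    apply hg0
    funext q
    have h1 : f0.coeff (pos q) = 0 := by
      rw [h]
      rfl
    have h2 : f0.coeff (pos q) = g q := by
      show (∑ q', AddMonoidAlgebra.single (pos q') (g q') : Lau ℤ).coeff (pos q) = g q
      rw [AddMonoidAlgebra.coeff_sum, Finsupp.finsetSum_apply, Finset.sum_eq_single q]
      · simp
      · intro q' _ hq'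
        have h3 : pos q' ≠ pos q := fun e => hq' (hpos e)
        simp [h3]
      · intro h3
        exact absurd (Finset.mem_univ q) h3
    rw [← h2, h1]
    rfl
  have hmon : (mon (1, 0) - 1 : Lau ℤ) ≠ 0 := by
    intro h
    have h1 : (mon (1, 0) - 1 : Lau ℤ).coeff (1, 0) = 0 := by
      rw [h]
      rfl
    have h2 : (mon (1, 0) - 1 : Lau ℤ) =
        AddMonoidAlgebra.single (1, 0) 1 - AddMonoidAlgebra.single (0, 0) 1 := rfl
    rw [h2] at h1
    simp at h1
  refine ⟨(mon (1, 0) - 1) * f0, mul_ne_zero hmon hf0, ?_⟩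
  rw [mul_ac, mon_sub_one_ac_eq_zero_iff]
  intro z
  rw [hf0c, hf0c]

end Pool.Agent.H97.NV
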