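import Pool.Agent.H97.NV.Defs

/-!
Nivat, module Basic (helper97): closure properties of `Dbl` and `Per`.
-/

set_option autoImplicit false
set_option linter.unusedSectionVars false

namespace Pool.Agent.H97.NV

open Polynomial

section

variable {k : Type} [CommRing k]

/-- multiples of a period -/
theorem per_mul {w : ℤ × ℤ} {c : ℤ × ℤ → k} {T : ℤ} (h : ∀ z : ℤ × ℤ, c (z + T • w) = c z)
    (a : ℤ) : ∀ z : ℤ × ℤ, c (z + (a * T) • w) = c z := by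
  have h' : ∀ z : ℤ × ℤ, c (z + (-T) • w) = c z := fun z => by
    rw [← h (z + (-T) • w), neg_smul, neg_add_cancel_right]
  have key : ∀ (S : ℤ), (∀ z : ℤ × ℤ, c (z + S • w) = c z) →
      ∀ n : ℕ, ∀ z : ℤ × ℤ, c (z + ((n : ℤ) * S) • w) = c z := by
    intro S hS n
    induction n with
    | zero => intro z; simp
    | succ n ih =>
      intro z
      have : z + ((((n + 1 : ℕ) : ℤ)) * S) • w = (z + ((n : ℤ) * S) • w) + S • w := by
        rw [add_assoc, ← add_smul]; congr 2; push_cast; ring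
      rw [this, hS, ih]
  rcases Int.eq_nat_or_neg a with ⟨n, rfl | rfl⟩
  · exact key T h n
  · intro z
    have := key (-T) h' n z
    rwa [mul_neg, ← neg_mul] at this

theorem Dbl.per {c : ℤ × ℤ → k} (h : Dbl c) (w : ℤ × ℤ) : Per w c := by
  obtain ⟨T, hT, h⟩ := h
  exact ⟨T, hT, fun z => h z w⟩

theorem dbl_mul {c : ℤ × ℤ → k} {T : ℤ} (h : ∀ z v : ℤ × ℤ, c (z + T • v) = c z)
    (a : ℤ) : ∀ z v : ℤ × ℤ, c (z + (a * T) • v) = c z := by
  intro z v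
  rw [mul_comm, mul_smul]
  exact h z _

theorem Dbl.zero : Dbl (0 : ℤ × ℤ → k) := ⟨1, one_pos, fun _ _ => rfl⟩

theorem Dbl.const (a : k) : Dbl (fun _ : ℤ × ℤ => a) := ⟨1, one_pos, fun _ _ => rfl⟩

theorem Dbl.add {c d : ℤ × ℤ → k} (hc : Dbl c) (hd : Dbl d) : Dbl (c + d) := by
  obtain ⟨T, hT, h⟩ := hc
  obtain ⟨S, hS, h'⟩ := hd
  refine ⟨T * S, Nat.mul_pos hT hS, fun z v => ?_⟩
  have e1 := dbl_mul h S z v
  have e2 := dbl_mul h' T z v
  simp only [Pi.add_apply]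
  push_cast
  rw [e2, mul_comm, e1]

theorem Dbl.smul {c : ℤ × ℤ → k} (a : k) (hc : Dbl c) : Dbl (a • c) := by
  obtain ⟨T, hT, h⟩ := hc
  exact ⟨T, hT, fun z v => by rw [Pi.smul_apply, Pi.smul_apply, h z v]⟩

theorem Dbl.neg {c : ℤ × ℤ → k} (hc : Dbl c) : Dbl (-c) := by
  obtain ⟨T, hT, h⟩ := hc
  exact ⟨T, hT, fun z v => by rw [Pi.neg_apply, Pi.neg_apply, h z v]⟩

theorem Dbl.sub {c d : ℤ × ℤ → k} (hc : Dbl c) (hd : Dbl d) : Dbl (c - d) := by
  rw [sub_eq_add_neg]; exact hc.add hd.neg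

theorem Dbl.ac {c : ℤ × ℤ → k} (f : Lau k) (hc : Dbl c) : Dbl (ac f c) := by
  obtain ⟨T, hT, h⟩ := hc
  refine ⟨T, hT, fun z v => ?_⟩
  rw [ac_apply, ac_apply]
  exact Finset.sum_congr rfl fun u _ => by rw [add_right_comm, h]

theorem Per.zero (w : ℤ × ℤ) : Per w (0 : ℤ × ℤ → k) := ⟨1, one_pos, fun _ => rfl⟩

theorem Per.add {w : ℤ × ℤ} {c d : ℤ × ℤ → k} (hc : Per w c) (hd : Per w d) : Per w (c + d) := by
  obtain ⟨T, hT, h⟩ := hc
  obtain ⟨S, hS, h'⟩ := hd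
  refine ⟨T * S, Nat.mul_pos hT hS, fun z => ?_⟩
  have e1 := per_mul h S z
  have e2 := per_mul h' T z
  simp only [Pi.add_apply]
  push_cast
  rw [e2, mul_comm, e1]

theorem Per.neg {w : ℤ × ℤ} {c : ℤ × ℤ → k} (hc : Per w c) : Per w (-c) := by
  obtain ⟨T, hT, h⟩ := hc
  exact ⟨T, hT, fun z => by rw [Pi.neg_apply, Pi.neg_apply, h z]⟩

theorem Per.ac {w : ℤ × ℤ} {c : ℤ × ℤ → k} (f : Lau k) (hc : Per w c) : Per w (ac f c) := by
  obtain ⟨T, hT, h⟩ := hc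
  refine ⟨T, hT, fun z => ?_⟩
  rw [ac_apply, ac_apply]
  exact Finset.sum_congr rfl fun u _ => by rw [add_right_comm, h]

/-- `X^v` periodic means killed by `X^v - 1`. -/
theorem mon_sub_one_ac_eq_zero_iff (v : ℤ × ℤ) (c : ℤ × ℤ → k) :
    (ac (mon v - 1 : Lau k) c) = 0 ↔ ∀ z, c (z + v) = c z := by
  rw [sub_ac, one_ac, sub_eq_zero]
  constructor
  · intro h z
    have := congrFun h z
    rwa [mon_ac] at this
  · intro h
    funext z
    rw [mon_ac, h]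

theorem per_iff (w : ℤ × ℤ) (c : ℤ × ℤ → k) :
    Per w c ↔ ∃ T : ℕ, 0 < T ∧ (ac (mon ((T : ℤ) • w) - 1 : Lau k) c) = 0 := by
  simp only [Per, mon_sub_one_ac_eq_zero_iff]

/-- Two nonparallel periods give double periodicity. -/
theorem Dbl.of_per {v w : ℤ × ℤ} (hvw : dt v w ≠ 0) {c : ℤ × ℤ → k} (hv : Per v c)
    (hw : Per w c) : Dbl c := by
  obtain ⟨T, hT, h⟩ := hv
  obtain ⟨S, hS, h'⟩ := hw
  refine ⟨T * S * (dt v w).natAbs, Nat.mul_pos (Nat.mul_pos hT hS)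
    (Int.natAbs_pos.mpr hvw), fun z u => ?_⟩
  obtain ⟨ε, hε⟩ : ∃ ε : ℤ, ((dt v w).natAbs : ℤ) = ε * dt v w := by
    rcases Int.natAbs_eq (dt v w) with h | h
    · exact ⟨1, by rw [← h]; ring⟩
    · exact ⟨-1, by rw [h]; simp⟩
  have e : (((T * S * (dt v w).natAbs : ℕ)) : ℤ) • u =
      ((S * ε * dt u w) * T) • v + ((T * ε * dt v u) * S) • w := by
    rw [Nat.cast_mul, Nat.cast_mul, hε]
    ext
    · simp only [Prod.smul_fst, Prod.fst_add, smul_eq_mul, dt]; ring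
    · simp only [Prod.smul_snd, Prod.snd_add, smul_eq_mul, dt]; ring
  rw [e, ← add_assoc, per_mul h' _ _, per_mul h _ _]

end

section charp

variable {F : Type} [Field F]

/-- `(X^V - 1)^2` divides `X^(pV) - 1` in characteristic `p`. -/
theorem sq_dvd (p : ℕ) [Fact p.Prime] [CharP F p] (V : ℤ × ℤ) :
    (mon V - 1 : Lau F) ^ 2 ∣ mon ((p : ℤ) • V) - 1 := by
  have hp : 2 ≤ p := (Fact.out : p.Prime).two_le
  have : CharP (Lau F) p := by
    exact charP_of_injective_algebraMap (algebraMap F (Lau F)).injective p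
  have : (mon ((p : ℤ) • V) - 1 : Lau F) = (mon V - 1) ^ p := by
    rw [sub_pow_char, one_pow, mon_nsmul]
  rw [this]
  exact pow_dvd_pow _ hp

/-- FACT 0: if `(X^(T v) - 1) h` is doubly periodic then `h` is `v`-periodic. -/
theorem fact0 (p : ℕ) [Fact p.Prime] [CharP F p] {v : ℤ × ℤ} {T : ℕ} (hT : 0 < T)
    {h : ℤ × ℤ → F} (hD : Dbl (ac (mon ((T : ℤ) • v) - 1 : Lau F) h)) : Per v h := by
  obtain ⟨S, hS, hh⟩ := hD
  have h1 : (ac (mon (((T * S : ℕ) : ℤ) • v) - 1 : Lau F) (ac (mon ((T : ℤ) • v) - 1 : Lau F) h)) = 0 := by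
    rw [mon_sub_one_ac_eq_zero_iff]
    intro z
    have := hh z ((T : ℤ) • v)
    rw [smul_smul] at this
    rw [← this]
    congr 3
    push_cast; ring
  have h2 : (ac ((mon (((T * S : ℕ) : ℤ) • v) - 1 : Lau F) ^ 2) h) = 0 := by
    obtain ⟨q, hq⟩ : (mon ((T : ℤ) • v) - 1 : Lau F) ∣ (mon (((T * S : ℕ) : ℤ) • v) - 1 : Lau F) := by
      have : (mon (((T * S : ℕ) : ℤ) • v) : Lau F) = mon ((T : ℤ) • v) ^ S := by
        rw [← mon_nsmul, smul_smul]; congr 2; push_cast; ring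
      rw [this]
      exact sub_one_dvd_pow_sub_one _ _
    rw [sq, mul_ac]
    nth_rewrite 2 [hq]
    rw [mul_comm (mon ((T : ℤ) • v) - 1 : Lau F) q, mul_ac, ac_comm, h1, ac_zero]
  obtain ⟨q, hq⟩ := sq_dvd (F := F) p (((T * S : ℕ) : ℤ) • v)
  rw [per_iff]
  refine ⟨p * (T * S), Nat.mul_pos (Fact.out : p.Prime).pos (Nat.mul_pos hT hS), ?_⟩
  have : ((((p * (T * S) : ℕ)) : ℤ) • v) = (p : ℤ) • (((T * S : ℕ) : ℤ) • v) := by
    rw [smul_smul]; push_cast; rfl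
  rw [this, hq, mul_comm, mul_ac, h2, ac_zero]

end charp

end Pool.Agent.H97.NV
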