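import Pool.Agent.H97.NV.BoxMul

/-!
Nivat, module BoxDiv. PROOF. If `h = 0` nothing to show. Otherwise, for each of the four functionals `ℓ = ±v.1, ±v.2`, let `β` be the
maximum of `ℓ` on the support of `h` (attained) and `α` the maximum on the support of `Φ` (`A`, `0`, `B`, `0`).
`exists_support_mul` gives a point of the support of `Φ * h` with `ℓ = α + β`; with `hf`: for `ℓ = v.1`: `A + max v.1 < n`; for
`ℓ = -v.1`: `0 + max(-v.1) ≤ 0`; etc.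
-/

set_option autoImplicit false

namespace Pool.Agent.H97.NV

theorem support_of_mul {F : Type} [Field F] (Φ h : Lau F) (A B : ℕ) (hΦ : HasBox Φ A B)
    (n m : ℕ)
    (hf : ∀ v ∈ (Φ * h).coeff.support, 0 ≤ v.1 ∧ v.1 < n ∧ 0 ≤ v.2 ∧ v.2 < m) :
    ∀ v ∈ h.coeff.support, 0 ≤ v.1 ∧ v.1 + A < n ∧ 0 ≤ v.2 ∧ v.2 + B < m := by
  intro v hv
  obtain ⟨hf0, hf1, hf2, hf3, hf4⟩ := hΦ
  have key : ∀ (ℓ : ℤ × ℤ →+ ℤ) (α : ℤ), (∀ v ∈ Φ.coeff.support, ℓ v ≤ α) →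
      (∃ v ∈ Φ.coeff.support, ℓ v = α) →
      ∃ u ∈ (Φ * h).coeff.support, α + ℓ v ≤ ℓ u := by
    intro ℓ α h1 h2
    obtain ⟨w, hw, hmax⟩ := Finset.exists_max_image h.coeff.support ℓ ⟨v, hv⟩
    obtain ⟨u, hu, e⟩ := exists_support_mul ℓ Φ h α (ℓ w) h1 h2 hmax ⟨w, hw, rfl⟩
    exact ⟨u, hu, by rw [e]; have := hmax v hv; omega⟩
  obtain ⟨u1, hu1, e1⟩ := key (AddMonoidHom.fst ℤ ℤ) A
    (fun v hv => by have := hf0 v hv; simp; omega)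
    (by obtain ⟨v, hv, e⟩ := hf2; exact ⟨v, hv, by simp [e]⟩)
  obtain ⟨u2, hu2, e2⟩ := key (-(AddMonoidHom.fst ℤ ℤ)) 0
    (fun v hv => by have := hf0 v hv; simp; omega)
    (by obtain ⟨v, hv, e⟩ := hf1; exact ⟨v, hv, by simp [e]⟩)
  obtain ⟨u3, hu3, e3⟩ := key (AddMonoidHom.snd ℤ ℤ) B
    (fun v hv => by have := hf0 v hv; simp; omega)
    (by obtain ⟨v, hv, e⟩ := hf4; exact ⟨v, hv, by simp [e]⟩)
  obtain ⟨u4, hu4, e4⟩ := key (-(AddMonoidHom.snd ℤ ℤ)) 0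
    (fun v hv => by have := hf0 v hv; simp; omega)
    (by obtain ⟨v, hv, e⟩ := hf3; exact ⟨v, hv, by simp [e]⟩)
  have g1 := hf u1 hu1
  have g2 := hf u2 hu2
  have g3 := hf u3 hu3
  have g4 := hf u4 hu4
  simp only [AddMonoidHom.coe_fst, AddMonoidHom.coe_snd, AddMonoidHom.neg_apply] at e1 e2 e3 e4
  omega

end Pool.Agent.H97.NV
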