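import Pool.Agent.H97.NV.Basic

/-!
Nivat, module BoxEv. PROOF. `d := φ.natDegree`. `ev w φ = ∑ j ≤ d, single (j • w) (φ.coeff j)` (`Polynomial.aeval_eq_sum_range`), and
the points `j • w` are different (`w ≠ 0`), so the support is `{j • w : φ.coeff j ≠ 0}`, which contains `0` and `d • w` (leading coefficient;
`φ ≠ 0`). Put `u := (max 0 (-(d * w.1)), max 0 (-(d * w.2)))`: the support of `mon u * ev w φ` is `{u + j • w : ..}`; if `w.1 ≥ 0` the
first coordinates `j w.1` are in `[0, d w.1]` with the extremes at `j = 0, d`; if `w.1 < 0` the first coordinates are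
`(d - j) |w.1|`, the extremes at `j = d, 0`. Same for the second coordinate.
-/

set_option autoImplicit false

namespace Pool.Agent.H97.NV

open Polynomial

/-- the coefficients of `mon u * ev w φ` -/
private theorem boxEv_coeff {F : Type} [Field F] (φ : F[X]) (u w v : ℤ × ℤ) :
    (mon u * ev w φ : Lau F).coeff v =
      ∑ j ∈ Finset.range (φ.natDegree + 1), if u + (j : ℤ) • w = v then φ.coeff j else 0 := by
  have h1 : (mon u * ev w φ : Lau F) =
      ∑ j ∈ Finset.range (φ.natDegree + 1), φ.coeff j • mon (u + (j : ℤ) • w) := by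
    rw [ev, Polynomial.aeval_eq_sum_range, Finset.mul_sum]
    refine Finset.sum_congr rfl fun j _ => ?_
    rw [mon_add, mon_nsmul, mul_smul_comm]
  rw [h1, AddMonoidAlgebra.coeff_sum, Finsupp.finsetSum_apply]
  refine Finset.sum_congr rfl fun j _ => ?_
  rw [AddMonoidAlgebra.coeff_smul_apply, mon, AddMonoidAlgebra.coeff_single,
    Finsupp.single_apply, smul_eq_mul]
  split_ifs
  · rw [mul_one]
  · rw [mul_zero]

private theorem boxEv_inj {u w : ℤ × ℤ} (hw : w ≠ 0) {i j : ℕ}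
    (h : u + (i : ℤ) • w = u + (j : ℤ) • w) : i = j := by
  have h1 := add_left_cancel h
  have h2 : (i : ℤ) * w.1 = (j : ℤ) * w.1 := by
    have := congrArg Prod.fst h1
    simpa using this
  have h3 : (i : ℤ) * w.2 = (j : ℤ) * w.2 := by
    have := congrArg Prod.snd h1
    simpa using this
  by_cases h4 : w.1 = 0
  · have h5 : w.2 ≠ 0 := fun h6 => hw (Prod.ext h4 h6)
    exact_mod_cast mul_right_cancel₀ h5 h3
  · exact_mod_cast mul_right_cancel₀ h4 h2

/-- membership in the support, first direction -/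
private theorem boxEv_of_mem {F : Type} [Field F] {φ : F[X]} {u w v : ℤ × ℤ}
    (hv : v ∈ (mon u * ev w φ : Lau F).coeff.support) :
    ∃ j : ℕ, j ≤ φ.natDegree ∧ v = u + (j : ℤ) • w := by
  by_contra hc
  push Not at hc
  rw [Finsupp.mem_support_iff, boxEv_coeff] at hv
  apply hv
  refine Finset.sum_eq_zero fun j hj => ?_
  rw [if_neg]
  intro h
  exact hc j (Nat.lt_succ_iff.mp (Finset.mem_range.mp hj)) h.symm

/-- membership in the support, second direction -/
private theorem boxEv_mem {F : Type} [Field F] {φ : F[X]} {u w : ℤ × ℤ} (hw : w ≠ 0) {j : ℕ}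
    (hj : φ.coeff j ≠ 0) : u + (j : ℤ) • w ∈ (mon u * ev w φ : Lau F).coeff.support := by
  rw [Finsupp.mem_support_iff, boxEv_coeff, Finset.sum_eq_single j]
  · rw [if_pos rfl]
    exact hj
  · intro i _ hij
    rw [if_neg]
    intro h
    exact hij (boxEv_inj hw h)
  · intro h
    exact absurd (Finset.mem_range.mpr (Nat.lt_succ_of_le (Polynomial.le_natDegree_of_ne_zero hj))) h

/-- one coordinate: bounds -/
private theorem boxEv_bounds (a : ℤ) {d j : ℕ} (hj : j ≤ d) :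
    0 ≤ max 0 (-((d : ℤ) * a)) + (j : ℤ) * a ∧
      max 0 (-((d : ℤ) * a)) + (j : ℤ) * a ≤ ((d * a.natAbs : ℕ) : ℤ) := by
  have hj' : (j : ℤ) ≤ (d : ℤ) := by exact_mod_cast hj
  have hj0 : (0 : ℤ) ≤ (j : ℤ) := Int.natCast_nonneg j
  rcases le_total 0 a with ha | ha
  · have h1 : max 0 (-((d : ℤ) * a)) = 0 := max_eq_left (by nlinarith)
    have h2 : ((d * a.natAbs : ℕ) : ℤ) = (d : ℤ) * a := by
      push_cast
      rw [abs_of_nonneg ha]
    rw [h1, h2]
    constructor <;> nlinarith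
  · have h1 : max 0 (-((d : ℤ) * a)) = -((d : ℤ) * a) := max_eq_right (by nlinarith)
    have h2 : ((d * a.natAbs : ℕ) : ℤ) = -((d : ℤ) * a) := by
      push_cast
      rw [abs_of_nonpos ha]
      ring
    rw [h1, h2]
    constructor <;> nlinarith

/-- one coordinate: the extreme values are taken at `j = 0` and `j = d` -/
private theorem boxEv_ext (a : ℤ) (d : ℕ) :
    (∃ j : ℕ, (j = 0 ∨ j = d) ∧ max 0 (-((d : ℤ) * a)) + (j : ℤ) * a = 0) ∧
      ∃ j : ℕ, (j = 0 ∨ j = d) ∧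
        max 0 (-((d : ℤ) * a)) + (j : ℤ) * a = ((d * a.natAbs : ℕ) : ℤ) := by
  have hd0 : (0 : ℤ) ≤ (d : ℤ) := Int.natCast_nonneg d
  rcases le_total 0 a with ha | ha
  · have h1 : max 0 (-((d : ℤ) * a)) = 0 := max_eq_left (by nlinarith)
    have h2 : ((d * a.natAbs : ℕ) : ℤ) = (d : ℤ) * a := by
      push_cast
      rw [abs_of_nonneg ha]
    refine ⟨⟨0, Or.inl rfl, ?_⟩, ⟨d, Or.inr rfl, ?_⟩⟩
    · rw [h1]
      push_cast
      ring
    · rw [h1, h2]
      ring
  · have h1 : max 0 (-((d : ℤ) * a)) = -((d : ℤ) * a) := max_eq_right (by nlinarith)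
    have h2 : ((d * a.natAbs : ℕ) : ℤ) = -((d : ℤ) * a) := by
      push_cast
      rw [abs_of_nonpos ha]
      ring
    refine ⟨⟨d, Or.inr rfl, ?_⟩, ⟨0, Or.inl rfl, ?_⟩⟩
    · rw [h1]
      ring
    · rw [h1, h2]
      push_cast
      ring

theorem hasBox_ev {F : Type} [Field F] (φ : F[X]) (hφ0 : φ.coeff 0 ≠ 0) (w : ℤ × ℤ)
    (hw : w ≠ 0) :
    ∃ u : ℤ × ℤ, HasBox (mon u * ev w φ) (φ.natDegree * w.1.natAbs) (φ.natDegree * w.2.natAbs) := by
  have hlead : φ.coeff φ.natDegree ≠ 0 := by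
    have hφ : φ ≠ 0 := by
      intro h
      apply hφ0
      rw [h, Polynomial.coeff_zero]
    exact Polynomial.leadingCoeff_ne_zero.mpr hφ
  have hend : ∀ j : ℕ, j = 0 ∨ j = φ.natDegree → φ.coeff j ≠ 0 := by
    rintro j (rfl | rfl)
    · exact hφ0
    · exact hlead
  refine ⟨(max 0 (-((φ.natDegree : ℤ) * w.1)), max 0 (-((φ.natDegree : ℤ) * w.2))),
    ?_, ?_, ?_, ?_, ?_⟩
  · intro v hv
    obtain ⟨j, hj, rfl⟩ := boxEv_of_mem hv
    have h1 := boxEv_bounds w.1 hj
    have h2 := boxEv_bounds w.2 hj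
    exact ⟨h1.1, h1.2, h2.1, h2.2⟩
  · obtain ⟨j, hj, h⟩ := (boxEv_ext w.1 φ.natDegree).1
    exact ⟨_, boxEv_mem hw (hend j hj), h⟩
  · obtain ⟨j, hj, h⟩ := (boxEv_ext w.1 φ.natDegree).2
    exact ⟨_, boxEv_mem hw (hend j hj), h⟩
  · obtain ⟨j, hj, h⟩ := (boxEv_ext w.2 φ.natDegree).1
    exact ⟨_, boxEv_mem hw (hend j hj), h⟩
  · obtain ⟨j, hj, h⟩ := (boxEv_ext w.2 φ.natDegree).2
    exact ⟨_, boxEv_mem hw (hend j hj), h⟩

end Pool.Agent.H97.NV
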