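import Pool.Agent.H97.NV.Edge

/-!
Nivat, module BoxMul. PROOFS. `HasBox.mul`: the support of `f * g` is in the sum of the supports (so inside
`[0, A+A'] × [0, B+B']`), and `exists_support_mul` for the four functionals `ℓ v = v.1`, `-v.1`, `v.2`, `-v.2` gives the four points.
`HasBox.one`: support `{0}`. `HasBox.ne_zero`: support nonempty. `hasBox_prod`: Finset induction with `HasBox.mul`:
if each `mon (u i) * f i` has box `(A i, B i)`, then `mon (∑ u i) * ∏ f i` has box `(∑ A i, ∑ B i)`.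
-/

set_option autoImplicit false

namespace Pool.Agent.H97.NV

private theorem BoxMul_mem {F : Type} [Field F] {f g : Lau F} {v : ℤ × ℤ}
    (hv : v ∈ (f * g).coeff.support) :
    ∃ a ∈ f.coeff.support, ∃ b ∈ g.coeff.support, v = a + b := by
  classical
  by_contra hcon
  push Not at hcon
  rw [Finsupp.mem_support_iff, AddMonoidAlgebra.coeff_mul] at hv
  refine hv (Finset.sum_eq_zero fun a ha => Finset.sum_eq_zero fun b hb => ?_)
  exact if_neg fun e => hcon a ha b hb e.symm

private theorem BoxMul_one_coeff {F : Type} [Field F] (v : ℤ × ℤ) :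
    (1 : Lau F).coeff v = if v = 0 then 1 else 0 := by
  classical
  rw [AddMonoidAlgebra.one_def, AddMonoidAlgebra.coeff_single, Finsupp.single_apply]
  simp only [eq_comm]

theorem HasBox.mul {F : Type} [Field F] {f g : Lau F} {A B A' B' : ℕ} (hf : HasBox f A B)
    (hg : HasBox g A' B') : HasBox (f * g) (A + A') (B + B') := by
  obtain ⟨hf0, hf1, hf2, hf3, hf4⟩ := hf
  obtain ⟨hg0, hg1, hg2, hg3, hg4⟩ := hg
  refine ⟨?_, ?_, ?_, ?_, ?_⟩
  · intro v hv
    obtain ⟨a, ha, b, hb, rfl⟩ := BoxMul_mem hv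
    have h1 := hf0 a ha
    have h2 := hg0 b hb
    simp only [Prod.fst_add, Prod.snd_add]
    push_cast
    omega
  · obtain ⟨v, hv, e⟩ := exists_support_mul (-(AddMonoidHom.fst ℤ ℤ)) f g 0 0
      (fun v hv => by have := hf0 v hv; simp; omega)
      (by obtain ⟨v, hv, e⟩ := hf1; exact ⟨v, hv, by simp [e]⟩)
      (fun v hv => by have := hg0 v hv; simp; omega)
      (by obtain ⟨v, hv, e⟩ := hg1; exact ⟨v, hv, by simp [e]⟩)
    exact ⟨v, hv, by simpa using e⟩
  · obtain ⟨v, hv, e⟩ := exists_support_mul (AddMonoidHom.fst ℤ ℤ) f g A A'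
      (fun v hv => by have := hf0 v hv; simp; omega)
      (by obtain ⟨v, hv, e⟩ := hf2; exact ⟨v, hv, by simp [e]⟩)
      (fun v hv => by have := hg0 v hv; simp; omega)
      (by obtain ⟨v, hv, e⟩ := hg2; exact ⟨v, hv, by simp [e]⟩)
    exact ⟨v, hv, by simpa using e⟩
  · obtain ⟨v, hv, e⟩ := exists_support_mul (-(AddMonoidHom.snd ℤ ℤ)) f g 0 0
      (fun v hv => by have := hf0 v hv; simp; omega)
      (by obtain ⟨v, hv, e⟩ := hf3; exact ⟨v, hv, by simp [e]⟩)
      (fun v hv => by have := hg0 v hv; simp; omega)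
      (by obtain ⟨v, hv, e⟩ := hg3; exact ⟨v, hv, by simp [e]⟩)
    exact ⟨v, hv, by simpa using e⟩
  · obtain ⟨v, hv, e⟩ := exists_support_mul (AddMonoidHom.snd ℤ ℤ) f g B B'
      (fun v hv => by have := hf0 v hv; simp; omega)
      (by obtain ⟨v, hv, e⟩ := hf4; exact ⟨v, hv, by simp [e]⟩)
      (fun v hv => by have := hg0 v hv; simp; omega)
      (by obtain ⟨v, hv, e⟩ := hg4; exact ⟨v, hv, by simp [e]⟩)
    exact ⟨v, hv, by simpa using e⟩

theorem HasBox.one {F : Type} [Field F] : HasBox (1 : Lau F) 0 0 := by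
  have h0 : (0 : ℤ × ℤ) ∈ (1 : Lau F).coeff.support := by
    rw [Finsupp.mem_support_iff, BoxMul_one_coeff, if_pos rfl]
    exact one_ne_zero
  refine ⟨?_, ⟨0, h0, rfl⟩, ⟨0, h0, by simp⟩, ⟨0, h0, rfl⟩, ⟨0, h0, by simp⟩⟩
  intro v hv
  rw [Finsupp.mem_support_iff, BoxMul_one_coeff] at hv
  have : v = 0 := by
    by_contra hne
    exact hv (if_neg hne)
  subst this
  simp

theorem HasBox.ne_zero {F : Type} [Field F] {f : Lau F} {A B : ℕ} (hf : HasBox f A B) : f ≠ 0 := by
  rintro rfl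
  obtain ⟨-, ⟨v, hv, -⟩, -⟩ := hf
  simp at hv

theorem hasBox_prod {F : Type} [Field F] {ι : Type} [DecidableEq ι] (s : Finset ι) (f : ι → Lau F)
    (u : ι → ℤ × ℤ) (A B : ι → ℕ) (h : ∀ i ∈ s, HasBox (mon (u i) * f i) (A i) (B i)) :
    HasBox (mon (∑ i ∈ s, u i) * ∏ i ∈ s, f i) (∑ i ∈ s, A i) (∑ i ∈ s, B i) := by
  induction s using Finset.induction_on with
  | empty => simpa [mon_zero] using HasBox.one (F := F)
  | insert a s ha ih =>
    rw [Finset.sum_insert ha, Finset.sum_insert ha, Finset.sum_insert ha, Finset.prod_insert ha,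
      mon_add]
    have h1 := h a (Finset.mem_insert_self a s)
    have h2 := ih fun i hi => h i (Finset.mem_insert_of_mem hi)
    have e : mon (u a) * mon (∑ i ∈ s, u i) * (f a * ∏ i ∈ s, f i) =
        (mon (u a) * f a) * (mon (∑ i ∈ s, u i) * ∏ i ∈ s, f i) := by ring
    rw [e]
    exact h1.mul h2

end Pool.Agent.H97.NV
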