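import Pool.Agent.H97.NV.ResStep

/-!
Nivat, module Claim2. PROOF. Bezout for the primitive `w`: `w'` with `dt w w' = 1`. `exists_ev2`: `mon u * f = ev2 w w' G`. As `mon u`
is a unit it suffices that `φ ∣ G.coeff j` for all `j` (`ev2_dvd`, `isUnit_mon`). `Dbl (ev2 G ⋆ b)` holds.
General statement proved by strong induction on `natDegree h'` below: for every monic `h ∣ φ` dividing all coefficients of `G`, `h ≠ φ`,
there is a larger one. Precisely: let `h` be a monic common divisor of `φ` and all `G.coeff j` of maximal degree (the gcd of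
finitely many polynomials). Suppose `h ≠ φ`; `φ = h * e`, `e` monic nonconstant, `π` a monic irreducible factor of `e`, `e = π * e'`. `G = C h * G'`.
`π` does not divide all coefficients of `G'` (otherwise `h * π` divides `φ` and all `G.coeff j`, degree too large). Put
`b' := ev w (h * e') ⋆ b`. `ev w π ⋆ b' = ev w φ ⋆ b` is `Dbl`. `ev2 G' ⋆ b' = ev w e' ⋆ (ev2 (C h * G') ⋆ b) = ev w e' ⋆ (ev2 G ⋆ b)`
is `Dbl`. `res_step`: `Dbl ((mon (m • w') - 1) ⋆ b')`, so `Per w' b'` (`fact0`). Also `Per w b'`: `Dbl (ev w (X^g-1) ⋆ b)` since `φ ∣ X^g-1`,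
so `Per w b` (`fact0`, `ev_X_pow_sub_one`) and `Per.ac`. So `Dbl b'` (`Dbl.of_per`, `dt w w' = 1`), so `φ ∣ h * e'` (`hmin`), but `φ = h * e' * π`,
`natDegree π ≥ 1`, `h * e' ≠ 0`: contradiction.
-/

set_option autoImplicit false

namespace Pool.Agent.H97.NV

open Polynomial

/-- a monic common divisor of `φ` and all `q j` of maximal degree -/
theorem Claim2_max {F : Type} [Field F] (φ : F[X]) (hφ : φ.Monic) (q : ℕ → F[X]) :
    ∃ h : F[X], h.Monic ∧ h ∣ φ ∧ (∀ j, h ∣ q j) ∧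
      ∀ h' : F[X], h'.Monic → h' ∣ φ → (∀ j, h' ∣ q j) → h'.natDegree ≤ h.natDegree := by
  classical
  let S : Set ℕ := {n | ∃ h : F[X], h.Monic ∧ h ∣ φ ∧ (∀ j, h ∣ q j) ∧ h.natDegree = n}
  have hne : S.Nonempty := ⟨_, 1, monic_one, one_dvd _, fun _ => one_dvd _, rfl⟩
  have hbd : BddAbove S := by
    refine ⟨φ.natDegree, ?_⟩
    rintro n ⟨h, hm, hd, -, rfl⟩
    exact natDegree_le_of_dvd hd hφ.ne_zero
  obtain ⟨h, hm, hd, hq, hn⟩ := Nat.sSup_mem hne hbd
  refine ⟨h, hm, hd, hq, fun h' hm' hd' hq' => ?_⟩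
  rw [hn]
  exact le_csSup hbd ⟨h', hm', hd', hq', rfl⟩

theorem ev_dvd_of_dbl (F : Type) [Field F] [Finite F] (p : ℕ) [Fact p.Prime] [CharP F p]
    (w : ℤ × ℤ) (hw : IsCoprime w.1 w.2) (φ : F[X]) (hφ : φ.Monic) (g : ℕ) (hg : 0 < g)
    (hφg : φ ∣ X ^ g - 1) (b : ℤ × ℤ → F) (hb : Dbl (ac (ev w φ) b))
    (hmin : ∀ a : F[X], Dbl (ac (ev w a) b) → φ ∣ a) (f : Lau F) (hf : Dbl (ac f b)) :
    ev w φ ∣ f := by
  classical
  -- a second basis vector
  obtain ⟨x, y, hxy⟩ := hw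
  let w' : ℤ × ℤ := (-y, x)
  have hdet : dt w w' = 1 := by
    simp only [dt, w']
    linear_combination hxy
  obtain ⟨u, G, hG⟩ := exists_ev2 w w' hdet f
  suffices hall : ∀ j, φ ∣ G.coeff j by
    have h1 : ev w φ ∣ mon u * f := by
      rw [hG]
      exact ev2_dvd w w' φ G hall
    exact ((isUnit_mon u).dvd_mul_left).1 h1
  have hGb : Dbl (ac (ev2 w w' G) b) := by
    rw [← hG, mul_ac]
    exact hf.ac _
  obtain ⟨h, hm, hd, hq, hmax⟩ := Claim2_max φ hφ G.coeff
  by_cases hhφ : h = φ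
  · rw [← hhφ]
    exact hq
  exfalso
  obtain ⟨e, he⟩ := hd
  have hem : e.Monic := hm.of_mul_monic_left (he ▸ hφ)
  have hdeg : e.natDegree ≠ 0 := by
    intro h0
    have : e = 1 := hem.natDegree_eq_zero.1 h0
    rw [this, mul_one] at he
    exact hhφ he.symm
  have heu : ¬ IsUnit e := fun hu => hdeg (natDegree_eq_zero_of_isUnit hu)
  obtain ⟨π, hπm, hπ, hπe⟩ := exists_monic_irreducible_factor e heu
  obtain ⟨e', he'⟩ := hπe
  have he'm : e'.Monic := hπm.of_mul_monic_left (he' ▸ hem)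
  obtain ⟨G', hG'⟩ : C h ∣ G := (C_dvd_iff_dvd_coeff h G).2 hq
  -- `π` does not divide all coefficients of `G'`
  have hj : ∃ j, ¬ π ∣ G'.coeff j := by
    by_contra hcon
    push Not at hcon
    have h1 : (h * π).natDegree ≤ h.natDegree := by
      refine hmax _ (hm.mul hπm) ?_ ?_
      · rw [he, he', ← mul_assoc]
        exact dvd_mul_right _ _
      · intro j
        rw [hG', coeff_C_mul]
        exact mul_dvd_mul_left h (hcon j)
    rw [hm.natDegree_mul hπm] at h1
    have h2 := hπ.natDegree_pos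
    omega
  obtain ⟨j, hj⟩ := hj
  set b' := ac (ev w (h * e')) b with hb'
  have h1 : Dbl (ac (ev w π) b') := by
    have e1 : ac (ev w π) b' = ac (ev w φ) b := by
      rw [hb', ← mul_ac, ← ev_mul, he, he']
      congr 2
      ring
    rw [e1]
    exact hb
  have h2 : Dbl (ac (ev2 w w' G') b') := by
    have e1 : ac (ev2 w w' G') b' = ac (ev w e') (ac (ev2 w w' G) b) := by
      rw [hb', ← mul_ac, ← mul_ac, hG', map_mul, ev2_C, ev_mul]
      congr 1
      ring
    rw [e1]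
    exact hGb.ac _
  obtain ⟨m, hm0, h3⟩ := res_step w w' π hπ b' h1 G' j hj h2
  have h4 : Per w' b' := fact0 p hm0 h3
  have h5 : Per w b := by
    apply fact0 p hg (T := g)
    obtain ⟨r, hr⟩ := hφg
    rw [← ev_X_pow_sub_one, hr, mul_comm, ev_mul, mul_ac]
    exact hb.ac _
  have h6 : Dbl b' := Dbl.of_per (by rw [hdet]; exact one_ne_zero) (h5.ac _) h4
  have h7 : φ ∣ h * e' := hmin _ h6
  have h8 := natDegree_le_of_dvd h7 (hm.mul he'm).ne_zero
  have h9 : φ.natDegree = h.natDegree + (π.natDegree + e'.natDegree) := by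
    rw [he, he', hm.natDegree_mul (hπm.mul he'm), hπm.natDegree_mul he'm]
  rw [hm.natDegree_mul he'm] at h8
  have h10 := hπ.natDegree_pos
  omega

end Pool.Agent.H97.NV
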