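import Pool.Agent.H97.NV.Claim2

/-!
Nivat, module Claim3. PROOF. By induction on `S ⊆ W` (Finset.induction_on with `S ⊆ W`): `∏ w ∈ S, ev w (φ w) ∣ f`.
Step `insert w S`, `w ∉ S`, `f = (∏ S) * f'`: let `b := (∏ w' ∈ W.erase w, ev w' (φ w')) ⋆ c`. `S ⊆ W.erase w`, so
`∏ (W.erase w) = (∏ S) * (∏ ((W.erase w) \ S))` and `f' ⋆ b = (∏ ((W.erase w) \ S)) ⋆ (f ⋆ c)` is `Dbl`. `ev_dvd_of_dbl` (with
`ev w (φ w) ⋆ b = (∏ W) ⋆ c`, `Finset.mul_prod_erase`): `ev w (φ w) ∣ f'`.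
-/

set_option autoImplicit false

namespace Pool.Agent.H97.NV

open Polynomial

theorem Phi_dvd (F : Type) [Field F] [Finite F] (p : ℕ) [Fact p.Prime] [CharP F p]
    (W : Finset (ℤ × ℤ)) (hW : Dirs W) (g : ℕ) (hg : 0 < g) (c : ℤ × ℤ → F)
    (φ : ℤ × ℤ → F[X]) (hφ : ∀ w ∈ W, (φ w).Monic ∧ φ w ∣ X ^ g - 1)
    (hD : Dbl (ac (∏ w ∈ W, ev w (φ w)) c))
    (hmin : ∀ w ∈ W, ∀ a : F[X],
      Dbl (ac (ev w a) (ac (∏ w' ∈ W.erase w, ev w' (φ w')) c)) → φ w ∣ a)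
    (f : Lau F) (hf : Dbl (ac f c)) : (∏ w ∈ W, ev w (φ w)) ∣ f := by
  classical
  have key : ∀ S : Finset (ℤ × ℤ), S ⊆ W → (∏ w ∈ S, ev w (φ w)) ∣ f := by
    intro S
    induction S using Finset.induction_on with
    | empty =>
      intro _
      rw [Finset.prod_empty]
      exact one_dvd _
    | insert w S hwS ih =>
      intro hS
      have hwW : w ∈ W := hS (Finset.mem_insert_self w S)
      have hSW : S ⊆ W := fun x hx => hS (Finset.mem_insert_of_mem hx)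
      obtain ⟨f', hf'⟩ := ih hSW
      have hsub : S ⊆ W.erase w := fun x hx => Finset.mem_erase.2
        ⟨fun e => hwS (e ▸ hx), hSW hx⟩
      have hsplit : (∏ w' ∈ W.erase w, ev w' (φ w'))
          = (∏ w' ∈ W.erase w \ S, ev w' (φ w')) * ∏ w' ∈ S, ev w' (φ w') :=
        (Finset.prod_sdiff hsub).symm
      have hb : Dbl (ac (ev w (φ w)) (ac (∏ w' ∈ W.erase w, ev w' (φ w')) c)) := by
        rw [← mul_ac, Finset.mul_prod_erase W (fun w' => ev w' (φ w')) hwW]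
        exact hD
      have hf2 : Dbl (ac f' (ac (∏ w' ∈ W.erase w, ev w' (φ w')) c)) := by
        have e1 : ac f' (ac (∏ w' ∈ W.erase w, ev w' (φ w')) c)
            = ac (∏ w' ∈ W.erase w \ S, ev w' (φ w')) (ac f c) := by
          rw [← mul_ac, ← mul_ac, hsplit, hf']
          congr 1
          ring
        rw [e1]
        exact hf.ac _
      obtain ⟨r, hr⟩ := ev_dvd_of_dbl F p w (hW.1 w hwW) (φ w) (hφ w hwW).1 g hg (hφ w hwW).2
        _ hb (hmin w hwW) f' hf2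
      rw [Finset.prod_insert hwS]
      refine ⟨r, ?_⟩
      rw [hf', hr]
      ring
  exact key W (Finset.Subset.refl W)

end Pool.Agent.H97.NV
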