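import Pool.Agent.H97.NV.Space
import Pool.Agent.H97.NV.BoxDiv

/-!
Nivat, module Count. PROOF. `N := n - A`, `M := m - B` (truncated). For `a b : ℕ` and `x : Fin a × Fin b → F` put
`pol x := ∑ q, single ((q.1 : ℤ), (q.2 : ℤ)) (x q) : Lau F` (F-linear and injective in `x`; every `f` supported in `[0,a) × [0,b)` is `pol x`, `x q = f.coeff (q.1,q.2)`).
`E := (Fin n × Fin m → F) × F × (Fin N × Fin M → F)`, dimension `n*m + 1 + N*M`, `L (f, l, h) := pol f ⋆ c + l • 1 + pol h ⋆ θ : ℤ × ℤ → F` (linear).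
`L e z` depends only on `blk c n m z`: `(pol f ⋆ c) z = ∑ q, f q * blk c n m z q`, and `(pol h ⋆ θ) z = ∑ q, h q * θ (z + (q.1, q.2))` with
`q.1 + A < n`, `q.2 + B < m` (`hθ`). So `finrank (range L) ≤ ncard` (`finrank_range_le`).
Kernel: if `L (f, l, h) = 0`, act with `Ψ`: `Ψ ⋆ (pol f ⋆ c) = 0` (`ac_comm`, `hΨc`), `Ψ ⋆ (l • 1) = 0`, so `(Ψ * pol h) ⋆ θ = 0`, `Ψ * pol h = 0` (`hann`), `pol h = 0`, `h = 0`.
So `pol f ⋆ c = - l • 1` is `Dbl`, so `pol f = Φ * h'` (`hdiv`), and by `support_of_mul` `h'` is supported in `[0,N) × [0,M)`: `h' = pol y`. So the kernel is contained in the range of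
the linear map `J : (Fin N × Fin M → F) → E`, `y ↦ (coefficients of Φ * pol y at (q.1,q.2), -((Φ * pol y) ⋆ c) 0, 0)`: indeed `l = -((pol f) ⋆ c) 0`. So
`finrank ker ≤ N * M` (`LinearMap.finrank_range_le`), and `finrank range + finrank ker = n*m + 1 + N*M` gives the claim.
-/

set_option autoImplicit false

namespace Pool.Agent.H97.NV

/-- the position of a cell -/
def Count_pt {a b : ℕ} (q : Fin a × Fin b) : ℤ × ℤ := (((q.1 : ℕ) : ℤ), ((q.2 : ℕ) : ℤ))

theorem Count_pt_inj {a b : ℕ} {q r : Fin a × Fin b} (h : Count_pt q = Count_pt r) : q = r := by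
  have h1 := congrArg Prod.fst h
  have h2 := congrArg Prod.snd h
  simp only [Count_pt, Nat.cast_inj] at h1 h2
  exact Prod.ext (Fin.ext h1) (Fin.ext h2)

/-- the Laurent polynomial with given coefficients in a box -/
noncomputable def Count_pol (F : Type) [Field F] (a b : ℕ) :
    (Fin a × Fin b → F) →ₗ[F] Lau F where
  toFun x := ∑ q, AddMonoidAlgebra.single (Count_pt q) (x q)
  map_add' x y := by
    rw [← Finset.sum_add_distrib]
    exact Finset.sum_congr rfl fun q _ => by rw [Pi.add_apply, AddMonoidAlgebra.single_add]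
  map_smul' r x := by
    rw [RingHom.id_apply, Finset.smul_sum]
    exact Finset.sum_congr rfl fun q _ => by
      rw [Pi.smul_apply, AddMonoidAlgebra.smul_single]

section

variable {F : Type} [Field F] {a b : ℕ}

theorem Count_pol_ac (x : Fin a × Fin b → F) (c : ℤ × ℤ → F) (z : ℤ × ℤ) :
    (ac (Count_pol F a b x) c) z = ∑ q, x q * c (z + Count_pt q) := by
  change (ac (∑ q, (AddMonoidAlgebra.single (Count_pt q) (x q) : Lau F)) c) z = _
  rw [sum_ac, Finset.sum_apply]
  exact Finset.sum_congr rfl fun q _ => ac_single _ _ _ _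

theorem Count_pol_apply (x : Fin a × Fin b → F) (v : ℤ × ℤ) :
    (Count_pol F a b x).coeff v = ∑ q, if Count_pt q = v then x q else 0 := by
  classical
  change (∑ q, (AddMonoidAlgebra.single (Count_pt q) (x q) : Lau F)).coeff v = _
  rw [AddMonoidAlgebra.coeff_sum, Finsupp.finsetSum_apply]
  exact Finset.sum_congr rfl fun q _ => AddMonoidAlgebra.coeff_single_apply

theorem Count_pol_coeff (x : Fin a × Fin b → F) (q : Fin a × Fin b) :
    (Count_pol F a b x).coeff (Count_pt q) = x q := by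
  classical
  rw [Count_pol_apply, Finset.sum_eq_single q]
  · rw [if_pos rfl]
  · intro r _ hr
    rw [if_neg fun h => hr (Count_pt_inj h)]
  · intro h
    exact absurd (Finset.mem_univ q) h

theorem Count_pol_out (x : Fin a × Fin b → F) (v : ℤ × ℤ) (hv : ∀ q : Fin a × Fin b, Count_pt q ≠ v) :
    (Count_pol F a b x).coeff v = 0 := by
  rw [Count_pol_apply]
  exact Finset.sum_eq_zero fun q _ => if_neg (hv q)

theorem Count_mem {v : ℤ × ℤ} (h1 : 0 ≤ v.1) (h2 : v.1 < a) (h3 : 0 ≤ v.2) (h4 : v.2 < b) :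
    ∃ q : Fin a × Fin b, Count_pt q = v := by
  refine ⟨(⟨v.1.toNat, by omega⟩, ⟨v.2.toNat, by omega⟩), ?_⟩
  ext
  · simp only [Count_pt]; omega
  · simp only [Count_pt]; omega

theorem Count_surj (f : Lau F)
    (hf : ∀ v ∈ f.coeff.support, 0 ≤ v.1 ∧ v.1 < a ∧ 0 ≤ v.2 ∧ v.2 < b) :
    Count_pol F a b (fun q => f.coeff (Count_pt q)) = f := by
  apply AddMonoidAlgebra.ext
  apply Finsupp.ext
  intro v
  by_cases hv : ∃ q : Fin a × Fin b, Count_pt q = v
  · obtain ⟨q, rfl⟩ := hv
    rw [Count_pol_coeff]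
  · rw [Count_pol_out _ _ fun q hq => hv ⟨q, hq⟩]
    by_contra h
    have h1 : v ∈ f.coeff.support := Finsupp.mem_support_iff.mpr fun h2 => h h2.symm
    obtain ⟨g1, g2, g3, g4⟩ := hf v h1
    exact hv (Count_mem g1 g2 g3 g4)

theorem Count_supp (x : Fin a × Fin b → F) :
    ∀ v ∈ (Count_pol F a b x).coeff.support, 0 ≤ v.1 ∧ v.1 < a ∧ 0 ≤ v.2 ∧ v.2 < b := by
  intro v hv
  have h : ∃ q : Fin a × Fin b, Count_pt q = v := by
    by_contra h
    exact Finsupp.mem_support_iff.mp hv (Count_pol_out x v fun q hq => h ⟨q, hq⟩)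
  obtain ⟨q, rfl⟩ := h
  have h1 := q.1.2
  have h2 := q.2.2
  simp only [Count_pt]
  omega

theorem Count_pol_inj {x : Fin a × Fin b → F} (h : Count_pol F a b x = 0) : x = 0 := by
  funext q
  rw [← Count_pol_coeff x q, h]
  rfl

end

/-- the linear map `L` -/
noncomputable def Count_L (F : Type) [Field F] (n m N M : ℕ) (c θ : ℤ × ℤ → F) :
    ((Fin n × Fin m → F) × F × (Fin N × Fin M → F)) →ₗ[F] (ℤ × ℤ → F) where
  toFun e := ac (Count_pol F n m e.1) c + e.2.1 • (fun _ => (1 : F)) + ac (Count_pol F N M e.2.2) θ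
  map_add' e e' := by
    simp only [Prod.fst_add, Prod.snd_add, map_add, add_ac, add_smul]
    abel
  map_smul' r e := by
    simp only [Prod.smul_fst, Prod.smul_snd, map_smul, smul_ac, smul_add, RingHom.id_apply,
      smul_assoc]

/-- the linear map `J` -/
noncomputable def Count_J (F : Type) [Field F] (n m N M : ℕ) (c : ℤ × ℤ → F) (Φ : Lau F) :
    (Fin N × Fin M → F) →ₗ[F] ((Fin n × Fin m → F) × F × (Fin N × Fin M → F)) where
  toFun y := (fun q => (Φ * Count_pol F N M y).coeff (Count_pt q),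
        -(ac (Φ * Count_pol F N M y) c) 0, 0)
  map_add' x y := by
    refine Prod.ext ?_ (Prod.ext ?_ ?_)
    · funext q
      simp only [map_add, mul_add, AddMonoidAlgebra.coeff_add, Finsupp.add_apply,
        Prod.fst_add, Pi.add_apply]
    · simp only [map_add, mul_add, add_ac, Prod.fst_add, Prod.snd_add, Pi.add_apply, neg_add]
    · simp
  map_smul' r x := by
    refine Prod.ext ?_ (Prod.ext ?_ ?_)
    · funext q
      simp only [map_smul, mul_smul_comm, AddMonoidAlgebra.coeff_smul, Finsupp.smul_apply,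
        Prod.smul_fst, Pi.smul_apply, RingHom.id_apply]
    · simp only [map_smul, mul_smul_comm, smul_ac, Prod.smul_fst, Prod.smul_snd,
        Pi.smul_apply, RingHom.id_apply, smul_neg]
    · simp

theorem count {F : Type} [Field F] [Finite F] (c : ℤ × ℤ → F) (n m : ℕ) (Φ : Lau F) (A B : ℕ)
    (hΦ : HasBox Φ A B) (hdiv : ∀ f : Lau F, Dbl (ac f c) → Φ ∣ f) (Ψ : Lau F) (hΨ : Ψ ≠ 0)
    (hΨc : ac Ψ c = 0) (hΨ1 : ac Ψ (fun _ => (1 : F)) = 0) (θ : ℤ × ℤ → F)
    (hθ : ∀ r : ℤ × ℤ, 0 ≤ r.1 → r.1 + A < n → 0 ≤ r.2 → r.2 + B < m →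
      ∀ z z' : ℤ × ℤ, blk c n m z = blk c n m z' → θ (z + r) = θ (z' + r))
    (hann : ∀ H : Lau F, ac H θ = 0 → H = 0) :
    n * m + 1 ≤ (Set.range (blk c n m)).ncard := by
  classical
  let N := n - A
  let M := m - B
  let L := Count_L F n m N M c θ
  have hLdef : ∀ e, L e = ac (Count_pol F n m e.1) c + e.2.1 • (fun _ => (1 : F)) +
        ac (Count_pol F N M e.2.2) θ := fun _ => rfl
  have hL : ∀ (e : (Fin n × Fin m → F) × F × (Fin N × Fin M → F)) (z z' : ℤ × ℤ), blk c n m z = blk c n m z' → L e z = L e z' := by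
    intro e z z' h
    rw [hLdef]
    have h1 : (ac (Count_pol F n m e.1) c) z = (ac (Count_pol F n m e.1) c) z' := by
      rw [Count_pol_ac, Count_pol_ac]
      refine Finset.sum_congr rfl fun q _ => ?_
      have h2 : c (z + Count_pt q) = c (z' + Count_pt q) := congrFun h q
      rw [h2]
    have h3 : (ac (Count_pol F N M e.2.2) θ) z = (ac (Count_pol F N M e.2.2) θ) z' := by
      rw [Count_pol_ac, Count_pol_ac]
      refine Finset.sum_congr rfl fun q _ => ?_
      have hq1 : (q.1 : ℕ) < n - A := q.1.2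
      have hq2 : (q.2 : ℕ) < m - B := q.2.2
      rw [hθ (Count_pt q) (by simp only [Count_pt]; omega) (by simp only [Count_pt]; omega)
        (by simp only [Count_pt]; omega) (by simp only [Count_pt]; omega) z z' h]
    rw [Pi.add_apply, Pi.add_apply, Pi.add_apply, Pi.add_apply, h1, h3, Pi.smul_apply,
      Pi.smul_apply]
  have hrange := finrank_range_le c n m _ L hL
  let J := Count_J F n m N M c Φ
  have hker : LinearMap.ker L ≤ LinearMap.range J := by
    rintro ⟨f, l, h⟩ he
    have he' : ac (Count_pol F n m f) c + l • (fun _ => (1 : F)) + ac (Count_pol F N M h) θ = 0 := he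
    have h1 : ac (Ψ * Count_pol F N M h) θ = 0 := by
      have h2 := congrArg (fun g => ac Ψ g) he'
      simp only [ac_add, ac_smul, ac_zero] at h2
      rw [ac_comm Ψ (Count_pol F n m f) c, hΨc, hΨ1, ac_zero, smul_zero, zero_add, zero_add] at h2
      rw [mul_ac]
      exact h2
    have h3 := hann _ h1
    have h4 : Count_pol F N M h = 0 := (mul_eq_zero.mp h3).resolve_left hΨ
    have h5 : h = 0 := Count_pol_inj h4
    rw [h4, zero_ac, add_zero] at he'
    have h6 : ac (Count_pol F n m f) c = -(l • (fun _ : ℤ × ℤ => (1 : F))) :=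
      eq_neg_of_add_eq_zero_left he'
    have h7 : Dbl (ac (Count_pol F n m f) c) := by
      rw [h6]
      exact ((Dbl.const (1 : F)).smul l).neg
    obtain ⟨h', hh'⟩ := hdiv _ h7
    have h8 := support_of_mul Φ h' A B hΦ n m (by
      rw [← hh']
      exact Count_supp f)
    have h9 : Count_pol F N M (fun q => h'.coeff (Count_pt q)) = h' := by
      apply Count_surj
      intro v hv
      obtain ⟨g1, g2, g3, g4⟩ := h8 v hv
      refine ⟨g1, ?_, g3, ?_⟩
      · show v.1 < ((n - A : ℕ) : ℤ)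
        omega
      · show v.2 < ((m - B : ℕ) : ℤ)
        omega
    refine ⟨fun q => h'.coeff (Count_pt q), ?_⟩
    refine Prod.ext ?_ (Prod.ext ?_ ?_)
    · funext q
      change (Φ * Count_pol F N M (fun q => h'.coeff (Count_pt q))).coeff (Count_pt q) = f q
      rw [h9, ← hh', Count_pol_coeff]
    · change -(ac (Φ * Count_pol F N M (fun q => h'.coeff (Count_pt q))) c) 0 = l
      rw [h9, ← hh', h6]
      simp
    · exact h5.symm
  have h1 : Module.finrank F (LinearMap.ker L) ≤ N * M := by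
    refine (Submodule.finrank_mono hker).trans ((LinearMap.finrank_range_le J).trans ?_)
    rw [Module.finrank_fintype_fun_eq_card]
    simp
  have h2 := LinearMap.finrank_range_add_finrank_ker L
  have h3 : Module.finrank F ((Fin n × Fin m → F) × F × (Fin N × Fin M → F)) =
      n * m + 1 + N * M := by
    rw [Module.finrank_prod, Module.finrank_prod, Module.finrank_fintype_fun_eq_card,
      Module.finrank_fintype_fun_eq_card]
    simp
    ring
  omega

end Pool.Agent.H97.NV
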