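import Pool.Agent.H97.NV.Defs

/-!
Nivat, module Geom. PROOF. Over ℚ. `κ₁ := min 0 (d₁ w₁.1) + min 0 (-(d₂ w₂.1))`, `κ₂` the same with second coordinates,
`τ := (-(d₂ |w₂.1|) - κ₁, -(d₂ |w₂.2|) - κ₂)`. By Cramer (`dt w₁ w₂ ≠ 0`) there are rationals `λ, μ` with `D + λ w₁ - μ w₂ = τ`.
Take `i` with `⌈λ⌉ ≤ i < ⌈λ⌉ + d₁`, `I i`, and `j` with `⌈μ⌉ ≤ j < ⌈μ⌉ + d₂`, `J j`. Then `a := i - λ ∈ [0, d₁)`, `b := j - μ ∈ [0, d₂)` (because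
`⌈λ⌉ < λ + 1` and `i ≤ ⌈λ⌉ + d₁ - 1`), and `D + i w₁ - j w₂ = τ + a w₁ - b w₂`. First coordinate: `a w₁.1` is between `min 0 (d₁ w₁.1)` and
`max 0 (d₁ w₁.1)`, `-b w₂.1` between `min 0 (-(d₂ w₂.1))` and `max 0 (-(d₂ w₂.1))`; so the value is `≥ τ.1 + κ₁ = -(d₂ |w₂.1|)` and
`≤ τ.1 + max 0 (d₁ w₁.1) + max 0 (-(d₂ w₂.1)) = d₁ |w₁.1|` because `max 0 x - min 0 x = |x|`. Same for the second coordinate.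
-/

set_option autoImplicit false

namespace Pool.Agent.H97.NV

private theorem geom_bd (x a d : ℚ) (ha : 0 ≤ a) (had : a ≤ d) :
    min 0 (d * x) ≤ a * x ∧ a * x ≤ min 0 (d * x) + d * |x| := by
  rcases le_total 0 x with hx | hx
  · have h1 : 0 ≤ a * x := mul_nonneg ha hx
    have h2 : a * x ≤ d * x := mul_le_mul_of_nonneg_right had hx
    rw [abs_of_nonneg hx, min_eq_left (h1.trans h2)]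
    exact ⟨h1, by linarith⟩
  · have h1 : a * x ≤ 0 := mul_nonpos_of_nonneg_of_nonpos ha hx
    have h2 : d * x ≤ a * x := mul_le_mul_of_nonpos_right had hx
    rw [abs_of_nonpos hx, min_eq_right (h2.trans h1)]
    exact ⟨h2, by linarith⟩

private theorem geom_coord (x y a b d₁ d₂ : ℚ) (ha : 0 ≤ a) (had : a ≤ d₁) (hb : 0 ≤ b)
    (hbd : b ≤ d₂) :
    -(d₂ * |y|) ≤ (-(d₂ * |y|) - (min 0 (d₁ * x) + min 0 (d₂ * (-y)))) + a * x - b * y ∧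
    (-(d₂ * |y|) - (min 0 (d₁ * x) + min 0 (d₂ * (-y)))) + a * x - b * y ≤ d₁ * |x| := by
  obtain ⟨h1, h2⟩ := geom_bd x a d₁ ha had
  obtain ⟨h3, h4⟩ := geom_bd (-y) b d₂ hb hbd
  rw [abs_neg] at h4
  constructor
  · linarith
  · linarith

private theorem geom_cramer (x₁ x₂ y₁ y₂ e₁ e₂ : ℚ) (h : x₁ * y₂ - x₂ * y₁ ≠ 0) :
    ∃ lam mu : ℚ, lam * x₁ - mu * y₁ = e₁ ∧ lam * x₂ - mu * y₂ = e₂ := by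
  refine ⟨(e₁ * y₂ - e₂ * y₁) / (x₁ * y₂ - x₂ * y₁),
    (e₁ * x₂ - e₂ * x₁) / (x₁ * y₂ - x₂ * y₁), ?_, ?_⟩
  · rw [div_mul_eq_mul_div, div_mul_eq_mul_div, ← sub_div, div_eq_iff h]
    ring
  · rw [div_mul_eq_mul_div, div_mul_eq_mul_div, ← sub_div, div_eq_iff h]
    ring

theorem geom (w₁ w₂ D : ℤ × ℤ) (hdet : dt w₁ w₂ ≠ 0) (d₁ d₂ : ℕ) (I J : ℤ → Prop)
    (hI : ∀ j : ℤ, ∃ i : ℤ, j ≤ i ∧ i < j + d₁ ∧ I i)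
    (hJ : ∀ j : ℤ, ∃ i : ℤ, j ≤ i ∧ i < j + d₂ ∧ J i) :
    ∃ i j : ℤ, I i ∧ J j ∧
      -((d₂ * w₂.1.natAbs : ℕ) : ℤ) ≤ D.1 + i * w₁.1 - j * w₂.1 ∧
      D.1 + i * w₁.1 - j * w₂.1 ≤ ((d₁ * w₁.1.natAbs : ℕ) : ℤ) ∧
      -((d₂ * w₂.2.natAbs : ℕ) : ℤ) ≤ D.2 + i * w₁.2 - j * w₂.2 ∧
      D.2 + i * w₁.2 - j * w₂.2 ≤ ((d₁ * w₁.2.natAbs : ℕ) : ℤ) := by
  obtain ⟨x₁, x₂⟩ := w₁
  obtain ⟨y₁, y₂⟩ := w₂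
  obtain ⟨D₁, D₂⟩ := D
  simp only [dt] at hdet
  have hδ : ((x₁ : ℚ) * y₂ - x₂ * y₁) ≠ 0 := by exact_mod_cast hdet
  set τ₁ : ℚ := -((d₂ : ℚ) * |(y₁ : ℚ)|) - (min 0 ((d₁ : ℚ) * x₁) + min 0 ((d₂ : ℚ) * (-(y₁ : ℚ)))) with hτ₁
  set τ₂ : ℚ := -((d₂ : ℚ) * |(y₂ : ℚ)|) - (min 0 ((d₁ : ℚ) * x₂) + min 0 ((d₂ : ℚ) * (-(y₂ : ℚ)))) with hτ₂
  obtain ⟨lam, mu, hc1', hc2'⟩ := geom_cramer x₁ x₂ y₁ y₂ (τ₁ - D₁) (τ₂ - D₂) hδ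
  have hc1 : (D₁ : ℚ) + lam * x₁ - mu * y₁ = τ₁ := by linarith
  have hc2 : (D₂ : ℚ) + lam * x₂ - mu * y₂ = τ₂ := by linarith
  obtain ⟨i, hi1, hi2, hi3⟩ := hI ⌈lam⌉
  obtain ⟨j, hj1, hj2, hj3⟩ := hJ ⌈mu⌉
  have ha0 : 0 ≤ (i : ℚ) - lam := by
    have : lam ≤ (i : ℚ) := Int.ceil_le.mp hi1
    linarith
  have had : (i : ℚ) - lam ≤ d₁ := by
    have h1 : (i : ℚ) + 1 ≤ (⌈lam⌉ : ℚ) + d₁ := by exact_mod_cast hi2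
    have h2 := Int.ceil_lt_add_one lam
    linarith
  have hb0 : 0 ≤ (j : ℚ) - mu := by
    have : mu ≤ (j : ℚ) := Int.ceil_le.mp hj1
    linarith
  have hbd : (j : ℚ) - mu ≤ d₂ := by
    have h1 : (j : ℚ) + 1 ≤ (⌈mu⌉ : ℚ) + d₂ := by exact_mod_cast hj2
    have h2 := Int.ceil_lt_add_one mu
    linarith
  obtain ⟨e1, e2⟩ := geom_coord x₁ y₁ _ _ d₁ d₂ ha0 had hb0 hbd
  obtain ⟨e3, e4⟩ := geom_coord x₂ y₂ _ _ d₁ d₂ ha0 had hb0 hbd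
  rw [← hτ₁] at e1 e2
  rw [← hτ₂] at e3 e4
  refine ⟨i, j, hi3, hj3, ?_, ?_, ?_, ?_⟩
  · have : -((d₂ : ℚ) * |(y₁ : ℚ)|) ≤ (D₁ : ℚ) + i * x₁ - j * y₁ := by linarith
    have h2 : ((-((d₂ * y₁.natAbs : ℕ) : ℤ) : ℤ) : ℚ) ≤ ((D₁ + i * x₁ - j * y₁ : ℤ) : ℚ) := by
      push_cast [Nat.cast_natAbs]
      exact this
    exact_mod_cast h2
  · have : (D₁ : ℚ) + i * x₁ - j * y₁ ≤ (d₁ : ℚ) * |(x₁ : ℚ)| := by linarith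
    have h2 : ((D₁ + i * x₁ - j * y₁ : ℤ) : ℚ) ≤ ((((d₁ * x₁.natAbs : ℕ) : ℤ) : ℤ) : ℚ) := by
      push_cast [Nat.cast_natAbs]
      exact this
    exact_mod_cast h2
  · have : -((d₂ : ℚ) * |(y₂ : ℚ)|) ≤ (D₂ : ℚ) + i * x₂ - j * y₂ := by linarith
    have h2 : ((-((d₂ * y₂.natAbs : ℕ) : ℤ) : ℤ) : ℚ) ≤ ((D₂ + i * x₂ - j * y₂ : ℤ) : ℚ) := by
      push_cast [Nat.cast_natAbs]
      exact this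
    exact_mod_cast h2
  · have : (D₂ : ℚ) + i * x₂ - j * y₂ ≤ (d₁ : ℚ) * |(x₂ : ℚ)| := by linarith
    have h2 : ((D₂ + i * x₂ - j * y₂ : ℤ) : ℚ) ≤ ((((d₁ * x₂.natAbs : ℕ) : ℤ) : ℤ) : ℚ) := by
      push_cast [Nat.cast_natAbs]
      exact this
    exact_mod_cast h2

end Pool.Agent.H97.NV
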