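import Pool.Agent.H97.NV.Basic

/-!
Nivat, module LiveWin. PROOF. `d := φ.natDegree`, `L i := SPer (fun t => c ((z + i • w) + t • V))` (dead). Sums, scalar multiples of
`SPer` sequences are `SPer` (product of periods). The sequence `t ↦ (ev w φ ⋆ c)(y + t • V)` is constant (`hρ`), and
`(ev w φ ⋆ c) y = ∑ j ≤ d, φ.coeff j * c (y + j • w)` (`Polynomial.aeval_eq_sum_range`, `sum_ac`, `smul_ac`, `mon_ac`).
Suppose some window `j ≤ i < j + d` is all dead. Forward: if `i, .., i+d-1` are dead then `i + d` is dead (`φ.coeff d = 1`, take `y = z + i • w + t • V`: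
`c(y + d • w) = ρ(y) - ∑_{j<d} φ.coeff j * c(y + j • w)`). Backward: `i - 1` is dead: `y = z + (i-1) • w + t • V`,
`φ.coeff 0 * c y = ρ(y) - ∑_{1≤j≤d} ..` with `φ.coeff 0 ≠ 0`. (If `d = 0`: `φ = 1`, then `ρ = c` and all indices are dead; the same formulas.)
By induction all windows are dead, so all indices, in particular `i = 0`: contradiction to `hz`.
-/

set_option autoImplicit false

namespace Pool.Agent.H97.NV

open Polynomial

private theorem LiveWin_mul {F : Type} {u : ℤ → F} {T : ℕ} (h : ∀ t : ℤ, u (t + (T : ℤ)) = u t)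
    (n : ℕ) : ∀ t : ℤ, u (t + ((n * T : ℕ) : ℤ)) = u t := by
  induction n with
  | zero => intro t; simp
  | succ n ih =>
    intro t
    rw [show t + (((n + 1) * T : ℕ) : ℤ) = (t + ((n * T : ℕ) : ℤ)) + (T : ℤ) by push_cast; ring,
      h, ih]

private theorem LiveWin_add {F : Type} [Field F] {u v : ℤ → F} (hu : SPer u) (hv : SPer v) :
    SPer (fun t => u t + v t) := by
  obtain ⟨T, hT, h⟩ := hu
  obtain ⟨S, hS, h'⟩ := hv
  refine ⟨S * T, Nat.mul_pos hS hT, fun t => ?_⟩
  have e1 := LiveWin_mul h S t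
  have e2 := LiveWin_mul h' T t
  rw [mul_comm T S] at e2
  show u _ + v _ = _
  rw [e1, e2]

private theorem LiveWin_smul {F : Type} [Field F] {u : ℤ → F} (a : F) (hu : SPer u) :
    SPer (fun t => a * u t) := by
  obtain ⟨T, hT, h⟩ := hu
  exact ⟨T, hT, fun t => by simp only [h t]⟩

private theorem LiveWin_const {F : Type} (a : F) : SPer (fun _ : ℤ => a) :=
  ⟨1, one_pos, fun _ => rfl⟩

private theorem LiveWin_sum {F : Type} [Field F] {ι : Type} (s : Finset ι) (u : ι → ℤ → F)
    (h : ∀ i ∈ s, SPer (u i)) : SPer (fun t => ∑ i ∈ s, u i t) := by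
  classical
  induction s using Finset.induction_on with
  | empty => simpa using LiveWin_const (0 : F)
  | insert i s hi ih =>
    have h1 := LiveWin_add (h i (Finset.mem_insert_self _ _))
      (ih fun j hj => h j (Finset.mem_insert_of_mem hj))
    simpa only [Finset.sum_insert hi] using h1

private theorem LiveWin_form {F : Type} [Field F] (c : ℤ × ℤ → F) (w : ℤ × ℤ) (φ : F[X])
    (y : ℤ × ℤ) : (ac (ev w φ) c) y =
      ∑ j ∈ Finset.range (φ.natDegree + 1), φ.coeff j * c (y + (j : ℤ) • w) := by
  have h : (ev w φ : Lau F) =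
      ∑ j ∈ Finset.range (φ.natDegree + 1), φ.coeff j • mon ((j : ℤ) • w) := by
    rw [ev, Polynomial.aeval_eq_sum_range]
    exact Finset.sum_congr rfl fun j _ => by rw [mon_nsmul]
  rw [h, sum_ac, Finset.sum_apply]
  refine Finset.sum_congr rfl fun j _ => ?_
  rw [smul_ac, Pi.smul_apply, mon_ac, smul_eq_mul]

theorem live_window {F : Type} [Field F] (c : ℤ × ℤ → F) (w V : ℤ × ℤ) (φ : F[X])
    (hφ : φ.Monic) (hφ0 : φ.coeff 0 ≠ 0)
    (hρ : ∀ z, (ac (ev w φ) c) (z + V) = (ac (ev w φ) c) z) (z : ℤ × ℤ)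
    (hz : ¬ SPer (fun t : ℤ => c (z + t • V))) :
    ∀ j : ℤ, ∃ i : ℤ, j ≤ i ∧ i < j + φ.natDegree ∧
      ¬ SPer (fun t : ℤ => c ((z + i • w) + t • V)) := by
  intro j
  by_contra hcon
  push Not at hcon
  set d := φ.natDegree with hd
  -- the right hand side is constant along `V`
  have hconst : ∀ y : ℤ × ℤ, ∀ t : ℤ, (ac (ev w φ) c) (y + t • V) = (ac (ev w φ) c) y := by
    intro y t
    have h1 : ∀ z : ℤ × ℤ, (ac (ev w φ) c) (z + (1 : ℤ) • V) = (ac (ev w φ) c) z := fun z => by
      rw [one_smul]; exact hρ z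
    have := per_mul h1 t y
    rwa [mul_one] at this
  have hmove : ∀ (i : ℤ) (k : ℕ) (t : ℤ),
      (z + i • w + t • V) + (k : ℤ) • w = (z + (i + k) • w) + t • V := by
    intro i k t
    rw [add_smul]; abel
  -- forward step
  have hfwd : ∀ i : ℤ, (∀ k : ℕ, k < d → SPer (fun t : ℤ => c ((z + (i + k) • w) + t • V))) →
      SPer (fun t : ℤ => c ((z + (i + d) • w) + t • V)) := by
    intro i hi
    have h1 : (fun t : ℤ => c ((z + (i + d) • w) + t • V)) = fun t : ℤ =>
        (ac (ev w φ) c) (z + i • w) +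
          (-1) * ∑ k ∈ Finset.range d, φ.coeff k * c ((z + (i + k) • w) + t • V) := by
      funext t
      have h2 := LiveWin_form c w φ (z + i • w + t • V)
      rw [hconst, ← hd, Finset.sum_range_succ] at h2
      simp only [hmove] at h2
      have hlead : φ.coeff d = 1 := hφ
      rw [hlead, one_mul] at h2
      rw [h2]; ring
    rw [h1]
    refine LiveWin_add (LiveWin_const _) (LiveWin_smul _ (LiveWin_sum _ _ fun k hk => ?_))
    exact LiveWin_smul _ (hi k (Finset.mem_range.mp hk))
  -- backward step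
  have hbwd : ∀ i : ℤ, (∀ k : ℕ, k < d → SPer (fun t : ℤ => c ((z + (i + 1 + k) • w) + t • V))) →
      SPer (fun t : ℤ => c ((z + i • w) + t • V)) := by
    intro i hi
    have h1 : (fun t : ℤ => c ((z + i • w) + t • V)) = fun t : ℤ =>
        (φ.coeff 0)⁻¹ * ((ac (ev w φ) c) (z + i • w) +
          (-1) * ∑ k ∈ Finset.range d, φ.coeff (k + 1) * c ((z + (i + 1 + k) • w) + t • V)) := by
      funext t
      have h2 := LiveWin_form c w φ (z + i • w + t • V)
      rw [hconst, ← hd, Finset.sum_range_succ'] at h2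
      simp only [hmove] at h2
      have h3 : ∀ k : ℕ, (i + ((k + 1 : ℕ) : ℤ)) = i + 1 + (k : ℤ) := fun k => by push_cast; ring
      simp only [h3, Nat.cast_zero, add_zero] at h2
      rw [h2]
      field_simp
      ring
    rw [h1]
    refine LiveWin_smul _ (LiveWin_add (LiveWin_const _)
      (LiveWin_smul _ (LiveWin_sum _ _ fun k hk => ?_)))
    exact LiveWin_smul _ (hi k (Finset.mem_range.mp hk))
  -- the window property
  let P : ℤ → Prop := fun i => ∀ k : ℕ, k < d → SPer (fun t : ℤ => c ((z + (i + k) • w) + t • V))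
  have hP : P j := fun k hk => hcon (j + k) (by omega) (by omega)
  have hup : ∀ i, P i → P (i + 1) := by
    intro i hi k hk
    by_cases hk' : k + 1 < d
    · have := hi (k + 1) hk'
      have e : i + ((k + 1 : ℕ) : ℤ) = i + 1 + (k : ℤ) := by push_cast; ring
      rwa [e] at this
    · have hkd : k + 1 = d := by omega
      have := hfwd i hi
      have e : i + (d : ℤ) = i + 1 + (k : ℤ) := by rw [← hkd]; push_cast; ring
      rwa [e] at this
  have hdown : ∀ i, P (i + 1) → P i := by
    intro i hi k hk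
    rcases k with _ | k
    · have := hbwd i hi
      simpa using this
    · have := hi k (by omega)
      have e : i + 1 + (k : ℤ) = i + ((k + 1 : ℕ) : ℤ) := by push_cast; ring
      rwa [e] at this
  have hupn : ∀ n : ℕ, P (j + n) := by
    intro n
    induction n with
    | zero => simpa using hP
    | succ n ih =>
      have := hup _ ih
      have e : j + (n : ℤ) + 1 = j + ((n + 1 : ℕ) : ℤ) := by push_cast; ring
      rwa [e] at this
  have hdownn : ∀ n : ℕ, P (j - n) := by
    intro n
    induction n with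
    | zero => simpa using hP
    | succ n ih =>
      refine hdown _ ?_
      have e : j - ((n + 1 : ℕ) : ℤ) + 1 = j - (n : ℤ) := by push_cast; ring
      rwa [e]
  have hall : ∀ i, P i := by
    intro i
    rcases le_total j i with h | h
    · have := hupn (i - j).toNat
      have e : j + (((i - j).toNat : ℕ) : ℤ) = i := by omega
      rwa [e] at this
    · have := hdownn (j - i).toNat
      have e : j - (((j - i).toNat : ℕ) : ℤ) = i := by omega
      rwa [e] at this
  have hlast := hfwd (-(d : ℤ)) (hall _)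
  rw [neg_add_cancel, zero_smul, add_zero] at hlast
  exact hz hlast

end Pool.Agent.H97.NV
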