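import Pool.Agent.H97.NV.LiveEx
import Pool.Agent.H97.NV.LiveWin
import Pool.Agent.H97.NV.Geom

/-!
Nivat, module ExPQ. PROOF. Let `G > 0` be a common multiple (product) of: `T₁` (`Per w₁ c₁`), `T₂` (`Per w₂ c₂`), and the double periods of
`ev w₁ φ₁ ⋆ c₁`, `ev w₂ φ₂ ⋆ c₂`. `V₁ := G • w₁`, `V₂ := G • w₂`, `dt V₁ V₂ = G² dt w₁ w₂ ≠ 0`. `c₁ (z + V₁) = c₁ z`, `c₂ (z + V₂) = c₂ z` (`per_mul`),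
`V₂` is a period of `ev w₁ φ₁ ⋆ c₁`, `V₁` one of `ev w₂ φ₂ ⋆ c₂`. `exists_live` (for `c₁`, `V₁`, `V₂`): `x₁⁰` with `t ↦ c₁(x₁⁰ + t V₂)` not periodic;
(for `c₂`, `V₂`, `V₁`): `x₂⁰` with `s ↦ c₂(x₂⁰ + s V₁)` not periodic. `live_window` gives the windows for `I i := ¬ SPer (t ↦ c₁(x₁⁰ + i w₁ + t V₂))`
and `J j := ¬ SPer (s ↦ c₂(x₂⁰ + j w₂ + s V₁))`. `geom` with `D = x₁⁰ - x₂⁰` : `i, j`; `x₁ := x₁⁰ + i w₁`, `x₂ := x₂⁰ + j w₂`,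
`Δ := x₁ - x₂`. `p := (max 0 Δ.1, max 0 Δ.2)`, `q := (max 0 (-Δ.1), max 0 (-Δ.2))`: `p - q = Δ` with the required bounds.
`z₀ := x₁ - p = x₂ - q`. `c₁(z₀ + p + s V₁ + t V₂) = c₁(x₁ + t V₂) =: u t` (`per_mul` with V₁), `c₂(z₀ + q + s V₁ + t V₂) = c₂(x₂ + s V₁) =: v s`.
-/

set_option autoImplicit false

namespace Pool.Agent.H97.NV

open Polynomial

theorem ExPQ_split (Δ a b : ℤ) (h1 : -b ≤ Δ) (h2 : Δ ≤ a) (ha : 0 ≤ a) (hb : 0 ≤ b) :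
    (0 ≤ max 0 Δ ∧ max 0 Δ ≤ a) ∧ (0 ≤ max 0 (-Δ) ∧ max 0 (-Δ) ≤ b) ∧
      max 0 Δ - max 0 (-Δ) = Δ := by
  omega

theorem exists_pq {F : Type} [Field F] (c₁ c₂ : ℤ × ℤ → F) (w₁ w₂ : ℤ × ℤ)
    (hdet : dt w₁ w₂ ≠ 0) (φ₁ φ₂ : F[X]) (hφ₁ : φ₁.Monic) (hφ₁0 : φ₁.coeff 0 ≠ 0)
    (hφ₂ : φ₂.Monic) (hφ₂0 : φ₂.coeff 0 ≠ 0) (hper₁ : Per w₁ c₁) (hper₂ : Per w₂ c₂)
    (hD₁ : ¬ Dbl c₁) (hD₂ : ¬ Dbl c₂) (hρ₁ : Dbl (ac (ev w₁ φ₁) c₁)) (hρ₂ : Dbl (ac (ev w₂ φ₂) c₂)) :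
    ∃ p q : ℤ × ℤ,
      (0 ≤ p.1 ∧ p.1 ≤ ((φ₁.natDegree * w₁.1.natAbs : ℕ) : ℤ) ∧
        0 ≤ p.2 ∧ p.2 ≤ ((φ₁.natDegree * w₁.2.natAbs : ℕ) : ℤ)) ∧
      (0 ≤ q.1 ∧ q.1 ≤ ((φ₂.natDegree * w₂.1.natAbs : ℕ) : ℤ) ∧
        0 ≤ q.2 ∧ q.2 ≤ ((φ₂.natDegree * w₂.2.natAbs : ℕ) : ℤ)) ∧
      ∃ z₀ V₁ V₂ : ℤ × ℤ, dt V₁ V₂ ≠ 0 ∧ ∃ u v : ℤ → F, ¬ SPer u ∧ ¬ SPer v ∧
        ∀ s t : ℤ, c₁ (z₀ + s • V₁ + t • V₂ + p) * c₂ (z₀ + s • V₁ + t • V₂ + q) = u t * v s := by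
  obtain ⟨T₁, hT₁, hp₁⟩ := hper₁
  obtain ⟨T₂, hT₂, hp₂⟩ := hper₂
  obtain ⟨S₁, hS₁, hr₁⟩ := hρ₁
  obtain ⟨S₂, hS₂, hr₂⟩ := hρ₂
  let G : ℤ := (T₁ : ℤ) * T₂ * S₁ * S₂
  have hG : G ≠ 0 := by
    have h1 : (T₁ : ℤ) ≠ 0 := by exact_mod_cast hT₁.ne'
    have h2 : (T₂ : ℤ) ≠ 0 := by exact_mod_cast hT₂.ne'
    have h3 : (S₁ : ℤ) ≠ 0 := by exact_mod_cast hS₁.ne'
    have h4 : (S₂ : ℤ) ≠ 0 := by exact_mod_cast hS₂.ne'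
    exact mul_ne_zero (mul_ne_zero (mul_ne_zero h1 h2) h3) h4
  let V₁ : ℤ × ℤ := G • w₁
  let V₂ : ℤ × ℤ := G • w₂
  have hdV : dt V₁ V₂ = G * G * dt w₁ w₂ := by
    simp only [dt, V₁, V₂, Prod.smul_fst, Prod.smul_snd, smul_eq_mul]
    ring
  have hdV0 : dt V₁ V₂ ≠ 0 := by
    rw [hdV]
    exact mul_ne_zero (mul_ne_zero hG hG) hdet
  have hdV1 : dt V₂ V₁ ≠ 0 := by
    have : dt V₂ V₁ = - dt V₁ V₂ := by simp only [dt]; ring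
    rw [this]
    exact neg_ne_zero.2 hdV0
  have q1 : ∀ z, c₁ (z + V₁) = c₁ z := by
    intro z
    have h := per_mul hp₁ ((T₂ : ℤ) * S₁ * S₂) z
    have e : ((T₂ : ℤ) * S₁ * S₂ * T₁) • w₁ = V₁ := by
      simp only [V₁, G]
      congr 1
      ring
    rwa [e] at h
  have q2 : ∀ z, c₂ (z + V₂) = c₂ z := by
    intro z
    have h := per_mul hp₂ ((T₁ : ℤ) * S₁ * S₂) z
    have e : ((T₁ : ℤ) * S₁ * S₂ * T₂) • w₂ = V₂ := by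
      simp only [V₂, G]
      congr 1
      ring
    rwa [e] at h
  have q3 : ∀ z, (ac (ev w₁ φ₁) c₁) (z + V₂) = (ac (ev w₁ φ₁) c₁) z := by
    intro z
    have h := dbl_mul hr₁ ((T₁ : ℤ) * T₂ * S₂) z w₂
    have e : ((T₁ : ℤ) * T₂ * S₂ * S₁) • w₂ = V₂ := by
      simp only [V₂, G]
      congr 1
      ring
    rwa [e] at h
  have q4 : ∀ z, (ac (ev w₂ φ₂) c₂) (z + V₁) = (ac (ev w₂ φ₂) c₂) z := by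
    intro z
    have h := dbl_mul hr₂ ((T₁ : ℤ) * T₂ * S₁) z w₁
    have e : ((T₁ : ℤ) * T₂ * S₁ * S₂) • w₁ = V₁ := by
      simp only [V₁, G]
    rwa [e] at h
  obtain ⟨x₁, hx₁⟩ := exists_live c₁ V₁ V₂ hdV0 q1 hD₁
  obtain ⟨x₂, hx₂⟩ := exists_live c₂ V₂ V₁ hdV1 q2 hD₂
  have win₁ := live_window c₁ w₁ V₂ φ₁ hφ₁ hφ₁0 q3 x₁ hx₁
  have win₂ := live_window c₂ w₂ V₁ φ₂ hφ₂ hφ₂0 q4 x₂ hx₂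
  obtain ⟨i, j, hi, hj, g1, g2, g3, g4⟩ := geom w₁ w₂ (x₁ - x₂) hdet φ₁.natDegree φ₂.natDegree
    _ _ win₁ win₂
  let y₁ : ℤ × ℤ := x₁ + i • w₁
  let y₂ : ℤ × ℤ := x₂ + j • w₂
  have e1 : (y₁ - y₂).1 = (x₁ - x₂).1 + i * w₁.1 - j * w₂.1 := by
    simp only [y₁, y₂, Prod.fst_sub, Prod.fst_add, Prod.smul_fst, smul_eq_mul]
    ring
  have e2 : (y₁ - y₂).2 = (x₁ - x₂).2 + i * w₁.2 - j * w₂.2 := by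
    simp only [y₁, y₂, Prod.snd_sub, Prod.snd_add, Prod.smul_snd, smul_eq_mul]
    ring
  rw [← e1] at g1 g2
  rw [← e2] at g3 g4
  obtain ⟨⟨s1, s2⟩, ⟨s3, s4⟩, s5⟩ := ExPQ_split _ _ _ g1 g2 (Int.natCast_nonneg _)
    (Int.natCast_nonneg _)
  obtain ⟨⟨t1, t2⟩, ⟨t3, t4⟩, t5⟩ := ExPQ_split _ _ _ g3 g4 (Int.natCast_nonneg _)
    (Int.natCast_nonneg _)
  let p : ℤ × ℤ := (max 0 (y₁ - y₂).1, max 0 (y₁ - y₂).2)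
  let q : ℤ × ℤ := (max 0 (-(y₁ - y₂).1), max 0 (-(y₁ - y₂).2))
  have hpq : p - q = y₁ - y₂ := Prod.ext s5 t5
  have hz : y₁ - p = y₂ - q := by
    have : y₁ - p - (y₂ - q) = (y₁ - y₂) - (p - q) := by abel
    rw [← sub_eq_zero, this, hpq, sub_self]
  have m1 : ∀ (s : ℤ) (z : ℤ × ℤ), c₁ (z + s • V₁) = c₁ z := by
    intro s z
    have h := per_mul (w := V₁) (c := c₁) (T := 1) (fun z => by rw [one_smul]; exact q1 z) s z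
    rwa [mul_one] at h
  have m2 : ∀ (s : ℤ) (z : ℤ × ℤ), c₂ (z + s • V₂) = c₂ z := by
    intro s z
    have h := per_mul (w := V₂) (c := c₂) (T := 1) (fun z => by rw [one_smul]; exact q2 z) s z
    rwa [mul_one] at h
  refine ⟨p, q, ⟨s1, s2, t1, t2⟩, ⟨s3, s4, t3, t4⟩, y₁ - p, V₁, V₂, hdV0,
    fun t => c₁ (y₁ + t • V₂), fun s => c₂ (y₂ + s • V₁), hi, hj, ?_⟩
  intro s t
  have r1 : y₁ - p + s • V₁ + t • V₂ + p = (y₁ + t • V₂) + s • V₁ := by abel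
  have r2 : y₁ - p + s • V₁ + t • V₂ + q = (y₂ + s • V₁) + t • V₂ := by
    rw [hz]; abel
  rw [r1, r2, m1, m2]

end Pool.Agent.H97.NV
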