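import Pool.Agent.H97.NV.Basic

/-!
Nivat, module Minimal. PROOF. The set of admissible `φ : ℤ × ℤ → F[X]` (all `φ w`, `w ∈ W`, monic and dividing `X ^ g - 1`,
`Dbl ((∏ w ∈ W, ev w (φ w)) ⋆ c)`) is nonempty: `φ w = X ^ g - 1` (`ev_X_pow_sub_one`; the product is `Psi F W g`, and
`Dbl 0`; `X ^ g - 1` is monic as `g > 0`, `monic_X_pow_sub_C`). Choose one with `∑ w ∈ W, (φ w).natDegree` minimal
(`Nat.find` or `WellFounded.min` / `Nat.sInf_mem`). Let `w ∈ W`, `b := (∏ w' ∈ W.erase w, ev w' (φ w')) ⋆ c` and suppose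
`Dbl (ev w a ⋆ b)`. Let `d := gcd (φ w) a` made monic (Bezout: `d = x * φ w + y * a`, `EuclideanDomain.gcd_eq_gcd_ab`;
`d ≠ 0`; normalise with `C (leadingCoeff⁻¹)`): `ev w d ⋆ b` = `ev w x ⋆ (ev w (φ w) ⋆ b) + ev w y ⋆ (ev w a ⋆ b)` is `Dbl`
(`Finset.mul_prod_erase` : `ev w (φ w) ⋆ b = (∏ W ..) ⋆ c`). `d` divides `φ w`, so `X ^ g - 1`. So `Function.update φ w d` is admissible,
minimality gives `natDegree d ≥ natDegree (φ w)`, and `d ∣ φ w`, both monic, so `d = φ w` (`Polynomial.eq_of_monic_of_dvd_of_natDegree_le`)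
and `φ w = d ∣ a`.
-/

set_option autoImplicit false

namespace Pool.Agent.H97.NV

open Polynomial

theorem exists_minimal (F : Type) [Field F] (c : ℤ × ℤ → F) (W : Finset (ℤ × ℤ)) (g : ℕ)
    (hg : 0 < g) (h : ac (Psi F W g) c = 0) :
    ∃ φ : ℤ × ℤ → F[X], (∀ w ∈ W, (φ w).Monic ∧ φ w ∣ X ^ g - 1) ∧
      Dbl (ac (∏ w ∈ W, ev w (φ w)) c) ∧
      ∀ w ∈ W, ∀ a : F[X], Dbl (ac (ev w a) (ac (∏ w' ∈ W.erase w, ev w' (φ w')) c)) → φ w ∣ a := by
  classical
  let P : (ℤ × ℤ → F[X]) → Prop := fun φ =>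
    (∀ w ∈ W, (φ w).Monic ∧ φ w ∣ X ^ g - 1) ∧ Dbl (ac (∏ w ∈ W, ev w (φ w)) c)
  have h0 : ∃ n : ℕ, ∃ φ, P φ ∧ ∑ w ∈ W, (φ w).natDegree = n := by
    refine ⟨_, fun _ => X ^ g - 1, ⟨fun w _ => ⟨?_, dvd_rfl⟩, ?_⟩, rfl⟩
    · have := monic_X_pow_sub_C (1 : F) hg.ne'
      rwa [C_1] at this
    · have e : (∏ w ∈ W, ev w (X ^ g - 1 : F[X])) = Psi F W g :=
        Finset.prod_congr rfl fun w _ => ev_X_pow_sub_one w g
      rw [e, h]
      exact Dbl.zero
  obtain ⟨φ, hφ, hsum⟩ := Nat.find_spec h0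
  have hmin : ∀ ψ, P ψ → ∑ w ∈ W, (φ w).natDegree ≤ ∑ w ∈ W, (ψ w).natDegree := by
    intro ψ hψ
    rw [hsum]
    exact Nat.find_min' h0 ⟨ψ, hψ, rfl⟩
  refine ⟨φ, hφ.1, hφ.2, ?_⟩
  intro w hw a ha
  obtain ⟨hφm, hφg⟩ := hφ.1 w hw
  set b := ac (∏ w' ∈ W.erase w, ev w' (φ w')) c with hb
  have hφb : Dbl (ac (ev w (φ w)) b) := by
    have e : ac (ev w (φ w)) b = ac (∏ w' ∈ W, ev w' (φ w')) c := by
      rw [hb, ← mul_ac, Finset.mul_prod_erase W (fun w' => ev w' (φ w')) hw]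
    rw [e]
    exact hφ.2
  let d0 : F[X] := EuclideanDomain.gcd (φ w) a
  have hd0 : d0 ≠ 0 := by
    intro h0
    exact hφm.ne_zero ((EuclideanDomain.gcd_eq_zero_iff.1 h0).1)
  let d : F[X] := d0 * C (d0.leadingCoeff⁻¹)
  have hdm : d.Monic := monic_mul_leadingCoeff_inv hd0
  have hdd0 : d ∣ d0 := by
    refine ⟨C d0.leadingCoeff, ?_⟩
    have : C (d0.leadingCoeff⁻¹) * C d0.leadingCoeff = (1 : F[X]) := by
      rw [← C_mul, inv_mul_cancel₀ (leadingCoeff_ne_zero.2 hd0), C_1]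
    rw [mul_assoc, this, mul_one]
  have hdφ : d ∣ φ w := hdd0.trans (EuclideanDomain.gcd_dvd_left _ _)
  have hda : d ∣ a := hdd0.trans (EuclideanDomain.gcd_dvd_right _ _)
  have hdb : Dbl (ac (ev w d) b) := by
    have e : d = EuclideanDomain.gcdA (φ w) a * C (d0.leadingCoeff⁻¹) * φ w +
        EuclideanDomain.gcdB (φ w) a * C (d0.leadingCoeff⁻¹) * a := by
      have := EuclideanDomain.gcd_eq_gcd_ab (φ w) a
      change d0 * C (d0.leadingCoeff⁻¹) = _
      rw [show d0 = _ from this]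
      ring
    rw [e, ev_add, ev_mul w _ (φ w), ev_mul w _ a, add_ac, mul_ac, mul_ac]
    exact (hφb.ac _).add (ha.ac _)
  have hψ : P (Function.update φ w d) := by
    refine ⟨fun w' hw' => ?_, ?_⟩
    · by_cases e : w' = w
      · subst e
        rw [Function.update_self]
        exact ⟨hdm, hdφ.trans hφg⟩
      · rw [Function.update_of_ne e]
        exact hφ.1 w' hw'
    · have e : (∏ w' ∈ W, ev w' (Function.update φ w d w')) =
          ev w d * ∏ w' ∈ W.erase w, ev w' (φ w') := by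
        rw [← Finset.mul_prod_erase W _ hw, Function.update_self]
        congr 1
        refine Finset.prod_congr rfl fun w' hw' => ?_
        rw [Function.update_of_ne (Finset.ne_of_mem_erase hw')]
      rw [e, mul_ac]
      exact hdb
  have h1 := hmin _ hψ
  rw [← Finset.add_sum_erase W _ hw, ← Finset.add_sum_erase W _ hw, Function.update_self] at h1
  have h2 : ∑ w' ∈ W.erase w, (Function.update φ w d w').natDegree =
      ∑ w' ∈ W.erase w, (φ w').natDegree :=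
    Finset.sum_congr rfl fun w' hw' => by
      rw [Function.update_of_ne (Finset.ne_of_mem_erase hw')]
  rw [h2] at h1
  have h3 : φ w = d :=
    eq_of_monic_of_dvd_of_natDegree_le hdm hφm hdφ (by omega)
  rw [h3]
  exact hda

end Pool.Agent.H97.NV
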