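import Pool.Agent.H97.NV.Claim3
import Pool.Agent.H97.NV.Minimal
import Pool.Agent.H97.NV.BoxEv
import Pool.Agent.H97.NV.Count
import Pool.Agent.H97.NV.ExPQ
import Pool.Agent.H97.NV.AnnTheta

/-!
Nivat, module Core (helper97): the theorem over a finite field.
-/

set_option autoImplicit false

namespace Pool.Agent.H97.NV

open Polynomial

/-- a local function of the block -/
theorem core_local {F : Type} [Field F] (c : ℤ × ℤ → F) (n m : ℕ) (f : Lau F) (e : ℤ × ℤ)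
    (he : ∀ v ∈ f.coeff.support, 0 ≤ e.1 + v.1 ∧ e.1 + v.1 < n ∧ 0 ≤ e.2 + v.2 ∧ e.2 + v.2 < m)
    (z z' : ℤ × ℤ) (h : blk c n m z = blk c n m z') : (ac f c) (z + e) = (ac f c) (z' + e) := by
  rw [ac_apply, ac_apply]
  refine Finset.sum_congr rfl fun v hv => ?_
  obtain ⟨h1, h2, h3, h4⟩ := he v hv
  have := congrFun h (⟨(e.1 + v.1).toNat, by omega⟩, ⟨(e.2 + v.2).toNat, by omega⟩)
  simp only [blk] at this
  rw [Int.toNat_of_nonneg h1, Int.toNat_of_nonneg h3] at this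
  congr 1
  convert this using 2 <;> ext <;> simp <;> ring

theorem coeff_zero_ne {F : Type} [Field F] {φ : F[X]} {g : ℕ} (hg : 0 < g)
    (h : φ ∣ X ^ g - 1) : φ.coeff 0 ≠ 0 := by
  obtain ⟨q, hq⟩ := h
  intro h0
  have := congrArg (fun r : F[X] => r.coeff 0) hq
  simp only [mul_coeff_zero, h0, zero_mul, coeff_sub, coeff_X_pow, coeff_one_zero] at this
  rw [if_neg hg.ne] at this
  simp at this

theorem ne_zero_of_isCoprime {w : ℤ × ℤ} (h : IsCoprime w.1 w.2) : w ≠ 0 := by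
  rintro rfl
  obtain ⟨a, b, hab⟩ := h
  simp at hab

theorem core (F : Type) [Field F] [Finite F] (p : ℕ) [Fact p.Prime] [CharP F p]
    (W : Finset (ℤ × ℤ)) (g : ℕ) (hg : 0 < g) (hW : Dirs W) (c : ℤ × ℤ → F)
    (hΨ : ac (Psi F W g) c = 0) (n m : ℕ) (hP : (Set.range (blk c n m)).ncard ≤ n * m) :
    ∃ v : ℤ × ℤ, v ≠ 0 ∧ ∀ z : ℤ × ℤ, c (z + v) = c z := by
  classical
  by_contra hnp
  obtain ⟨φ, hφ, hD, hmin⟩ := exists_minimal F c W g hg hΨ
  have hper : ∀ w ∈ W, ¬ Per w c := by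
    intro w hw ⟨T, hT, h⟩
    refine hnp ⟨(T : ℤ) • w, ?_, h⟩
    exact smul_ne_zero (by exact_mod_cast hT.ne') (ne_zero_of_isCoprime (hW.1 w hw))
  have hφ0 : ∀ w ∈ W, (φ w).coeff 0 ≠ 0 := fun w hw => coeff_zero_ne hg (hφ w hw).2
  -- two directions
  have hDc : ¬ Dbl c := by
    rintro ⟨T, hT, h⟩
    refine hnp ⟨(T : ℤ) • (1, 0), ?_, fun z => h z _⟩
    intro h0
    have := congrArg Prod.fst h0
    simp at this
    omega
  have key : ∀ w ∈ W, ∃ w' ∈ W, w' ≠ w ∧ φ w' ≠ 1 := by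
    intro w hw
    by_contra hno
    push Not at hno
    have hprod : (∏ w' ∈ W, ev w' (φ w')) = ev w (φ w) := by
      rw [← Finset.mul_prod_erase W _ hw, Finset.prod_eq_one, mul_one]
      intro w' hw'
      rw [hno w' (Finset.mem_of_mem_erase hw') (Finset.ne_of_mem_erase hw'), ev_one]
    rw [hprod] at hD
    obtain ⟨q, hq⟩ := (hφ w hw).2
    have : Dbl (ac (mon ((g : ℤ) • w) - 1 : Lau F) c) := by
      rw [← ev_X_pow_sub_one, hq, mul_comm, ev_mul, mul_ac]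
      exact hD.ac _
    exact hper w hw (fact0 p hg this)
  have hWne : W.Nonempty := by
    rw [Finset.nonempty_iff_ne_empty]
    rintro rfl
    rw [Psi, Finset.prod_empty, one_ac] at hΨ
    rw [hΨ] at hDc
    exact hDc Dbl.zero
  obtain ⟨w₀, hw₀⟩ := hWne
  obtain ⟨w₁, hw₁, -, h1⟩ := key w₀ hw₀
  obtain ⟨w₂, hw₂, h21, h2⟩ := key w₁ hw₁
  have hdet : dt w₁ w₂ ≠ 0 := hW.2 w₁ hw₁ w₂ hw₂ (Ne.symm h21)
  -- boxes
  have hu : ∀ w : ℤ × ℤ, ∃ u : ℤ × ℤ, w ∈ W → HasBox (mon u * ev w (φ w))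
      ((φ w).natDegree * w.1.natAbs) ((φ w).natDegree * w.2.natAbs) := by
    intro w
    by_cases hw : w ∈ W
    · obtain ⟨u, hu⟩ := hasBox_ev (φ w) (hφ0 w hw) w (ne_zero_of_isCoprime (hW.1 w hw))
      exact ⟨u, fun _ => hu⟩
    · exact ⟨0, fun h => absurd h hw⟩
  choose u hu using hu
  let a : ℤ × ℤ → ℕ := fun w => (φ w).natDegree * w.1.natAbs
  let b : ℤ × ℤ → ℕ := fun w => (φ w).natDegree * w.2.natAbs
  let Pr : Finset (ℤ × ℤ) → Lau F := fun S => mon (∑ w ∈ S, u w) * ∏ w ∈ S, ev w (φ w)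
  have hbox : ∀ S ⊆ W, HasBox (Pr S) (∑ w ∈ S, a w) (∑ w ∈ S, b w) := fun S hS =>
    hasBox_prod S (fun w => ev w (φ w)) u a b fun w hw => hu w (hS hw)
  have hdiv : ∀ f : Lau F, Dbl (ac f c) → Pr W ∣ f := by
    intro f hf
    have h := Phi_dvd F p W hW g hg c φ hφ hD hmin f hf
    exact ((isUnit_mon _).mul_left_dvd).mpr h
  -- the functions c_w
  have hcw : ∀ w ∈ W, φ w ≠ 1 → Per w (ac (Pr (W.erase w)) c) ∧ ¬ Dbl (ac (Pr (W.erase w)) c) ∧
      Dbl (ac (ev w (φ w)) (ac (Pr (W.erase w)) c)) := by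
    intro w hw hne
    have hb : Dbl (ac (ev w (φ w)) (ac (Pr (W.erase w)) c)) := by
      have : ac (ev w (φ w)) (ac (Pr (W.erase w)) c) =
          ac (mon (∑ w' ∈ W.erase w, u w')) (ac (∏ w' ∈ W, ev w' (φ w')) c) := by
        rw [← Finset.mul_prod_erase W _ hw]
        simp only [Pr, ← mul_ac]
        congr 1
        ring
      rw [this]
      exact hD.ac _
    refine ⟨?_, ?_, hb⟩
    · obtain ⟨q, hq⟩ := (hφ w hw).2
      have : Dbl (ac (mon ((g : ℤ) • w) - 1 : Lau F) (ac (Pr (W.erase w)) c)) := by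
        rw [← ev_X_pow_sub_one, hq, mul_comm, ev_mul, mul_ac]
        exact hb.ac _
      exact fact0 p hg this
    · intro hDb
      have h1 : Dbl (ac (ev w 1) (ac (∏ w' ∈ W.erase w, ev w' (φ w')) c)) := by
        rw [ev_one, one_ac]
        have := hDb.ac (mon (-(∑ w' ∈ W.erase w, u w')) : Lau F)
        rwa [← mul_ac, ← mul_assoc, mon_neg_mul, one_mul] at this
      have := hmin w hw 1 h1
      exact hne ((hφ w hw).1.eq_one_of_isUnit (isUnit_of_dvd_one this))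
  obtain ⟨hP1, hN1, hR1⟩ := hcw w₁ hw₁ h1
  obtain ⟨hP2, hN2, hR2⟩ := hcw w₂ hw₂ h2
  obtain ⟨pp, qq, ⟨hp1, hp2, hp3, hp4⟩, ⟨hq1, hq2, hq3, hq4⟩, z₀, V₁, V₂, hV, uu, vv, huu, hvv, hth⟩ :=
    exists_pq (ac (Pr (W.erase w₁)) c) (ac (Pr (W.erase w₂)) c) w₁ w₂ hdet (φ w₁) (φ w₂)
      (hφ w₁ hw₁).1 (hφ0 w₁ hw₁) (hφ w₂ hw₂).1 (hφ0 w₂ hw₂) hP1 hP2 hN1 hN2 hR1 hR2
  have hsum : ∀ (f : ℤ × ℤ → ℕ) (w : ℤ × ℤ), w ∈ W →
      ∑ w' ∈ W, f w' = f w + ∑ w' ∈ W.erase w, f w' := fun f w hw =>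
    (Finset.add_sum_erase W f hw).symm
  have hcount := count c n m (Pr W) (∑ w ∈ W, a w) (∑ w ∈ W, b w) (hbox W subset_rfl) hdiv
    (Psi F W g) ?_ hΨ ?_
    (fun z => (ac (Pr (W.erase w₁)) c) (z + pp) * (ac (Pr (W.erase w₂)) c) (z + qq)) ?_ ?_
  · omega
  · -- Psi ≠ 0
    rw [Psi, Finset.prod_ne_zero_iff]
    intro w hw h0
    have hne : ((g : ℤ) • w) ≠ 0 :=
      smul_ne_zero (by exact_mod_cast hg.ne') (ne_zero_of_isCoprime (hW.1 w hw))
    rw [sub_eq_zero, ← mon_zero] at h0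
    have h3 : (mon ((g : ℤ) • w) : Lau F).coeff ((g : ℤ) • w) =
        (mon 0 : Lau F).coeff ((g : ℤ) • w) := by rw [h0]
    rw [mon, mon, AddMonoidAlgebra.coeff_single, AddMonoidAlgebra.coeff_single,
      Finsupp.single_eq_same, Finsupp.single_eq_of_ne hne] at h3
    exact one_ne_zero h3
  · -- Psi kills 1
    rw [Psi, ← Finset.mul_prod_erase W _ hw₁, mul_comm, mul_ac]
    have : (ac (mon ((g : ℤ) • w₁) - 1 : Lau F) (fun _ => (1 : F))) = 0 := by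
      rw [mon_sub_one_ac_eq_zero_iff]; intro z; rfl
    rw [this, ac_zero]
  · -- locality
    intro r hr1 hr2 hr3 hr4 z z' hz
    have hA1 := hsum a w₁ hw₁
    have hB1 := hsum b w₁ hw₁
    have hA2 := hsum a w₂ hw₂
    have hB2 := hsum b w₂ hw₂
    have hbx1 := (hbox (W.erase w₁) (Finset.erase_subset _ _)).1
    have hbx2 := (hbox (W.erase w₂) (Finset.erase_subset _ _)).1
    have e1 : ∀ y : ℤ × ℤ, y + r + pp = y + (r + pp) := fun y => add_assoc _ _ _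
    have e2 : ∀ y : ℤ × ℤ, y + r + qq = y + (r + qq) := fun y => add_assoc _ _ _
    simp only [e1, e2]
    have ha1 : ((a w₁ : ℕ) : ℤ) = (((φ w₁).natDegree * w₁.1.natAbs : ℕ) : ℤ) := rfl
    have hb1 : ((b w₁ : ℕ) : ℤ) = (((φ w₁).natDegree * w₁.2.natAbs : ℕ) : ℤ) := rfl
    have ha2 : ((a w₂ : ℕ) : ℤ) = (((φ w₂).natDegree * w₂.1.natAbs : ℕ) : ℤ) := rfl
    have hb2 : ((b w₂ : ℕ) : ℤ) = (((φ w₂).natDegree * w₂.2.natAbs : ℕ) : ℤ) := rfl
    rw [← ha1] at hp2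
    rw [← hb1] at hp4
    rw [← ha2] at hq2
    rw [← hb2] at hq4
    congr 1
    · refine core_local c n m _ (r + pp) ?_ z z' hz
      intro v hv
      obtain ⟨k1, k2, k3, k4⟩ := hbx1 v hv
      simp only [Prod.fst_add, Prod.snd_add]
      refine ⟨?_, ?_, ?_, ?_⟩ <;> omega
    · refine core_local c n m _ (r + qq) ?_ z z' hz
      intro v hv
      obtain ⟨k1, k2, k3, k4⟩ := hbx2 v hv
      simp only [Prod.fst_add, Prod.snd_add]
      refine ⟨?_, ?_, ?_, ?_⟩ <;> omega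
  · -- annihilator
    intro H hH
    exact ann_theta _ z₀ V₁ V₂ hV uu vv huu hvv (fun s t => hth s t) H hH

end Pool.Agent.H97.NV
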