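import Mathlib

/-!
Nivat's conjecture (MP_de3c7d_co): definitions and the basic API.
Paper: team-store h97_nivat_paper.md.
-/

set_option autoImplicit false

namespace Pool.Agent.H97.NV

open Polynomial

/-- Laurent polynomials in two variables over `k`. -/
abbrev Lau (k : Type) [CommRing k] := AddMonoidAlgebra k (ℤ × ℤ)

/-- The block of `c` at `z`. -/
def blk {α : Type} (c : ℤ × ℤ → α) (n m : ℕ) (z : ℤ × ℤ) : Fin n × Fin m → α :=
  fun q => c (z.1 + ((q.1 : ℕ) : ℤ), z.2 + ((q.2 : ℕ) : ℤ))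

/-- The shift operators. -/
def sh (k : Type) [CommRing k] : Multiplicative (ℤ × ℤ) →* Module.End k (ℤ × ℤ → k) where
  toFun v :=
    { toFun := fun c z => c (z + v.toAdd)
      map_add' := fun _ _ => rfl
      map_smul' := fun _ _ => rfl }
  map_one' := by
    ext c z
    simp
  map_mul' v w := by
    ext c z
    simp [add_assoc]

/-- The action of Laurent polynomials on functions on `ℤ²` as an algebra morphism. -/
noncomputable def actHom (k : Type) [CommRing k] : Lau k →ₐ[k] Module.End k (ℤ × ℤ → k) :=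
  AddMonoidAlgebra.lift k _ _ (sh k)

/-- The action: `ac f c z = ∑ v, f v * c (z + v)`. -/
noncomputable def ac {k : Type} [CommRing k] (f : Lau k) (c : ℤ × ℤ → k) : ℤ × ℤ → k :=
  actHom k f c

/-- The monomial `X^v`. -/
noncomputable def mon {k : Type} [CommRing k] (v : ℤ × ℤ) : Lau k := AddMonoidAlgebra.single v 1

/-- `ev w a = a(X^w)`. -/
noncomputable def ev {k : Type} [CommRing k] (w : ℤ × ℤ) (a : k[X]) : Lau k :=
  Polynomial.aeval (mon w) a

/-- The dilation `X^v ↦ X^(N v)`. -/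
noncomputable def dil {k : Type} [CommRing k] (N : ℤ) (f : Lau k) : Lau k :=
  AddMonoidAlgebra.mapDomain (fun v : ℤ × ℤ => N • v) f

/-- Doubly periodic functions. -/
def Dbl {k : Type} (c : ℤ × ℤ → k) : Prop :=
  ∃ T : ℕ, 0 < T ∧ ∀ z v : ℤ × ℤ, c (z + (T : ℤ) • v) = c z

/-- Functions with a period that is a positive multiple of `w`. -/
def Per {k : Type} (w : ℤ × ℤ) (c : ℤ × ℤ → k) : Prop :=
  ∃ T : ℕ, 0 < T ∧ ∀ z : ℤ × ℤ, c (z + (T : ℤ) • w) = c z

/-- Periodic sequences. -/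
def SPer {k : Type} (u : ℤ → k) : Prop :=
  ∃ T : ℕ, 0 < T ∧ ∀ t : ℤ, u (t + (T : ℤ)) = u t

/-- The determinant. -/
def dt (v w : ℤ × ℤ) : ℤ := v.1 * w.2 - v.2 * w.1

/-- Admissible finite set of directions: primitive, pairwise nonparallel. -/
def Dirs (W : Finset (ℤ × ℤ)) : Prop :=
  (∀ w ∈ W, IsCoprime w.1 w.2) ∧ ∀ w ∈ W, ∀ w' ∈ W, w ≠ w' → dt w w' ≠ 0

/-- `Ψ = ∏ (X^(g w) - 1)`. -/
noncomputable def Psi (k : Type) [CommRing k] (W : Finset (ℤ × ℤ)) (g : ℕ) : Lau k :=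
  ∏ w ∈ W, (mon ((g : ℤ) • w) - 1)

/-- The bounding box of the support of `f` is exactly `[0,A] × [0,B]`. -/
def HasBox {k : Type} [CommRing k] (f : Lau k) (A B : ℕ) : Prop :=
  (∀ v ∈ f.coeff.support, 0 ≤ v.1 ∧ v.1 ≤ A ∧ 0 ≤ v.2 ∧ v.2 ≤ B) ∧
  (∃ v ∈ f.coeff.support, v.1 = 0) ∧ (∃ v ∈ f.coeff.support, v.1 = A) ∧
  (∃ v ∈ f.coeff.support, v.2 = 0) ∧ (∃ v ∈ f.coeff.support, v.2 = B)

section API

variable {k : Type} [CommRing k]

theorem ac_def (f : Lau k) (c : ℤ × ℤ → k) : ac f c = actHom k f c := rfl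

theorem ac_single (v : ℤ × ℤ) (a : k) (c : ℤ × ℤ → k) (z : ℤ × ℤ) :
    (ac (AddMonoidAlgebra.single v a : Lau k) c) z = a * c (z + v) := by
  simp [ac, actHom, AddMonoidAlgebra.lift_single, sh]

theorem mon_ac (v : ℤ × ℤ) (c : ℤ × ℤ → k) (z : ℤ × ℤ) :
    (ac (mon v : Lau k) c) z = c (z + v) := by
  simp [mon, ac_single]

theorem add_ac (f g : Lau k) (c : ℤ × ℤ → k) : ac (f + g) c = ac f c + ac g c := by
  simp [ac]

theorem sub_ac (f g : Lau k) (c : ℤ × ℤ → k) : ac (f - g) c = ac f c - ac g c := by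
  simp [ac]

theorem neg_ac (f : Lau k) (c : ℤ × ℤ → k) : ac (-f) c = -(ac f c) := by
  simp [ac]

theorem mul_ac (f g : Lau k) (c : ℤ × ℤ → k) : ac (f * g) c = ac f (ac g c) := by
  simp [ac]

theorem one_ac (c : ℤ × ℤ → k) : ac (1 : Lau k) c = c := by
  simp [ac]

theorem zero_ac (c : ℤ × ℤ → k) : ac (0 : Lau k) c = 0 := by
  simp [ac]

theorem smul_ac (a : k) (f : Lau k) (c : ℤ × ℤ → k) : ac (a • f) c = a • (ac f c) := by
  simp [ac]

theorem ac_add (f : Lau k) (c d : ℤ × ℤ → k) : ac f (c + d) = ac f c + ac f d := by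
  simp [ac]

theorem ac_sub (f : Lau k) (c d : ℤ × ℤ → k) : ac f (c - d) = ac f c - ac f d := by
  simp [ac]

theorem ac_neg (f : Lau k) (c : ℤ × ℤ → k) : ac f (-c) = -(ac f c) := by
  simp [ac]

theorem ac_zero (f : Lau k) : ac f (0 : ℤ × ℤ → k) = 0 := by
  simp [ac]

theorem ac_smul (f : Lau k) (a : k) (c : ℤ × ℤ → k) : ac f (a • c) = a • (ac f c) := by
  simp [ac]

theorem sum_ac {ι : Type} (s : Finset ι) (f : ι → Lau k) (c : ℤ × ℤ → k) :
    ac (∑ i ∈ s, f i) c = ∑ i ∈ s, ac (f i) c := by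
  simp [ac, map_sum]

theorem ac_comm (f g : Lau k) (c : ℤ × ℤ → k) : ac f (ac g c) = ac g (ac f c) := by
  rw [← mul_ac, mul_comm, mul_ac]

theorem ac_apply (f : Lau k) (c : ℤ × ℤ → k) (z : ℤ × ℤ) :
    (ac f c) z = ∑ v ∈ f.coeff.support, f.coeff v * c (z + v) := by
  conv_lhs => rw [← AddMonoidAlgebra.sum_coeff_single f]
  rw [Finsupp.sum, sum_ac, Finset.sum_apply]
  exact Finset.sum_congr rfl fun v _ => ac_single v _ c z

/-- The sum may be taken over any finset containing the support. -/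
theorem ac_apply' (f : Lau k) (c : ℤ × ℤ → k) (z : ℤ × ℤ) (s : Finset (ℤ × ℤ))
    (hs : f.coeff.support ⊆ s) : (ac f c) z = ∑ v ∈ s, f.coeff v * c (z + v) := by
  rw [ac_apply]
  refine Finset.sum_subset hs fun v _ hv => ?_
  rw [Finsupp.notMem_support_iff.mp hv, zero_mul]

theorem mon_add (v w : ℤ × ℤ) : (mon (v + w) : Lau k) = mon v * mon w := by
  simp [mon, AddMonoidAlgebra.single_mul_single]

theorem mon_zero : (mon 0 : Lau k) = 1 := rfl

theorem mon_nsmul (n : ℕ) (v : ℤ × ℤ) : (mon ((n : ℤ) • v) : Lau k) = mon v ^ n := by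
  induction n with
  | zero => simp [mon_zero]
  | succ n ih => rw [pow_succ, ← ih, ← mon_add]; congr 1; push_cast; rw [add_smul, one_smul]

theorem mon_neg_mul (v : ℤ × ℤ) : (mon (-v) : Lau k) * mon v = 1 := by
  rw [← mon_add]; simp [mon_zero]

theorem isUnit_mon (v : ℤ × ℤ) : IsUnit (mon v : Lau k) :=
  IsUnit.of_mul_eq_one_right _ (mon_neg_mul v)

/-- the shift commutes with the action -/
theorem ac_shift (f : Lau k) (c : ℤ × ℤ → k) (v z : ℤ × ℤ) :
    (ac f (fun y => c (y + v))) z = (ac f c) (z + v) := by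
  rw [ac_apply, ac_apply]
  exact Finset.sum_congr rfl fun u _ => by rw [add_right_comm]

theorem ev_one (w : ℤ × ℤ) : ev w (1 : k[X]) = 1 := by simp [ev]
theorem ev_zero (w : ℤ × ℤ) : ev w (0 : k[X]) = 0 := by simp [ev]
theorem ev_mul (w : ℤ × ℤ) (a b : k[X]) : ev w (a * b) = ev w a * ev w b := by simp [ev]
theorem ev_add (w : ℤ × ℤ) (a b : k[X]) : ev w (a + b) = ev w a + ev w b := by simp [ev]
theorem ev_sub (w : ℤ × ℤ) (a b : k[X]) : ev w (a - b) = ev w a - ev w b := by simp [ev]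
theorem ev_X_pow_sub_one (w : ℤ × ℤ) (g : ℕ) :
    ev w (X ^ g - 1 : k[X]) = mon ((g : ℤ) • w) - 1 := by
  rw [mon_nsmul]; simp [ev]

end API

end Pool.Agent.H97.NV
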