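import Pool.Agent.H97.NV.Basic

/-!
Nivat, module DilAc. `dil N f = mapDomain (N • ·) f`. PROOFS. `dil_ac`: induction on `f` (`AddMonoidAlgebra.induction_linear`
or write `f` as the sum of its singles; `mapDomain` is additive, `mapDomain_single`), or `Finsupp.sum_mapDomain_index`.
`dil_bound`: triangle inequality in `dil_ac`. `dil_dil`: `mapDomain` of a composition, `N • (N' • v) = (N * N') • v`.
`dil_one`: trivial.
-/

set_option autoImplicit false

namespace Pool.Agent.H97.NV

theorem dil_ac {k : Type} [CommRing k] (N : ℤ) (f : Lau k) (c : ℤ × ℤ → k) (z : ℤ × ℤ) :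
    (ac (dil N f) c) z = ∑ v ∈ f.coeff.support, f.coeff v * c (z + N • v) := by
  have hlin : ∀ f g : Lau k, ∀ s : Finset (ℤ × ℤ), f.coeff.support ⊆ s → g.coeff.support ⊆ s →
      ∑ v ∈ (f + g).coeff.support, (f + g).coeff v * c (z + N • v) =
        ∑ v ∈ f.coeff.support, f.coeff v * c (z + N • v) +
          ∑ v ∈ g.coeff.support, g.coeff v * c (z + N • v) := by
    intro f g s hf hg
    have e : ∀ h : Lau k, h.coeff.support ⊆ s →
        ∑ v ∈ h.coeff.support, h.coeff v * c (z + N • v) = ∑ v ∈ s, h.coeff v * c (z + N • v) := by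
      intro h hh
      refine Finset.sum_subset hh fun v _ hv => ?_
      rw [Finsupp.notMem_support_iff.mp hv, zero_mul]
    have hfg : (f + g).coeff.support ⊆ s := by
      intro v hv
      by_contra hvs
      rw [Finsupp.mem_support_iff] at hv
      apply hv
      have h1 : f.coeff v = 0 := Finsupp.notMem_support_iff.mp fun h => hvs (hf h)
      have h2 : g.coeff v = 0 := Finsupp.notMem_support_iff.mp fun h => hvs (hg h)
      simp [h1, h2]
    rw [e f hf, e g hg, e (f + g) hfg, ← Finset.sum_add_distrib]
    refine Finset.sum_congr rfl fun v _ => ?_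
    simp [add_mul]
  induction f using AddMonoidAlgebra.induction_linear with
  | zero => simp [dil, zero_ac]
  | add f g hf hg =>
    classical
    rw [hlin f g (f.coeff.support ∪ g.coeff.support) Finset.subset_union_left
      Finset.subset_union_right, ← hf, ← hg]
    have h1 : dil N (f + g) = dil N f + dil N g := AddMonoidAlgebra.mapDomain_add _ _ _
    rw [h1, add_ac]
    rfl
  | single a b =>
    have h1 : dil N (AddMonoidAlgebra.single a b : Lau k) = AddMonoidAlgebra.single (N • a) b :=
      AddMonoidAlgebra.mapDomain_single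
    rw [h1, ac_single]
    by_cases hb : b = 0
    · simp [hb]
    · have h2 : (AddMonoidAlgebra.single a b : Lau k).coeff.support = {a} := by
        rw [AddMonoidAlgebra.coeff_single]
        exact Finsupp.support_single_ne_zero a hb
      rw [h2, Finset.sum_singleton]
      simp

theorem dil_bound (f : Lau ℤ) (c : ℤ × ℤ → ℤ) (M : ℤ) (hM : ∀ z, |c z| ≤ M) (N : ℤ) (z : ℤ × ℤ) :
    |(ac (dil N f) c) z| ≤ (∑ v ∈ f.coeff.support, |f.coeff v|) * M := by
  rw [dil_ac, Finset.sum_mul]
  refine (Finset.abs_sum_le_sum_abs _ _).trans (Finset.sum_le_sum fun v _ => ?_)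
  rw [abs_mul]
  exact mul_le_mul_of_nonneg_left (hM _) (abs_nonneg _)

theorem dil_dil {k : Type} [CommRing k] (N N' : ℤ) (f : Lau k) :
    dil N (dil N' f) = dil (N * N') f := by
  induction f using AddMonoidAlgebra.induction_linear with
  | zero => simp [dil]
  | add f g hf hg =>
    have h1 : ∀ (M : ℤ) (f g : Lau k), dil M (f + g) = dil M f + dil M g := fun M f g =>
      AddMonoidAlgebra.mapDomain_add _ _ _
    rw [h1, h1, h1, hf, hg]
  | single a b =>
    have h1 : ∀ (M : ℤ) (a : ℤ × ℤ) (b : k),
        dil M (AddMonoidAlgebra.single a b : Lau k) = AddMonoidAlgebra.single (M • a) b :=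
      fun M a b => AddMonoidAlgebra.mapDomain_single
    rw [h1, h1, h1, smul_smul]

theorem dil_one {k : Type} [CommRing k] (f : Lau k) : dil 1 f = f := by
  induction f using AddMonoidAlgebra.induction_linear with
  | zero => simp [dil]
  | add f g hf hg =>
    have h1 : ∀ (M : ℤ) (f g : Lau k), dil M (f + g) = dil M f + dil M g := fun M f g =>
      AddMonoidAlgebra.mapDomain_add _ _ _
    rw [h1, hf, hg]
  | single a b =>
    have h1 : ∀ (M : ℤ) (a : ℤ × ℤ) (b : k),
        dil M (AddMonoidAlgebra.single a b : Lau k) = AddMonoidAlgebra.single (M • a) b :=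
      fun M a b => AddMonoidAlgebra.mapDomain_single
    rw [h1, one_smul]

end Pool.Agent.H97.NV
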