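import Pool.Agent.H97.NV.Basic

/-!
Nivat, module Frob. PROOF of `dil_prime`: `f ^ q - dil q f = q • g` for some `g : Lau ℤ`: every coefficient of
`f ^ q - dil q f` is divisible by `q`, because its image in `Lau (ZMod q)` (`AddMonoidAlgebra.mapRingHom` /
`mapRangeRingHom` of `Int.castRingHom (ZMod q)`) vanishes: in characteristic `q` the Frobenius is additive
(`frobenius`, `add_pow_char`, `sum_pow_char`), `(single v a) ^ q = single (q • v) (a ^ q)` and `a ^ q = a` in `ZMod q`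
(`ZMod.pow_card`). Alternatively induct on `f` over `ℤ`: the statement ∃ g, f ^ q - dil q f = q • g is true for singles
(Fermat: `q ∣ a ^ q - a`) and passes to sums (`(x + y)^q = x^q + y^q + q * r`, `add_pow_prime_eq`/`exists_add_pow_prime_eq`).
`dil_prime_dvd`: `f ^ q ⋆ c = 0` because `f ⋆ c = 0` and `q ≥ 1`, so `(dil q f ⋆ c) z = - q * (g ⋆ c) z`.
-/

set_option autoImplicit false

namespace Pool.Agent.H97.NV

theorem dil_prime (q : ℕ) (hq : q.Prime) (f : Lau ℤ) :
    ∃ g : Lau ℤ, f ^ q - dil (q : ℤ) f = (q : ℤ) • g := by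
  induction f using AddMonoidAlgebra.induction_linear with
  | zero =>
    refine ⟨0, ?_⟩
    rw [zero_pow hq.ne_zero, smul_zero, zero_sub, neg_eq_zero]
    exact AddMonoidAlgebra.mapDomain_zero _
  | add f g hf hg =>
    obtain ⟨a, ha⟩ := hf
    obtain ⟨b, hb⟩ := hg
    obtain ⟨r, hr⟩ := exists_add_pow_prime_eq hq f g
    refine ⟨a + b + f * g * r, ?_⟩
    have hd : dil (q : ℤ) (f + g) = dil (q : ℤ) f + dil (q : ℤ) g :=
      AddMonoidAlgebra.mapDomain_add _ _ _
    have e : (q : ℤ) • (f * g * r) = (q : Lau ℤ) * f * g * r := by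
      rw [zsmul_eq_mul]
      push_cast
      ring
    rw [hr, hd, smul_add, smul_add, ← ha, ← hb, e]
    ring
  | single v a =>
    haveI : Fact q.Prime := ⟨hq⟩
    have h1 : (q : ℤ) ∣ a ^ q - a := by
      rw [← ZMod.intCast_zmod_eq_zero_iff_dvd]
      push_cast
      rw [ZMod.pow_card, sub_self]
    obtain ⟨b, hb⟩ := h1
    refine ⟨AddMonoidAlgebra.single ((q : ℤ) • v) b, ?_⟩
    have h2 : dil (q : ℤ) (AddMonoidAlgebra.single v a : Lau ℤ) =
        AddMonoidAlgebra.single ((q : ℤ) • v) a := AddMonoidAlgebra.mapDomain_single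
    have h3 : (AddMonoidAlgebra.single v a : Lau ℤ) ^ q =
        AddMonoidAlgebra.single ((q : ℤ) • v) (a ^ q) := by
      rw [AddMonoidAlgebra.single_pow, natCast_zsmul]
    have h4 : (AddMonoidAlgebra.single ((q : ℤ) • v) (a ^ q) : Lau ℤ) =
        AddMonoidAlgebra.single ((q : ℤ) • v) a +
          AddMonoidAlgebra.single ((q : ℤ) • v) ((q : ℤ) * b) := by
      rw [← AddMonoidAlgebra.single_add, ← hb, add_sub_cancel]
    rw [h2, h3, h4, add_sub_cancel_left, AddMonoidAlgebra.smul_single, smul_eq_mul]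

theorem dil_prime_dvd (q : ℕ) (hq : q.Prime) (f : Lau ℤ) (c : ℤ × ℤ → ℤ) (h : ac f c = 0)
    (z : ℤ × ℤ) : (q : ℤ) ∣ (ac (dil (q : ℤ) f) c) z := by
  obtain ⟨g, hg⟩ := dil_prime q hq f
  obtain ⟨n, rfl⟩ : ∃ n, q = n + 1 := ⟨q - 1, by have := hq.pos; omega⟩
  have h1 : ac (f ^ (n + 1)) c = 0 := by
    rw [pow_succ, mul_ac, h, ac_zero]
  have h2 := congrArg (fun p : Lau ℤ => (ac p c) z) hg
  simp only [sub_ac, smul_ac, h1, zero_sub, Pi.neg_apply, Pi.smul_apply, smul_eq_mul] at h2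
  refine ⟨-((ac g c) z), ?_⟩
  linarith

end Pool.Agent.H97.NV
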