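import Pool.Agent.H97.NV.DilAc
import Pool.Agent.H97.NV.Frob

/-!
Nivat, module DilKill. PROOF. `B := (∑ |f v|) * M` (a natural number `b ≥ B`, `b ≥ 1`). Claim: for every natural `N ≥ 1` all
of whose prime factors are `> b`, `dil N f ⋆ c = 0`. Induct on `N` (`Nat.recOnMul`, or strong induction with `N = q * N'`,
`q = minFac N` prime `> b`): `dil (q * N') f = dil q (dil N' f)` (`dil_dil`), `q ∣ (dil q (dil N' f) ⋆ c) z`
(`dil_prime_dvd` with `dil N' f ⋆ c = 0`) and the absolute value is `≤ b < q` (`dil_bound` for `f` and the dilation `q N'`), so it is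
`0` (`Int.eq_zero_of_abs_lt_dvd`). Take `r := b!` : a prime factor `q ≤ b` of `1 + i * r` would divide `r` and so `1`.
-/

set_option autoImplicit false

namespace Pool.Agent.H97.NV

private theorem dilKill_aux (f : Lau ℤ) (c : ℤ × ℤ → ℤ) (M : ℤ) (hM : ∀ z, |c z| ≤ M)
    (h : ac f c = 0) (b : ℕ) (hb : (∑ v ∈ f.coeff.support, |f.coeff v|) * M ≤ (b : ℤ)) :
    ∀ N : ℕ, 0 < N → (∀ q : ℕ, q.Prime → q ∣ N → b < q) → ac (dil (N : ℤ) f) c = 0 := by
  intro N
  induction N using Nat.strong_induction_on with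
  | _ N ih =>
    intro hN hq
    by_cases h1 : N = 1
    · subst h1
      rw [Nat.cast_one, dil_one, h]
    · have hp := Nat.minFac_prime h1
      have hd := Nat.minFac_dvd N
      set q := N.minFac with hqdef
      obtain ⟨N', hN'⟩ := hd
      have hN'0 : 0 < N' := by
        rcases Nat.eq_zero_or_pos N' with h0 | h0
        · rw [h0, Nat.mul_zero] at hN'
          omega
        · exact h0
      have hlt : N' < N := by
        rw [hN']
        exact lt_mul_of_one_lt_left hN'0 hp.one_lt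
      have ih' := ih N' hlt hN'0 (fun p hp' hpd => hq p hp' (by
        rw [hN']
        exact Dvd.dvd.mul_left hpd q))
      funext z
      have e : (N : ℤ) = (q : ℤ) * (N' : ℤ) := by
        rw [hN']
        push_cast
        rfl
      have d1 := dil_prime_dvd q hp (dil (N' : ℤ) f) c ih' z
      rw [dil_dil, ← e] at d1
      have d2 := dil_bound f c M hM (N : ℤ) z
      have d3 : b < q := hq q hp ⟨N', hN'⟩
      have d3' : (b : ℤ) < (q : ℤ) := by exact_mod_cast d3
      have d4 : |(ac (dil (N : ℤ) f) c) z| < (q : ℤ) := lt_of_le_of_lt (d2.trans hb) d3'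
      exact Int.eq_zero_of_abs_lt_dvd d1 d4

theorem dil_kill (f : Lau ℤ) (c : ℤ × ℤ → ℤ) (M : ℤ) (hM : ∀ z, |c z| ≤ M) (h : ac f c = 0) :
    ∃ r : ℕ, 0 < r ∧ ∀ i : ℕ, ac (dil ((1 + i * r : ℕ) : ℤ) f) c = 0 := by
  set b : ℕ := ((∑ v ∈ f.coeff.support, |f.coeff v|) * M).toNat with hbdef
  have hb : (∑ v ∈ f.coeff.support, |f.coeff v|) * M ≤ (b : ℤ) := Int.self_le_toNat _
  refine ⟨b.factorial, b.factorial_pos, fun i => ?_⟩
  refine dilKill_aux f c M hM h b hb _ (by omega) ?_
  intro q hq hqd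
  by_contra hle
  push Not at hle
  have h1 : q ∣ b.factorial := Nat.dvd_factorial hq.pos hle
  have h2 : q ∣ i * b.factorial := Dvd.dvd.mul_left h1 i
  have h3 : q ∣ 1 := (Nat.dvd_add_left h2).1 hqd
  exact hq.one_lt.ne' (Nat.dvd_one.1 h3)

end Pool.Agent.H97.NV
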