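import Pool.Agent.H97.NV.Basic

/-!
Nivat, module Edge. PROOF. `f₁ :=` part of `f` on `{ℓ = α}`, `g₁ :=` part of `g` on `{ℓ = β}` (e.g.
`AddMonoidAlgebra.ofCoeff (f.coeff.filter (ℓ · = α))`); both nonzero, so `f₁ * g₁ ≠ 0` (`Lau F` has no zero divisors); take `v` in its support.
`f₁ * g₁` is supported on `{ℓ = α + β}`, and `f * g - f₁ * g₁ = (f - f₁) * g + f₁ * (g - g₁)` is supported on `{ℓ < α + β}`
(`AddMonoidAlgebra.support_mul` or `coeff_mul`: the support of a product is in the sum of the supports). So the coefficient of `f * g` at `v`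
is that of `f₁ * g₁`, nonzero, and `ℓ v = α + β`.
(Alternative: `AddMonoidAlgebra.supDegree_mul` for a lexicographic order refining `ℓ`.)
-/

set_option autoImplicit false

namespace Pool.Agent.H97.NV

private theorem Edge_zero {F : Type} [Field F] (p q : Lau F) (v : ℤ × ℤ)
    (h : ∀ x ∈ p.coeff.support, ∀ y ∈ q.coeff.support, x + y ≠ v) : (p * q).coeff v = 0 := by
  classical
  by_contra hne
  have h1 : v ∈ (p * q).coeff.support := Finsupp.mem_support_iff.mpr hne
  have h2 := AddMonoidAlgebra.support_coeff_mul_subset _ _ h1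
  obtain ⟨x, hx, y, hy, hxy⟩ := Finset.mem_add.mp h2
  exact h x hx y hy hxy

theorem exists_support_mul {F : Type} [Field F] (ℓ : ℤ × ℤ →+ ℤ) (f g : Lau F) (α β : ℤ)
    (hf : ∀ v ∈ f.coeff.support, ℓ v ≤ α) (hf' : ∃ v ∈ f.coeff.support, ℓ v = α)
    (hg : ∀ v ∈ g.coeff.support, ℓ v ≤ β) (hg' : ∃ v ∈ g.coeff.support, ℓ v = β) :
    ∃ v ∈ (f * g).coeff.support, ℓ v = α + β := by
  classical
  let f1 : Lau F := AddMonoidAlgebra.ofCoeff (f.coeff.filter (fun v => ℓ v = α))
  let g1 : Lau F := AddMonoidAlgebra.ofCoeff (g.coeff.filter (fun v => ℓ v = β))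
  have hf1c : ∀ x, f1.coeff x = if ℓ x = α then f.coeff x else 0 := fun x => Finsupp.filter_apply _ _ _
  have hg1c : ∀ x, g1.coeff x = if ℓ x = β then g.coeff x else 0 := fun x => Finsupp.filter_apply _ _ _
  have hf1 : f1 ≠ 0 := by
    obtain ⟨v, hv, hv2⟩ := hf'
    intro h0
    have h1 := hf1c v
    rw [if_pos hv2, h0] at h1
    exact (Finsupp.mem_support_iff.mp hv) h1.symm
  have hg1 : g1 ≠ 0 := by
    obtain ⟨v, hv, hv2⟩ := hg'
    intro h0
    have h1 := hg1c v
    rw [if_pos hv2, h0] at h1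
    exact (Finsupp.mem_support_iff.mp hv) h1.symm
  have hne : f1 * g1 ≠ 0 := mul_ne_zero hf1 hg1
  obtain ⟨v, hv⟩ : ∃ v, (f1 * g1).coeff v ≠ 0 := by
    by_contra hcon
    push Not at hcon
    apply hne
    apply AddMonoidAlgebra.coeff_injective
    ext v
    exact hcon v
  have hsub := AddMonoidAlgebra.support_coeff_mul_subset _ _ (Finsupp.mem_support_iff.mpr hv)
  obtain ⟨a, ha, b, hb, hab⟩ := Finset.mem_add.mp hsub
  have ha2 : ℓ a = α := by
    by_contra h
    have h1 := hf1c a
    rw [if_neg h] at h1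
    exact (Finsupp.mem_support_iff.mp ha) h1
  have hb2 : ℓ b = β := by
    by_contra h
    have h1 := hg1c b
    rw [if_neg h] at h1
    exact (Finsupp.mem_support_iff.mp hb) h1
  have hlv : ℓ v = α + β := by rw [← hab, map_add, ha2, hb2]
  refine ⟨v, ?_, hlv⟩
  rw [Finsupp.mem_support_iff]
  have hdec : f * g = f1 * g1 + ((f - f1) * g + f1 * (g - g1)) := by ring
  have hcf : ∀ x, (f - f1).coeff x = f.coeff x - f1.coeff x := fun x => rfl
  have hcg : ∀ x, (g - g1).coeff x = g.coeff x - g1.coeff x := fun x => rfl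
  have h1 : ((f - f1) * g).coeff v = 0 := by
    refine Edge_zero _ _ v fun x hx y hy hxy => ?_
    have hx1 := Finsupp.mem_support_iff.mp hx
    rw [hcf, hf1c] at hx1
    have hxα : ℓ x ≠ α := by
      intro h
      rw [if_pos h, sub_self] at hx1
      exact hx1 rfl
    rw [if_neg hxα, sub_zero] at hx1
    have hle := hf x (Finsupp.mem_support_iff.mpr hx1)
    have hley := hg y hy
    have : ℓ x + ℓ y = α + β := by rw [← map_add, hxy, hlv]
    omega
  have h2 : (f1 * (g - g1)).coeff v = 0 := by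
    refine Edge_zero _ _ v fun x hx y hy hxy => ?_
    have hy1 := Finsupp.mem_support_iff.mp hy
    rw [hcg, hg1c] at hy1
    have hyβ : ℓ y ≠ β := by
      intro h
      rw [if_pos h, sub_self] at hy1
      exact hy1 rfl
    rw [if_neg hyβ, sub_zero] at hy1
    have hle := hg y (Finsupp.mem_support_iff.mpr hy1)
    have hx1 := Finsupp.mem_support_iff.mp hx
    rw [hf1c] at hx1
    have hxα : ℓ x = α := by
      by_contra h
      rw [if_neg h] at hx1
      exact hx1 rfl
    have : ℓ x + ℓ y = α + β := by rw [← map_add, hxy, hlv]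
    omega
  rw [hdec]
  have h3 : (f1 * g1 + ((f - f1) * g + f1 * (g - g1))).coeff v =
      (f1 * g1).coeff v + (((f - f1) * g).coeff v + (f1 * (g - g1)).coeff v) := rfl
  rw [h3, h1, h2, add_zero, add_zero]
  exact hv

end Pool.Agent.H97.NV
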