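import Pool.Agent.H97.NV.Basic

/-!
Nivat, module Ev2. Two variable version: `ev2 w w' G = G(S,T)` with `S = X^w`, `T = X^(w')` for `G : F[X][X]` (outer variable
`T`, coefficients in `S`). PROOFS. `ev2_C`, `ev2_X`: `eval₂_C`, `eval₂_X`. `exists_ev2`: `w, w'` is a basis of `ℤ²`
(`dt w w' = 1`): every `v = α • w + β • w'` with `α = dt v w'`, `β = dt w v`. Let `A` be larger than all `|α|, |β|` for
`v` in the support of `f`, `u := A • w + A • w'`: then every monomial of `mon u * f` is `(mon w)^i * (mon w')^j` with naturals `i, j`, so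
`mon u * f = ev2 w w' G` with `G = ∑ v, C (C (f v) * X ^ (α+A).toNat) * X ^ (β+A).toNat` (or by induction on `f`: enlarge `A`;
or: the statement ∃ u G, mon u * f = ev2 G with u = a•w + b•w', a,b ≥ 0 is stable under addition after enlarging both).
`ev2_dvd`: if `φ` divides all coefficients of `G`, `G = C φ * G'` (`Polynomial.C_dvd_iff_dvd_coeff`), so `ev w φ ∣ ev2 G`.
-/

set_option autoImplicit false

namespace Pool.Agent.H97.NV

open Polynomial

/-- `ev w` as a ring morphism. -/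
noncomputable def evHom {F : Type} [Field F] (w : ℤ × ℤ) : F[X] →+* Lau F :=
  (Polynomial.aeval (mon w : Lau F)).toRingHom

theorem evHom_apply {F : Type} [Field F] (w : ℤ × ℤ) (a : F[X]) : evHom w a = ev w a := rfl

/-- Evaluation of a two variable polynomial at `S = X^w`, `T = X^(w')`. -/
noncomputable def ev2 {F : Type} [Field F] (w w' : ℤ × ℤ) : F[X][X] →+* Lau F :=
  Polynomial.eval₂RingHom (evHom w) (mon w')

theorem ev2_C {F : Type} [Field F] (w w' : ℤ × ℤ) (a : F[X]) : ev2 w w' (C a) = ev w a := by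
  simp [ev2, evHom_apply]

theorem ev2_X {F : Type} [Field F] (w w' : ℤ × ℤ) : ev2 (F := F) w w' X = mon w' := by
  simp [ev2]

private theorem ev2_aux {F : Type} [Field F] (w w' : ℤ × ℤ) (hdet : dt w w' = 1) (f : Lau F) :
    ∃ N₀ : ℕ, ∀ N : ℕ, N₀ ≤ N → ∃ G : F[X][X],
      mon ((N : ℤ) • w + (N : ℤ) • w') * f = ev2 w w' G := by
  induction f using AddMonoidAlgebra.induction_linear with
  | zero => exact ⟨0, fun N _ => ⟨0, by simp⟩⟩
  | add f g hf hg =>
    obtain ⟨N₁, h₁⟩ := hf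
    obtain ⟨N₂, h₂⟩ := hg
    refine ⟨max N₁ N₂, fun N hN => ?_⟩
    obtain ⟨G₁, e₁⟩ := h₁ N (le_trans (le_max_left _ _) hN)
    obtain ⟨G₂, e₂⟩ := h₂ N (le_trans (le_max_right _ _) hN)
    exact ⟨G₁ + G₂, by rw [mul_add, e₁, e₂, map_add]⟩
  | single v a =>
    refine ⟨(dt v w').natAbs + (dt w v).natAbs, fun N hN => ?_⟩
    obtain ⟨i, hi⟩ : ∃ i : ℕ, (i : ℤ) = N + dt v w' := ⟨(N + dt v w').toNat, by omega⟩
    obtain ⟨j, hj⟩ : ∃ j : ℕ, (j : ℤ) = N + dt w v := ⟨(N + dt w v).toNat, by omega⟩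
    refine ⟨C (C a * X ^ i) * X ^ j, ?_⟩
    have hv : (N : ℤ) • w + (N : ℤ) • w' + v = (i : ℤ) • w + (j : ℤ) • w' := by
      rw [hi, hj]
      unfold dt at hdet ⊢
      ext
      · simp only [Prod.fst_add, Prod.smul_fst, smul_eq_mul]
        linear_combination (-v.1) * hdet
      · simp only [Prod.snd_add, Prod.smul_snd, smul_eq_mul]
        linear_combination (-v.2) * hdet
    have hsing : (AddMonoidAlgebra.single v a : Lau F) = a • mon v := by
      simp [mon, AddMonoidAlgebra.smul_single]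
    rw [hsing, mul_smul_comm, ← mon_add, hv, mon_add, mon_nsmul, mon_nsmul, map_mul, map_pow,
      ev2_C, ev2_X]
    simp [ev, Algebra.smul_def, mul_assoc]

theorem exists_ev2 {F : Type} [Field F] (w w' : ℤ × ℤ) (hdet : dt w w' = 1) (f : Lau F) :
    ∃ (u : ℤ × ℤ) (G : F[X][X]), mon u * f = ev2 w w' G := by
  obtain ⟨N₀, h⟩ := ev2_aux w w' hdet f
  obtain ⟨G, hG⟩ := h N₀ le_rfl
  exact ⟨_, G, hG⟩

theorem ev2_dvd {F : Type} [Field F] (w w' : ℤ × ℤ) (φ : F[X]) (G : F[X][X])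
    (h : ∀ j, φ ∣ G.coeff j) : ev w φ ∣ ev2 w w' G := by
  obtain ⟨G', rfl⟩ := (Polynomial.C_dvd_iff_dvd_coeff φ G).mpr h
  rw [map_mul, ev2_C]
  exact dvd_mul_right _ _

end Pool.Agent.H97.NV
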