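import Mathlib

/-!
Nivat, module Fact1. PROOF. `a ≠ 0`, so `K[X] / (a)` (`AdjoinRoot a`) is a finite ring (`K` finite, finite dimensional:
after dividing by the leading coefficient `a` is monic, `AdjoinRoot.powerBasis'`/`Monic.finite_adjoinRoot`), and `X` (the root)
is a unit there, because `a.coeff 0 ≠ 0` and `a = C (a.coeff 0) + X * divX a`. A unit in a finite monoid has finite order
(`isOfFinOrder_of_finite`): `root ^ m = 1`, `m > 0`, i.e. `a ∣ X ^ m - 1` (`AdjoinRoot.mk_eq_zero`). Other route: pigeonhole for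
the remainders `X ^ i % a`: two exponents `i < j` with `a ∣ X^i (X^(j-i) - 1)`, and `a` is coprime to `X`.
-/

set_option autoImplicit false

namespace Pool.Agent.H97.NV

open Polynomial

theorem exists_dvd_X_pow_sub_one (K : Type) [Field K] [Finite K] (a : K[X])
    (ha : a.coeff 0 ≠ 0) : ∃ m : ℕ, 0 < m ∧ a ∣ X ^ m - 1 := by
  have ha0 : a ≠ 0 := by
    rintro rfl
    simp at ha
  have hfd : Module.Finite K (AdjoinRoot a) := (AdjoinRoot.powerBasis ha0).finite
  have hfin : Finite (AdjoinRoot a) := Module.finite_of_finite K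
  have hmk : AdjoinRoot.mk a (X * divX a + C (a.coeff 0)) = 0 := by
    rw [X_mul_divX_add]
    exact AdjoinRoot.mk_self
  have hunit : IsUnit (AdjoinRoot.mk a X) := by
    refine IsUnit.of_mul_eq_one (AdjoinRoot.mk a (-(C (a.coeff 0)⁻¹) * divX a)) ?_
    have h1 : AdjoinRoot.mk a (X * divX a) = - AdjoinRoot.mk a (C (a.coeff 0)) := by
      rw [map_add] at hmk
      exact eq_neg_of_add_eq_zero_left hmk
    have h2 : AdjoinRoot.mk a X * AdjoinRoot.mk a (-(C (a.coeff 0)⁻¹) * divX a) =
        AdjoinRoot.mk a (-(C (a.coeff 0)⁻¹)) * AdjoinRoot.mk a (X * divX a) := by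
      rw [← map_mul, ← map_mul]
      congr 1
      ring
    rw [h2, h1, mul_neg, ← map_mul, ← map_neg, neg_mul, neg_neg, ← C_mul, inv_mul_cancel₀ ha, C_1,
      map_one]
  obtain ⟨u, hu⟩ := hunit
  obtain ⟨m, hm, hum⟩ := (isOfFinOrder_iff_pow_eq_one).1 (isOfFinOrder_of_finite u)
  refine ⟨m, hm, ?_⟩
  rw [← AdjoinRoot.mk_eq_zero, map_sub, map_pow, map_one, ← hu, ← Units.val_pow_eq_pow_val, hum,
    Units.val_one, sub_self]

end Pool.Agent.H97.NV
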