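import Pool.Agent.H97.NV.Basic

/-!
Nivat, module Merge. PROOF. Induction on `L`. `L = []`: `W = ∅`, `g = 1` (Psi = 1).
Step: `V ≠ 0`, `W, g` for the tail. Write `V = t • w₀` with `w₀` primitive, `t = gcd(V.1, V.2) ≥ 1`.
Case 1: some `w ∈ W` has `dt w V = 0`. As `w` is primitive, `V = t • w` for an integer `t ≠ 0` (if `x w.1 + y w.2 = 1` then
`t = x V.1 + y V.2`). `G := g * t.natAbs`, new `g' := p * G`. Then `mon V - 1 ∣ mon (G w) - 1` up to a unit (for `t < 0`:
`mon V - 1 = - mon V * (mon (-V) - 1)`), `mon (g w) - 1 ∣ mon (G w) - 1` (`sub_one_dvd_pow_sub_one`, `mon_nsmul`), so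
`(mon V - 1) * (mon (g w) - 1) ∣ (mon (G w) - 1)^2 ∣ mon (p G w) - 1` (`sq_dvd`), and for the other `w' ∈ W`
`mon (g w') - 1 ∣ mon (p G w') - 1`. So `(mon V - 1) * Psi W g ∣ Psi W g'` (`Finset.mul_prod_erase`, `Finset.prod_dvd_prod_of_dvd`).
Case 2: no such `w`: `W' = insert w₀ W`, `g' = g * t`: `Dirs W'` (dt w w₀ ≠ 0 since t • w₀ = V; w₀ ∉ W), and
`mon V - 1 = mon (t w₀) - 1 ∣ mon (g' w₀) - 1`, `mon (g w') - 1 ∣ mon (g' w') - 1`.
-/

set_option autoImplicit false

namespace Pool.Agent.H97.NV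

private lemma merge_dvd_nat {F : Type} [Field F] (w : ℤ × ℤ) {a b : ℕ} (h : a ∣ b) :
    (mon ((a : ℤ) • w) - 1 : Lau F) ∣ mon ((b : ℤ) • w) - 1 := by
  obtain ⟨q, rfl⟩ := h
  have : (mon (((a * q : ℕ) : ℤ) • w) : Lau F) = mon ((a : ℤ) • w) ^ q := by
    rw [← mon_nsmul, smul_smul]; congr 2; push_cast; ring
  rw [this]
  exact sub_one_dvd_pow_sub_one _ _

private lemma merge_dvd_int {F : Type} [Field F] (w : ℤ × ℤ) (t : ℤ) {b : ℕ} (h : t.natAbs ∣ b) :
    (mon (t • w) - 1 : Lau F) ∣ mon ((b : ℤ) • w) - 1 := by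
  rcases Int.natAbs_eq t with ht | ht
  · rw [ht]
    exact merge_dvd_nat w h
  · refine Dvd.dvd.trans ?_ (merge_dvd_nat w h)
    refine ⟨-(mon ((t.natAbs : ℤ) • w)), ?_⟩
    have e : t • w = -((t.natAbs : ℤ) • w) := by
      nth_rewrite 1 [ht]
      rw [neg_smul]
    have e2 := mon_neg_mul (k := F) ((t.natAbs : ℤ) • w)
    rw [e, sub_mul, mul_neg, e2, one_mul]
    ring

private lemma merge_step {F : Type} [Field F] {p : ℕ} [Fact p.Prime] [CharP F p]
    {W : Finset (ℤ × ℤ)} {g : ℕ} (hg : 0 < g) (hW : Dirs W) {V : ℤ × ℤ} (hV : V ≠ 0) :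
    ∃ (W' : Finset (ℤ × ℤ)) (g' : ℕ), 0 < g' ∧ Dirs W' ∧
      (mon V - 1 : Lau F) * Psi F W g ∣ Psi F W' g' := by
  classical
  have hp : 0 < p := (Fact.out : p.Prime).pos
  by_cases hc : ∃ w ∈ W, dt w V = 0
  · obtain ⟨w, hw, hd⟩ := hc
    obtain ⟨x, y, hxy⟩ := hW.1 w hw
    have hd' : w.1 * V.2 = w.2 * V.1 := by
      simp only [dt] at hd; linarith
    set t : ℤ := x * V.1 + y * V.2 with ht
    have hVt : V = t • w := by
      ext
      · simp only [Prod.smul_fst, smul_eq_mul]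
        have : t * w.1 = V.1 := by
          rw [ht]
          calc (x * V.1 + y * V.2) * w.1 = x * w.1 * V.1 + y * (w.1 * V.2) := by ring
            _ = (x * w.1 + y * w.2) * V.1 := by rw [hd']; ring
            _ = V.1 := by rw [hxy, one_mul]
        exact this.symm
      · simp only [Prod.smul_snd, smul_eq_mul]
        have : t * w.2 = V.2 := by
          rw [ht]
          calc (x * V.1 + y * V.2) * w.2 = x * (w.2 * V.1) + y * w.2 * V.2 := by ring
            _ = (x * w.1 + y * w.2) * V.2 := by rw [← hd']; ring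
            _ = V.2 := by rw [hxy, one_mul]
        exact this.symm
    have ht0 : t ≠ 0 := by
      rintro h0
      apply hV
      rw [hVt, h0, zero_smul]
    have htn : 0 < t.natAbs := Int.natAbs_pos.mpr ht0
    refine ⟨W, p * (g * t.natAbs), Nat.mul_pos hp (Nat.mul_pos hg htn), hW, ?_⟩
    have h1 : (mon V - 1 : Lau F) ∣ mon (((g * t.natAbs : ℕ) : ℤ) • w) - 1 := by
      rw [hVt]
      exact merge_dvd_int w t (Dvd.intro_left g rfl)
    have h2 : (mon ((g : ℤ) • w) - 1 : Lau F) ∣ mon (((g * t.natAbs : ℕ) : ℤ) • w) - 1 :=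
      merge_dvd_nat w (Dvd.intro _ rfl)
    have h3 : (mon V - 1 : Lau F) * (mon ((g : ℤ) • w) - 1) ∣
        mon (((p * (g * t.natAbs) : ℕ) : ℤ) • w) - 1 := by
      refine (mul_dvd_mul h1 h2).trans ?_
      rw [← sq]
      refine (sq_dvd (F := F) p _).trans ?_
      rw [smul_smul, ← Nat.cast_mul]
    rw [Psi, Psi, ← Finset.mul_prod_erase W _ hw, ← Finset.mul_prod_erase W _ hw, ← mul_assoc]
    refine mul_dvd_mul h3 (Finset.prod_dvd_prod_of_dvd _ _ fun w' _ => ?_)
    exact merge_dvd_nat w' ⟨p * t.natAbs, by ring⟩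
  · push Not at hc
    have hgcd : 0 < Int.gcd V.1 V.2 := by
      rw [Nat.pos_iff_ne_zero]
      intro h0
      apply hV
      rw [Int.gcd_eq_zero_iff] at h0
      exact Prod.ext h0.1 h0.2
    obtain ⟨a, b, hab, ha, hb⟩ := Int.exists_gcd_one hgcd
    set t : ℕ := Int.gcd V.1 V.2 with ht
    have hVt : V = (t : ℤ) • ((a, b) : ℤ × ℤ) := by
      ext
      · simp only [Prod.smul_fst, smul_eq_mul]
        rw [mul_comm]; exact ha
      · simp only [Prod.smul_snd, smul_eq_mul]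
        rw [mul_comm]; exact hb
    have hdt : ∀ w ∈ W, dt w (a, b) ≠ 0 := by
      intro w hw h0
      apply hc w hw
      rw [hVt]
      simp only [dt, Prod.smul_fst, Prod.smul_snd, smul_eq_mul] at h0 ⊢
      linear_combination (t : ℤ) * h0
    have hnot : ((a, b) : ℤ × ℤ) ∉ W := by
      intro hmem
      apply hdt _ hmem
      simp only [dt]; ring
    refine ⟨insert (a, b) W, g * t, Nat.mul_pos hg hgcd, ⟨?_, ?_⟩, ?_⟩
    · intro w hw
      rcases Finset.mem_insert.1 hw with rfl | hw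
      · exact Int.isCoprime_iff_gcd_eq_one.mpr hab
      · exact hW.1 w hw
    · intro w hw w' hw' hne
      rcases Finset.mem_insert.1 hw with rfl | hw
      · rcases Finset.mem_insert.1 hw' with rfl | hw'
        · exact absurd rfl hne
        · intro h0
          apply hdt w' hw'
          simp only [dt] at h0 ⊢
          linarith
      · rcases Finset.mem_insert.1 hw' with rfl | hw'
        · exact hdt w hw
        · exact hW.2 w hw w' hw' hne
    · rw [Psi, Psi, Finset.prod_insert hnot]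
      refine mul_dvd_mul ?_ (Finset.prod_dvd_prod_of_dvd _ _ fun w' _ => ?_)
      · nth_rewrite 1 [hVt]
        exact merge_dvd_nat _ (Dvd.intro_left g rfl)
      · exact merge_dvd_nat w' (Dvd.intro _ rfl)

theorem merge (F : Type) [Field F] (p : ℕ) [Fact p.Prime] [CharP F p] (L : List (ℤ × ℤ))
    (hL : ∀ V ∈ L, V ≠ 0) :
    ∃ (W : Finset (ℤ × ℤ)) (g : ℕ), 0 < g ∧ Dirs W ∧
      (L.map fun V => (mon V - 1 : Lau F)).prod ∣ Psi F W g := by
  induction L with
  | nil =>
    refine ⟨∅, 1, one_pos, ⟨by simp, by simp⟩, ?_⟩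
    simp
  | cons V L ih =>
    obtain ⟨W, g, hg, hW, hdvd⟩ := ih fun U hU => hL U (List.mem_cons_of_mem _ hU)
    obtain ⟨W', g', hg', hW', hdvd'⟩ := merge_step (F := F) (p := p) hg hW
      (hL V (List.mem_cons_self))
    refine ⟨W', g', hg', hW', ?_⟩
    rw [List.map_cons, List.prod_cons]
    exact (mul_dvd_mul_left _ hdvd).trans hdvd'

end Pool.Agent.H97.NV
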