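import Pool.Agent.H97.NV.Basic

/-!
Nivat, module RedMod. PROOF. By induction on `L` (for all `c`) : for `c' := (mon V - 1) ⋆ c` the reduction of `c'` is
`(mon V - 1) ⋆ (reduction of c)` (`sub_ac`, `mon_ac`, `one_ac`); `List.prod_cons`, `mul_ac`; so one shows in general
`(L.map ..).prod ⋆ (red c) = red ((L.map ..).prod ⋆ c)`.
-/

set_option autoImplicit false

namespace Pool.Agent.H97.NV

private lemma RedMod_gen (p : ℕ) (c : ℤ × ℤ → ℤ) (L : List (ℤ × ℤ)) :
    ac ((L.map fun V => (mon V - 1 : Lau (ZMod p))).prod) (fun z => ((c z : ℤ) : ZMod p)) =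
      fun z => (((ac ((L.map fun V => (mon V - 1 : Lau ℤ)).prod) c) z : ℤ) : ZMod p) := by
  induction L with
  | nil =>
    rw [List.map_nil, List.prod_nil, one_ac, List.map_nil, List.prod_nil, one_ac]
  | cons V L ih =>
    rw [List.map_cons, List.prod_cons, mul_ac, ih, List.map_cons, List.prod_cons, mul_ac]
    funext z
    rw [sub_ac, one_ac, sub_ac, one_ac, Pi.sub_apply, Pi.sub_apply, mon_ac, mon_ac, Int.cast_sub]

theorem reduce_mod (p : ℕ) (c : ℤ × ℤ → ℤ) (L : List (ℤ × ℤ))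
    (h : ac ((L.map fun V => (mon V - 1 : Lau ℤ)).prod) c = 0) :
    ac ((L.map fun V => (mon V - 1 : Lau (ZMod p))).prod) (fun z => ((c z : ℤ) : ZMod p)) = 0 := by
  rw [RedMod_gen, h]
  funext z
  simp

end Pool.Agent.H97.NV
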