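import Pool.Agent.H97.NV.ProdAnn
import Pool.Agent.H97.NV.RedMod
import Pool.Agent.H97.NV.Merge
import Pool.Agent.H97.NV.Core

/-!
Nivat, module Final (helper97): Nivat's conjecture from the theorem over a finite field.
-/

set_option autoImplicit false

namespace Pool.Agent.H97.NV

/-- Nivat's conjecture, block form. -/
theorem nivat (A : Type) [Finite A] (x : ℤ × ℤ → A) (n m : ℕ)
    (hP : (Set.range (blk x n m)).ncard ≤ n * m) :
    ∃ v : ℤ × ℤ, v ≠ 0 ∧ ∀ z : ℤ × ℤ, x (z + v) = x z := by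
  classical
  have := Fintype.ofFinite A
  obtain ⟨p, hcard, hp⟩ := Nat.exists_infinite_primes (Fintype.card A)
  have : Fact p.Prime := ⟨hp⟩
  let e : A ≃ Fin (Fintype.card A) := Fintype.equivFin A
  let c : ℤ × ℤ → ℤ := fun z => ((e (x z) : ℕ) : ℤ)
  have hfinx : (Set.range (blk x n m)).Finite := Set.toFinite _
  -- blocks of `c`
  have hblk : Set.range (blk c n m) =
      (fun B : Fin n × Fin m → A => fun q => ((e (B q) : ℕ) : ℤ)) '' Set.range (blk x n m) := by
    ext B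
    constructor
    · rintro ⟨z, rfl⟩
      exact ⟨_, ⟨z, rfl⟩, rfl⟩
    · rintro ⟨_, ⟨z, rfl⟩, rfl⟩
      exact ⟨z, rfl⟩
  have hfin : (Set.range (blk c n m)).Finite := by rw [hblk]; exact hfinx.image _
  have hPc : (Set.range (blk c n m)).ncard ≤ n * m := by
    rw [hblk]; exact (Set.ncard_image_le hfinx).trans hP
  have hc : (Set.range c).Finite := by
    have : Set.range c ⊆ (fun a : A => ((e a : ℕ) : ℤ)) '' Set.univ := by
      rintro _ ⟨z, rfl⟩
      exact ⟨x z, trivial, rfl⟩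
    exact (Set.finite_univ.image _).subset this
  obtain ⟨L, hL, hLc⟩ := product_annihilator c n m hc hfin hPc
  have hred := reduce_mod p c L hLc
  obtain ⟨W, g, hg, hW, q, hq⟩ := merge (ZMod p) p L hL
  let c' : ℤ × ℤ → ZMod p := fun z => ((c z : ℤ) : ZMod p)
  have hΨ : ac (Psi (ZMod p) W g) c' = 0 := by
    rw [hq, mul_comm, mul_ac, hred, ac_zero]
  have hblk' : Set.range (blk c' n m) =
      (fun B : Fin n × Fin m → A => fun q => ((((e (B q) : ℕ) : ℤ)) : ZMod p)) ''
        Set.range (blk x n m) := by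
    ext B
    constructor
    · rintro ⟨z, rfl⟩
      exact ⟨_, ⟨z, rfl⟩, rfl⟩
    · rintro ⟨_, ⟨z, rfl⟩, rfl⟩
      exact ⟨z, rfl⟩
  have hPc' : (Set.range (blk c' n m)).ncard ≤ n * m := by
    rw [hblk']; exact (Set.ncard_image_le hfinx).trans hP
  obtain ⟨v, hv0, hv⟩ := core (ZMod p) p W g hg hW c' hΨ n m hPc'
  refine ⟨v, hv0, fun z => ?_⟩
  have h := hv z
  simp only [c', c, Int.cast_natCast] at h
  rw [ZMod.natCast_eq_natCast_iff'] at h
  have l1 : (e (x (z + v)) : ℕ) < p := lt_of_lt_of_le (e (x (z + v))).2 hcard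
  have l2 : (e (x z) : ℕ) < p := lt_of_lt_of_le (e (x z)).2 hcard
  rw [Nat.mod_eq_of_lt l1, Nat.mod_eq_of_lt l2] at h
  exact e.injective (Fin.ext h)

end Pool.Agent.H97.NV
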