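import Pool.Agent.H97.NV.Basic

/-!
Nivat, module IntMul. PROOF. Let `ι : ℤ × ℤ →+ ℤ × ℤ`, `ι v = v.1 • V₁ + v.2 • V₂` (injective as `dt V₁ V₂ ≠ 0`), and
`R' := Lau F` with the ring morphism `mapDomainRingHom/mapDomainAlgHom ι : R' → Lau F` (injective). `Lau F` is integral over `R'`: for every `v`,
`(mon v) ^ δ = mon (δ • v)` with `δ = |dt V₁ V₂| ≥ 1` is in the image, because `(dt V₁ V₂) • v = (dt v V₂) • V₁ + (dt V₁ v) • V₂`; integral
elements are closed under sums and scalar multiples, so every `H` is integral over `R'` (`RingHom.IsIntegralElem`, or `IsIntegral` after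
`letI := (..).toAlgebra`). Then `Ideal.comap_ne_bot_of_integral_mem` (for the ideal `span {H}` of the domain `Lau F`) gives `K ≠ 0` with
`image of K ∈ span {H}`. (By hand: a polynomial relation `a₀ + a₁ H + .. + Hⁿ = 0` over `R'` of minimal degree has `a₀ ≠ 0`, `a₀ = -H * (..)`.)
-/

set_option autoImplicit false

namespace Pool.Agent.H97.NV

open Polynomial

private theorem IntMul_poly {R S : Type} [CommRing R] [CommRing S] [IsDomain S] (φ : R →+* S)
    (H : S) (hH : H ≠ 0) : ∀ (n : ℕ) (p : R[X]), p.natDegree ≤ n → p ≠ 0 → p.eval₂ φ H = 0 →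
      ∃ (Q : S) (K : R), K ≠ 0 ∧ Q * H = φ K := by
  intro n
  induction n with
  | zero =>
    intro p hn hp h0
    rw [Polynomial.eq_C_of_natDegree_le_zero hn] at h0 hp
    rw [Polynomial.eval₂_C] at h0
    refine ⟨0, p.coeff 0, ?_, by rw [zero_mul, h0]⟩
    intro h
    exact hp (by rw [h, Polynomial.C_0])
  | succ n ih =>
    intro p hn hp h0
    have hdiv := Polynomial.divX_mul_X_add p
    by_cases hc : p.coeff 0 = 0
    · rw [hc, Polynomial.C_0, add_zero] at hdiv
      rw [← hdiv, Polynomial.eval₂_mul_X] at h0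
      have h1 := (mul_eq_zero.mp h0).resolve_right hH
      refine ih p.divX ?_ ?_ h1
      · have := Polynomial.natDegree_divX_eq_natDegree_tsub_one (p := p)
        omega
      · intro h
        apply hp
        rw [← hdiv, h, zero_mul]
    · refine ⟨-(p.divX.eval₂ φ H), p.coeff 0, hc, ?_⟩
      rw [← hdiv, Polynomial.eval₂_add, Polynomial.eval₂_mul_X, Polynomial.eval₂_C] at h0
      linear_combination -h0

theorem exists_multiple {F : Type} [Field F] (V₁ V₂ : ℤ × ℤ) (hdet : dt V₁ V₂ ≠ 0) (H : Lau F)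
    (hH : H ≠ 0) :
    ∃ Q K : Lau F, K ≠ 0 ∧
      Q * H = AddMonoidAlgebra.mapDomain (fun v : ℤ × ℤ => v.1 • V₁ + v.2 • V₂) K := by
  classical
  let ι : ℤ × ℤ →+ ℤ × ℤ :=
    { toFun := fun v => v.1 • V₁ + v.2 • V₂
      map_zero' := by simp
      map_add' := fun v w => by
        simp only [Prod.fst_add, Prod.snd_add, add_smul]
        abel }
  let φ : Lau F →+* Lau F := AddMonoidAlgebra.mapDomainRingHom F ι
  have hφ : ∀ K : Lau F, φ K =
      AddMonoidAlgebra.mapDomain (fun v : ℤ × ℤ => v.1 • V₁ + v.2 • V₂) K := fun K => rfl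
  have hmon : ∀ v : ℤ × ℤ, φ.IsIntegralElem (mon v : Lau F) := by
    intro v
    -- a positive multiple of `v` is in the image of `ι`
    obtain ⟨ε, hε⟩ : ∃ ε : ℤ, ((dt V₁ V₂).natAbs : ℤ) = ε * dt V₁ V₂ := by
      rcases Int.natAbs_eq (dt V₁ V₂) with h | h
      · exact ⟨1, by rw [← h]; ring⟩
      · exact ⟨-1, by rw [h]; simp⟩
    have e : ((dt V₁ V₂).natAbs : ℤ) • v = ι (ε * dt v V₂, ε * dt V₁ v) := by
      change _ = (ε * dt v V₂) • V₁ + (ε * dt V₁ v) • V₂
      rw [hε]
      ext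
      · simp only [Prod.smul_fst, Prod.fst_add, smul_eq_mul, dt]; ring
      · simp only [Prod.smul_snd, Prod.snd_add, smul_eq_mul, dt]; ring
    have hpos : (dt V₁ V₂).natAbs ≠ 0 := Int.natAbs_ne_zero.mpr hdet
    refine ⟨X ^ (dt V₁ V₂).natAbs - C (mon (ε * dt v V₂, ε * dt V₁ v)),
      Polynomial.monic_X_pow_sub_C _ hpos, ?_⟩
    rw [Polynomial.eval₂_sub, Polynomial.eval₂_X_pow, Polynomial.eval₂_C, ← mon_nsmul, e, sub_eq_zero]
    change _ = AddMonoidAlgebra.mapDomain ι (AddMonoidAlgebra.single _ 1)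
    rw [AddMonoidAlgebra.mapDomain_single]
    rfl
  have hsingle : ∀ (v : ℤ × ℤ) (a : F), φ.IsIntegralElem (AddMonoidAlgebra.single v a : Lau F) := by
    intro v a
    have e : (AddMonoidAlgebra.single v a : Lau F) =
        φ (AddMonoidAlgebra.single 0 a) * mon v := by
      change _ = AddMonoidAlgebra.mapDomain ι (AddMonoidAlgebra.single 0 a) * mon v
      rw [AddMonoidAlgebra.mapDomain_single, map_zero, mon, AddMonoidAlgebra.single_mul_single,
        zero_add, mul_one]
    rw [e]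
    exact RingHom.IsIntegralElem.mul φ (RingHom.isIntegralElem_map φ) (hmon v)
  have hall : φ.IsIntegralElem H := by
    rw [← AddMonoidAlgebra.sum_coeff_single H, Finsupp.sum]
    refine Finset.sum_induction _ (fun x => φ.IsIntegralElem x)
      (fun a b ha hb => RingHom.IsIntegralElem.add φ ha hb) (RingHom.isIntegralElem_zero φ)
      (fun v _ => hsingle v _)
  obtain ⟨p, hp, h0⟩ := hall
  obtain ⟨Q, K, hK, hQ⟩ := IntMul_poly φ H hH p.natDegree p le_rfl hp.ne_zero h0
  exact ⟨Q, K, hK, by rw [hQ, hφ]⟩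

end Pool.Agent.H97.NV
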