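import Pool.Agent.H97.NV.Basic

/-!
Nivat, module LiveEx. PROOF. Suppose all `t ↦ c (z + t • w)` are periodic, with period `T z > 0`. Let
`Λ = ℤ v + ℤ w`, `δ = |dt v w|`, so `δ • ℤ² ⊆ Λ` : every `z` can be written `z = ρ + a • v + b • w` with `ρ ∈ R := {0..δ-1}²`
(first `z = ρ + δ • y`, and `δ • y = ± (dt y w) • v ± (dt v y) • w`). `c (z + t • w) = c (ρ + (b + t) • w)` (`per_mul` for `v`), so `T₀ := ∏ ρ ∈ R, T ρ` is a
period of all lines: `c (z + T₀ • w) = c z` for all `z`: `Per w c`. With `Per v c`: `Dbl c` (`Dbl.of_per`). Contradiction.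
-/

set_option autoImplicit false

namespace Pool.Agent.H97.NV

private theorem LiveEx_mul {F : Type} {u : ℤ → F} {T : ℕ} (h : ∀ t : ℤ, u (t + (T : ℤ)) = u t)
    (a : ℕ) : ∀ t : ℤ, u (t + ((T * a : ℕ) : ℤ)) = u t := by
  induction a with
  | zero => intro t; simp
  | succ n ih =>
    intro t
    have e : t + ((T * (n + 1) : ℕ) : ℤ) = (t + ((T * n : ℕ) : ℤ)) + (T : ℤ) := by
      push_cast
      ring
    rw [e, h, ih]

theorem exists_live {F : Type} [Field F] (c : ℤ × ℤ → F) (v w : ℤ × ℤ) (hvw : dt v w ≠ 0)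
    (hv : ∀ z, c (z + v) = c z) (hD : ¬ Dbl c) :
    ∃ z : ℤ × ℤ, ¬ SPer (fun t : ℤ => c (z + t • w)) := by
  by_contra hcon
  push Not at hcon
  apply hD
  have hvm : ∀ (a : ℤ) (z : ℤ × ℤ), c (z + a • v) = c z := by
    intro a z
    have h := per_mul (w := v) (c := c) (T := 1) (fun z => by rw [one_smul]; exact hv z) a z
    rwa [mul_one] at h
  choose T hT hT' using hcon
  set δ : ℤ := dt v w with hδ
  let R : Finset (ℤ × ℤ) := Finset.Ico 0 |δ| ×ˢ Finset.Ico 0 |δ|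
  have hδ0 : 0 < |δ| := abs_pos.mpr hvw
  refine Dbl.of_per hvw ⟨1, one_pos, fun z => by rw [Nat.cast_one, one_smul]; exact hv z⟩
    ⟨∏ ρ ∈ R, T ρ, Finset.prod_pos fun ρ _ => hT ρ, fun z => ?_⟩
  -- representative
  set ρ : ℤ × ℤ := (z.1 % δ, z.2 % δ) with hρ
  have hρR : ρ ∈ R := by
    simp only [R, hρ, Finset.mem_product, Finset.mem_Ico]
    exact ⟨⟨Int.emod_nonneg _ hvw, Int.emod_lt_abs _ hvw⟩,
      ⟨Int.emod_nonneg _ hvw, Int.emod_lt_abs _ hvw⟩⟩
  set y : ℤ × ℤ := (z.1 / δ, z.2 / δ) with hy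
  have hz1 : z.1 = z.1 % δ + δ * (z.1 / δ) := (Int.emod_add_mul_ediv z.1 δ).symm
  have hz2 : z.2 = z.2 % δ + δ * (z.2 / δ) := (Int.emod_add_mul_ediv z.2 δ).symm
  have hdec : z = ρ + (dt v y) • w + (dt y w) • v := by
    have h1 : z.1 = z.1 % δ + (dt v y) * w.1 + (dt y w) * v.1 := by
      have h : (dt v y) * w.1 + (dt y w) * v.1 = δ * (z.1 / δ) := by
        simp only [dt, hy, hδ]
        ring
      rw [add_assoc, h]
      exact hz1
    have h2 : z.2 = z.2 % δ + (dt v y) * w.2 + (dt y w) * v.2 := by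
      have h : (dt v y) * w.2 + (dt y w) * v.2 = δ * (z.2 / δ) := by
        simp only [dt, hy, hδ]
        ring
      rw [add_assoc, h]
      exact hz2
    exact Prod.ext h1 h2
  have hline : ∀ t : ℤ, c (z + t • w) = c (ρ + (dt v y + t) • w) := by
    intro t
    have e : z + t • w = (ρ + (dt v y + t) • w) + (dt y w) • v := by
      rw [add_smul]
      nth_rewrite 1 [hdec]
      abel
    rw [e, hvm]
  have hdvd : T ρ ∣ ∏ ρ ∈ R, T ρ := Finset.dvd_prod_of_mem T hρR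
  obtain ⟨a, ha⟩ := hdvd
  have h0 : c z = c (ρ + (dt v y) • w) := by
    have h := hline 0
    rwa [zero_smul, add_zero, add_zero] at h
  rw [hline, h0, ha]
  exact LiveEx_mul (u := fun t : ℤ => c (ρ + t • w)) (hT' ρ) a (dt v y)

end Pool.Agent.H97.NV
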