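import Pool.Agent.H97.NV.DilAc

/-!
Nivat, module Vander. PROOF. Let `v₁, .., v_s` be the support of `f` (`s ≥ 1`; use an enumeration
`e : Fin s ≃ f.coeff.support`). For `i : Fin s`: `dil (1 + i r) f = ∑ j, single ((1 + i r) • v_j) (f v_j)
= ∑ j, (mon (r • v_j)) ^ i * single v_j (f v_j)`. So with `y_j := mon (r • v_j) : Lau ℤ` and `x_j := single v_j (f v_j) ⋆ c` we
have `∑ j, (y_j ^ i) ⋆ x_j = 0` for `i < s`. Multiply with the adjugate of the Vandermonde matrix
(`Matrix.vandermonde y`, entries `y_j ^ i`; transposed): `Matrix.adjugate_mul`/`mul_adjugate` gives for every `j`: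
`det ⋆ x_j = 0`, `det = ∏_{i<j} (y_j - y_i)` (`Matrix.det_vandermonde`). `x_j` = `f v_j • (mon v_j ⋆ c)`, `f v_j ≠ 0` an integer and
`mon v_j` invertible, so `(∏_{i<j} (y_j - y_i)) ⋆ c = 0`. Finally `y_j - y_i = y_i * (mon (r • (v_j - v_i)) - 1)`, and the
monomials `y_i` are units: `L :=` the list of the `r • (v_j - v_i)`, `i < j` (nonzero as `v_i ≠ v_j`, `r > 0`).
(An elementary alternative without determinants: elimination of one term after the other: if
`∑_{j<s} (y_j^i) ⋆ x_j = 0` for all `i : ℕ`, subtract `y_s ⋆` (relation i) from relation `i+1`; so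
`∑_{j<s-1} (y_j^i) ⋆ ((y_j - y_{s-1}) ⋆ x_j) = 0` for all i; induct on the number of terms; keep the last x.)
-/

set_option autoImplicit false

namespace Pool.Agent.H97.NV

private lemma Vander_elim (r : ℤ) (v0 : ℤ × ℤ) (t : Finset (ℤ × ℤ)) :
    ∀ (x0 : ℤ × ℤ → ℤ) (x : ℤ × ℤ → (ℤ × ℤ → ℤ)),
      (∀ i : ℕ, (ac ((mon (r • v0) : Lau ℤ) ^ i) x0) +
        ∑ v ∈ t, (ac ((mon (r • v) : Lau ℤ) ^ i) (x v)) = 0) →
      ac (∏ v ∈ t, (mon (r • v0) - mon (r • v) : Lau ℤ)) x0 = 0 := by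
  induction t using Finset.induction_on with
  | empty =>
    intro x0 x h
    have h0 := h 0
    rw [Finset.sum_empty, add_zero, pow_zero, one_ac] at h0
    rw [Finset.prod_empty, one_ac, h0]
  | insert a t ha ih =>
    intro x0 x h
    have key := ih (ac (mon (r • v0) - mon (r • a) : Lau ℤ) x0)
      (fun v => ac (mon (r • v) - mon (r • a) : Lau ℤ) (x v)) ?_
    · rw [Finset.prod_insert ha, mul_comm, mul_ac]
      exact key
    · intro i
      have h1 := h (i + 1)
      have h2 := congrArg (fun y => ac (mon (r • a) : Lau ℤ) y) (h i)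
      rw [ac_zero, ac_add, Finset.sum_insert ha, ac_add] at h2
      rw [Finset.sum_insert ha] at h1
      have e : ∀ (u : Lau ℤ) (y : ℤ × ℤ → ℤ),
          ac (u ^ i) (ac (u - mon (r • a) : Lau ℤ) y) =
            (ac (u ^ (i + 1)) y) - ac (mon (r • a) : Lau ℤ) (ac (u ^ i) y) := by
        intro u y
        rw [← mul_ac, ← mul_ac, ← sub_ac]
        congr 1
        ring
      have e2 : (ac ((mon (r • a) : Lau ℤ) ^ (i + 1)) (x a)) =
          ac (mon (r • a) : Lau ℤ) (ac ((mon (r • a) : Lau ℤ) ^ i) (x a)) := by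
        rw [← mul_ac]
        congr 1
        ring
      have e3 : ac (mon (r • a) : Lau ℤ) (∑ v ∈ t, (ac ((mon (r • v) : Lau ℤ) ^ i) (x v))) =
          ∑ v ∈ t, ac (mon (r • a) : Lau ℤ) (ac ((mon (r • v) : Lau ℤ) ^ i) (x v)) := by
        simp only [ac, map_sum]
      rw [e3] at h2
      rw [e]
      simp only [e]
      rw [Finset.sum_sub_distrib]
      rw [e2] at h1
      have h3 := congrArg₂ (fun a b => a - b) h1 h2
      rw [sub_zero] at h3
      rw [← h3]
      abel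

theorem vander (f : Lau ℤ) (hf : f ≠ 0) (c : ℤ × ℤ → ℤ) (r : ℕ) (hr : 0 < r)
    (h : ∀ i : ℕ, ac (dil ((1 + i * r : ℕ) : ℤ) f) c = 0) :
    ∃ L : List (ℤ × ℤ), (∀ V ∈ L, V ≠ 0) ∧
      ac ((L.map fun V => (mon V - 1 : Lau ℤ)).prod) c = 0 := by
  classical
  obtain ⟨v0, hv0⟩ : f.coeff.support.Nonempty := by
    rw [Finset.nonempty_iff_ne_empty]
    intro he
    apply hf
    have h1 : f.coeff = 0 := Finsupp.support_eq_empty.1 he
    have h2 := AddMonoidAlgebra.sum_coeff_single f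
    rw [h1] at h2
    rw [← h2]
    simp
  set s := f.coeff.support.erase v0 with hs
  have hrel : ∀ i : ℕ, (ac ((mon ((r : ℤ) • v0) : Lau ℤ) ^ i) (fun z => f.coeff v0 * c (z + v0))) +
      ∑ v ∈ s, (ac ((mon ((r : ℤ) • v) : Lau ℤ) ^ i) (fun z => f.coeff v * c (z + v))) = 0 := by
    intro i
    have h1 : ∀ v : ℤ × ℤ, (ac ((mon ((r : ℤ) • v) : Lau ℤ) ^ i) (fun z => f.coeff v * c (z + v))) =
        fun z => f.coeff v * c (z + ((1 + i * r : ℕ) : ℤ) • v) := by
      intro v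
      funext z
      rw [← mon_nsmul, mon_ac]
      congr 2
      rw [smul_smul]
      push_cast
      rw [add_smul, one_smul]
      abel
    rw [h1, Finset.sum_congr rfl (fun v _ => h1 v)]
    funext z
    have h2 := congrFun (h i) z
    rw [dil_ac, ← Finset.add_sum_erase _ _ hv0] at h2
    rw [Pi.add_apply, Finset.sum_apply]
    exact h2
  have key := Vander_elim (r : ℤ) v0 s _ _ hrel
  have hfac : (∏ v ∈ s, (mon ((r : ℤ) • v0) - mon ((r : ℤ) • v) : Lau ℤ)) =
      (∏ v ∈ s, (mon ((r : ℤ) • v) : Lau ℤ)) * ∏ v ∈ s, (mon ((r : ℤ) • (v0 - v)) - 1 : Lau ℤ) := by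
    rw [← Finset.prod_mul_distrib]
    refine Finset.prod_congr rfl fun v _ => ?_
    rw [mul_sub, mul_one, ← mon_add]
    congr 2
    rw [← smul_add]
    congr 1
    abel
  have hunit : IsUnit (∏ v ∈ s, (mon ((r : ℤ) • v) : Lau ℤ)) := by
    refine Finset.prod_induction _ IsUnit (fun a b ha hb => ha.mul hb) isUnit_one ?_
    intro v _
    exact isUnit_mon _
  obtain ⟨u, hu⟩ := hunit
  rw [hfac, mul_ac] at key
  have key2 : ac (∏ v ∈ s, (mon ((r : ℤ) • (v0 - v)) - 1 : Lau ℤ))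
      (fun z => f.coeff v0 * c (z + v0)) = 0 := by
    have h1 := congrArg (fun y => ac ((↑u⁻¹ : Lau ℤ)) y) key
    rw [← mul_ac, ← hu, Units.inv_mul, one_ac, ac_zero] at h1
    exact h1
  refine ⟨s.toList.map (fun v => (r : ℤ) • (v0 - v)), ?_, ?_⟩
  · intro V hV
    obtain ⟨v, hv, rfl⟩ := List.mem_map.1 hV
    rw [Finset.mem_toList, hs, Finset.mem_erase] at hv
    intro h0
    rcases smul_eq_zero.1 h0 with h1 | h1
    · omega
    · exact hv.1 (sub_eq_zero.1 h1).symm
  · have hprod : ((s.toList.map (fun v => (r : ℤ) • (v0 - v))).map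
        fun V => (mon V - 1 : Lau ℤ)).prod = ∏ v ∈ s, (mon ((r : ℤ) • (v0 - v)) - 1 : Lau ℤ) := by
      rw [List.map_map, ← Finset.prod_map_toList]
      rfl
    rw [hprod]
    have hx : (fun z => f.coeff v0 * c (z + v0)) =
        f.coeff v0 • (ac (mon v0 : Lau ℤ) c) := by
      funext z
      rw [Pi.smul_apply, mon_ac, smul_eq_mul]
    rw [hx, ac_smul, ac_comm] at key2
    funext z
    have h3 := congrFun key2 (z - v0)
    rw [Pi.smul_apply, mon_ac, sub_add_cancel, smul_eq_mul] at h3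
    rcases mul_eq_zero.1 h3 with h4 | h4
    · exact absurd h4 (Finsupp.mem_support_iff.1 hv0)
    · exact h4

end Pool.Agent.H97.NV
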