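import Pool.Agent.H97.NV.Annih
import Pool.Agent.H97.NV.DilKill
import Pool.Agent.H97.NV.Vander

/-!
Nivat, module ProdAnn (helper97): low complexity gives an annihilator `∏ (X^V - 1)` over `ℤ`.
-/

set_option autoImplicit false

namespace Pool.Agent.H97.NV

theorem product_annihilator (c : ℤ × ℤ → ℤ) (n m : ℕ) (hc : (Set.range c).Finite)
    (hfin : (Set.range (blk c n m)).Finite)
    (hP : (Set.range (blk c n m)).ncard ≤ n * m) :
    ∃ L : List (ℤ × ℤ), (∀ V ∈ L, V ≠ 0) ∧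
      ac ((L.map fun V => (mon V - 1 : Lau ℤ)).prod) c = 0 := by
  obtain ⟨f, hf0, hf⟩ := exists_annihilator c n m hfin hP
  obtain ⟨M, hM⟩ : ∃ M : ℤ, ∀ z, |c z| ≤ M := by
    have : ((fun x : ℤ => |x|) '' Set.range c).Finite := hc.image _
    obtain ⟨M, hM⟩ := this.bddAbove
    exact ⟨M, fun z => hM ⟨c z, ⟨z, rfl⟩, rfl⟩⟩
  obtain ⟨r, hr, hk⟩ := dil_kill f c M hM hf
  exact vander f hf0 c r hr hk

end Pool.Agent.H97.NV
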