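import Pool.Agent.H97.NV.Ev2
import Pool.Agent.H97.NV.Fact1

/-!
Nivat, module ResStep. PROOF. `K := AdjoinRoot π` is a field (`Fact (Irreducible π)`), finite (`F` finite and `π ≠ 0`).
`Polynomial.map (AdjoinRoot.mk π) : F[X][X] → K[X]` is surjective (`Polynomial.map_surjective`) with kernel `C π * F[X][X]`
(coefficientwise: `AdjoinRoot.mk_eq_zero`, `Polynomial.C_dvd_iff_dvd_coeff`). `G' := G.map (mk π) ≠ 0` since some coefficient of `G` is not
divisible by `π`. Write `G' = X ^ s * a` with `a.coeff 0 ≠ 0` (`Polynomial.exists_eq_pow_rootMultiplicity_mul_and_not_dvd` at 0, or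
`natTrailingDegree`). `exists_dvd_X_pow_sub_one K a`: `X ^ m - 1 = a * q`. So `X^s * (X^m - 1) = G' * q`; lift `q` to `Q`:
`G * Q - X^s * (X^m - 1) = C π * E`. Apply the ring morphism `ev2 w w'` and let it act on `b`:
`mon (s • w') ⋆ ((mon (m • w') - 1) ⋆ b) = ev2 Q ⋆ (ev2 G ⋆ b) - ev2 E ⋆ (ev w π ⋆ b)` is `Dbl` (`Dbl.ac`, `Dbl.sub`), and
`mon (-(s • w')) ⋆ ·` gives the claim (`mon_neg_mul`). (`π.coeff 0 ≠ 0` is not needed.)
-/

set_option autoImplicit false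

namespace Pool.Agent.H97.NV

open Polynomial

private theorem resStep_finite {F : Type} [Field F] [Finite F] (π : F[X])
    (hπ : π ≠ 0) : Finite (AdjoinRoot π) := by
  have : Module.Finite F (AdjoinRoot π) := (AdjoinRoot.powerBasis hπ).finite
  exact Module.finite_of_finite F

private theorem resStep_lift {F : Type} [Field F] [Finite F] (π : F[X]) (hπ : Irreducible π)
    (G : F[X][X]) (j : ℕ) (hj : ¬ π ∣ G.coeff j) :
    ∃ (m s : ℕ) (Q E : F[X][X]), 0 < m ∧ G * Q - X ^ s * (X ^ m - 1) = C π * E := by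
  have : Fact (Irreducible π) := ⟨hπ⟩
  have : Finite (AdjoinRoot π) := resStep_finite π hπ.ne_zero
  have hG' : G.map (AdjoinRoot.mk π) ≠ 0 := by
    intro h
    apply hj
    rw [← AdjoinRoot.mk_eq_zero, ← Polynomial.coeff_map, h, Polynomial.coeff_zero]
  obtain ⟨a, ha, ha0⟩ :=
    Polynomial.exists_eq_pow_rootMultiplicity_mul_and_not_dvd (G.map (AdjoinRoot.mk π)) hG' 0
  rw [C_0, sub_zero] at ha ha0
  rw [X_dvd_iff] at ha0
  obtain ⟨m, hm, q, hq⟩ := exists_dvd_X_pow_sub_one (AdjoinRoot π) a ha0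
  obtain ⟨Q, hQ⟩ := Polynomial.map_surjective (AdjoinRoot.mk π) AdjoinRoot.mk_surjective q
  set s := (G.map (AdjoinRoot.mk π)).rootMultiplicity 0 with hs
  have hz : (G * Q - X ^ s * (X ^ m - 1)).map (AdjoinRoot.mk π) = 0 := by
    rw [Polynomial.map_sub, Polynomial.map_mul, Polynomial.map_mul, Polynomial.map_pow,
      Polynomial.map_sub, Polynomial.map_pow, Polynomial.map_one, Polynomial.map_X, hQ, ha, hq]
    ring
  have hdvd : C π ∣ G * Q - X ^ s * (X ^ m - 1) := by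
    rw [Polynomial.C_dvd_iff_dvd_coeff]
    intro i
    rw [← AdjoinRoot.mk_eq_zero, ← Polynomial.coeff_map, hz, Polynomial.coeff_zero]
  obtain ⟨E, hE⟩ := hdvd
  exact ⟨m, s, Q, E, hm, hE⟩

theorem res_step {F : Type} [Field F] [Finite F] (w w' : ℤ × ℤ) (π : F[X]) (hπ : Irreducible π)
    (b : ℤ × ℤ → F) (h1 : Dbl (ac (ev w π) b)) (G : F[X][X]) (j : ℕ) (hj : ¬ π ∣ G.coeff j)
    (h2 : Dbl (ac (ev2 w w' G) b)) :
    ∃ m : ℕ, 0 < m ∧ Dbl (ac (mon ((m : ℤ) • w') - 1 : Lau F) b) := by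
  obtain ⟨m, s, Q, E, hm, hE⟩ := resStep_lift π hπ G j hj
  refine ⟨m, hm, ?_⟩
  have h3 := congrArg (ev2 w w') hE
  rw [map_sub, map_mul, map_mul, map_mul, map_sub, map_pow, map_pow, map_one, ev2_X, ev2_C,
    ← mon_nsmul, ← mon_nsmul] at h3
  have h4 : (mon ((s : ℤ) • w') : Lau F) * (mon ((m : ℤ) • w') - 1) =
      ev2 w w' Q * ev2 w w' G - ev2 w w' E * ev w π := by
    linear_combination -h3
  have h5 : Dbl (ac (mon ((s : ℤ) • w') * (mon ((m : ℤ) • w') - 1) : Lau F) b) := by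
    rw [h4, sub_ac, mul_ac, mul_ac]
    exact (h2.ac _).sub (h1.ac _)
  have h6 := h5.ac (mon (-((s : ℤ) • w')))
  rwa [← mul_ac, ← mul_assoc, mon_neg_mul, one_mul] at h6

end Pool.Agent.H97.NV
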