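import Pool.Agent.H97.NV.Basic

/-!
Nivat, module Space. PROOF. Let `𝓑 := Set.range (blk c n m)`, a finite set (subset of the finite type `Fin n × Fin m → F`), and choose `z b` with
`blk c n m (z b) = b` for `b ∈ 𝓑`. The linear map `ev : range L → (𝓑 → F)`, `x ↦ (b ↦ x (z b))` is injective: if `L e (z b) = 0` for all `b` then
`L e z = L e (z (blk z)) = 0` for all `z` by `hL`. So `finrank (range L) ≤ finrank (𝓑 → F) = Nat.card 𝓑 = ncard` (`LinearMap.finrank_le_finrank_of_injective`,
`Module.finrank_pi`, `Set.ncard_eq_toFinset_card'` / `Nat.card_coe_set_eq`).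
-/

set_option autoImplicit false

namespace Pool.Agent.H97.NV

theorem finrank_range_le {F : Type} [Field F] [Finite F] (c : ℤ × ℤ → F) (n m : ℕ)
    (E : Type) [AddCommGroup E] [Module F E] (L : E →ₗ[F] (ℤ × ℤ → F))
    (hL : ∀ (e : E) (z z' : ℤ × ℤ), blk c n m z = blk c n m z' → L e z = L e z') :
    Module.finrank F (LinearMap.range L) ≤ (Set.range (blk c n m)).ncard := by
  classical
  have hfin : Finite (Set.range (blk c n m)) := inferInstance
  let B := Set.range (blk c n m)
  have hz : ∀ b : B, ∃ z, blk c n m z = b.1 := fun b => b.2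
  choose z hz using hz
  let ev : (ℤ × ℤ → F) →ₗ[F] (B → F) :=
    { toFun := fun x b => x (z b)
      map_add' := fun _ _ => rfl
      map_smul' := fun _ _ => rfl }
  have hinj : Function.Injective (ev.comp (LinearMap.range L).subtype) := by
    rw [← LinearMap.ker_eq_bot, LinearMap.ker_eq_bot']
    rintro ⟨x, e, rfl⟩ hx
    apply Subtype.ext
    funext y
    have h1 := congrFun hx ⟨blk c n m y, ⟨y, rfl⟩⟩
    have h2 : L e (z ⟨blk c n m y, ⟨y, rfl⟩⟩) = 0 := h1
    have h3 : L e y = L e (z ⟨blk c n m y, ⟨y, rfl⟩⟩) := hL e _ _ (hz ⟨blk c n m y, ⟨y, rfl⟩⟩).symm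
    show L e y = 0
    rw [h3, h2]
  have h1 := LinearMap.finrank_le_finrank_of_injective hinj
  have : Fintype B := Fintype.ofFinite _
  rw [Module.finrank_fintype_fun_eq_card, ← Nat.card_eq_fintype_card] at h1
  rwa [Nat.card_coe_set_eq] at h1

end Pool.Agent.H97.NV
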